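import Pool.Agent.Helper44K9.FC.Stm

/-! [BS1], [BS2] Bessel's inequality for well separated frequencies (helper65). -/

set_option autoImplicit false

namespace Pool.Agent.Helper44K9.FC

open Finset
open Pool.Agent.H807R2.Dav (ee dd KK geo_bound dd_ge dd_add_int KK_le' norm_ee ee_add)

namespace BsL

/-- the geometric sum over a window -/
lemma far {K H : ℕ} (hK : 1 ≤ K) (hH : 1 ≤ H) {α β : ℝ} (h : ¬ Nr K H α β) (n : ℕ) :
    ‖∑ m ∈ Ioc n (n + H), ee ((α - β) * m)‖ ≤ H / K := by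
  have hH0 : (0 : ℝ) < H := by exact_mod_cast hH
  have hK0 : (0 : ℝ) < K := by exact_mod_cast hK
  have h1 : ∑ m ∈ Ioc n (n + H), ee ((α - β) * m) = ∑ m ∈ Ico (n + 1) (n + H + 1), ee (m * (α - β)) := by
    have : Ioc n (n + H) = Ico (n + 1) (n + H + 1) := by
      ext m; simp only [mem_Ioc, mem_Ico]; omega
    rw [this]
    exact Finset.sum_congr rfl fun m _ => by rw [mul_comm]
  rw [h1]
  have h2 := geo_bound (n + 1) (n + H + 1) (by omega) (M := H) (by push_cast; linarith) (α - β)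
  refine h2.trans ?_
  set t := Int.fract (α - β) with ht
  have ht0 : 0 ≤ t := Int.fract_nonneg _
  have ht1 : t < 1 := Int.fract_lt_one _
  have h3 : α - β = t + (⌊α - β⌋ : ℤ) := by rw [ht]; exact (Int.fract_add_floor _).symm
  have h4 : dd (α - β) = dd t := by rw [h3, dd_add_int]
  have h5 : (K : ℝ) / H < t := by
    by_contra h6
    apply h
    refine ⟨⌊α - β⌋, ?_⟩
    have : α - β - (⌊α - β⌋ : ℤ) = t := by rw [ht]; rfl
    rw [this, abs_of_nonneg ht0]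
    exact not_lt.1 h6
  have h6 : (K : ℝ) / H < 1 - t := by
    by_contra h6
    apply h
    refine ⟨⌊α - β⌋ + 1, ?_⟩
    have : α - β - ((⌊α - β⌋ + 1 : ℤ) : ℝ) = -(1 - t) := by rw [ht]; push_cast; rw [← Int.self_sub_floor]; ring
    rw [this, abs_neg, abs_of_nonneg (by linarith)]
    exact not_lt.1 h6
  have h7 : 4 * ((K : ℝ) / H) ≤ dd (α - β) := by
    rw [h4]
    refine le_trans ?_ (dd_ge ht0 ht1.le)
    have : (K : ℝ) / H ≤ min t (1 - t) := le_min h5.le h6.le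
    linarith
  refine (KK_le' hH0.le (by positivity) h7).trans ?_
  rw [div_le_div_iff₀ (by positivity) hK0]
  have : (H : ℝ) * (4 * (K / H)) = 4 * K := by field_simp
  rw [this]
  linarith

/-- the dual inequality -/
lemma dual (S : Finset ℝ) (c : ℝ → ℂ) (W : Finset ℕ) (k : ℝ → ℝ → ℝ) (D : ℝ)
    (hk : ∀ α ∈ S, ∀ β ∈ S, ‖∑ m ∈ W, ee ((α - β) * m)‖ ≤ k α β) (hs : ∀ α β, k α β = k β α)
    (hD : ∀ α ∈ S, ∑ β ∈ S, k α β ≤ D) :
    ∑ m ∈ W, ‖∑ α ∈ S, c α * ee (α * m)‖ ^ 2 ≤ D * ∑ α ∈ S, ‖c α‖ ^ 2 := by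
  have conj_ee : ∀ x : ℝ, (starRingEnd ℂ) (ee x) = ee (-x) := by
    intro x
    rw [Pool.Agent.H807R2.Dav.ee_eq, Pool.Agent.H807R2.Dav.ee_eq, ← Complex.exp_conj]
    congr 1
    rw [map_mul, Complex.conj_ofReal, Complex.conj_I]
    push_cast
    ring
  have h1 : ((∑ m ∈ W, ‖∑ α ∈ S, c α * ee (α * m)‖ ^ 2 : ℝ) : ℂ) =
      ∑ α ∈ S, ∑ β ∈ S, c α * (starRingEnd ℂ) (c β) * ∑ m ∈ W, ee ((α - β) * m) := by
    push_cast
    have : ∀ m ∈ W, ((‖∑ α ∈ S, c α * ee (α * m)‖ : ℂ)) ^ 2 =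
        ∑ α ∈ S, ∑ β ∈ S, c α * (starRingEnd ℂ) (c β) * ee ((α - β) * m) := by
      intro m _
      rw [← Complex.mul_conj', map_sum, Finset.sum_mul_sum]
      refine Finset.sum_congr rfl fun α _ => Finset.sum_congr rfl fun β _ => ?_
      rw [map_mul, conj_ee, sub_mul, sub_eq_add_neg, ee_add]
      ring
    rw [Finset.sum_congr rfl this, Finset.sum_comm]
    refine Finset.sum_congr rfl fun α _ => ?_
    rw [Finset.sum_comm]
    refine Finset.sum_congr rfl fun β _ => ?_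
    rw [Finset.mul_sum]
  have h2 : ∑ m ∈ W, ‖∑ α ∈ S, c α * ee (α * m)‖ ^ 2 ≤ ∑ α ∈ S, ∑ β ∈ S, ‖c α‖ * ‖c β‖ * k α β := by
    have h3 : ∑ m ∈ W, ‖∑ α ∈ S, c α * ee (α * m)‖ ^ 2 =
        ‖((∑ m ∈ W, ‖∑ α ∈ S, c α * ee (α * m)‖ ^ 2 : ℝ) : ℂ)‖ := by
      rw [Complex.norm_real, Real.norm_eq_abs, abs_of_nonneg]
      exact Finset.sum_nonneg fun _ _ => by positivity
    rw [h3, h1]
    refine (norm_sum_le _ _).trans (Finset.sum_le_sum fun α hα => ?_)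
    refine (norm_sum_le _ _).trans (Finset.sum_le_sum fun β hβ => ?_)
    rw [norm_mul, norm_mul, RCLike.norm_conj]
    exact mul_le_mul_of_nonneg_left (hk α hα β hβ) (by positivity)
  have hk0 : ∀ α ∈ S, ∀ β ∈ S, 0 ≤ k α β := fun α hα β hβ => (norm_nonneg _).trans (hk α hα β hβ)
  refine h2.trans ?_
  have h4 : ∑ α ∈ S, ∑ β ∈ S, ‖c α‖ * ‖c β‖ * k α β ≤
      ∑ α ∈ S, ∑ β ∈ S, (‖c α‖ ^ 2 * k α β / 2 + ‖c β‖ ^ 2 * k α β / 2) := by
    refine Finset.sum_le_sum fun α hα => Finset.sum_le_sum fun β hβ => ?_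
    have := two_mul_le_add_sq ‖c α‖ ‖c β‖
    have h5 := hk0 α hα β hβ
    nlinarith [mul_le_mul_of_nonneg_right this h5]
  refine h4.trans ?_
  have h5 : ∑ α ∈ S, ∑ β ∈ S, (‖c α‖ ^ 2 * k α β / 2 + ‖c β‖ ^ 2 * k α β / 2) =
      ∑ α ∈ S, ‖c α‖ ^ 2 * ∑ β ∈ S, k α β := by
    simp only [Finset.sum_add_distrib]
    rw [Finset.sum_comm (f := fun α β => ‖c β‖ ^ 2 * k α β / 2)]
    have : ∀ α ∈ S, ∑ β ∈ S, ‖c α‖ ^ 2 * k β α / 2 = ∑ β ∈ S, ‖c α‖ ^ 2 * k α β / 2 :=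
      fun α _ => Finset.sum_congr rfl fun β _ => by rw [hs β α]
    rw [Finset.sum_congr rfl this, ← Finset.sum_add_distrib]
    refine Finset.sum_congr rfl fun α _ => ?_
    rw [← Finset.sum_add_distrib, Finset.mul_sum]
    exact Finset.sum_congr rfl fun β _ => by ring
  rw [h5, Finset.mul_sum]
  refine Finset.sum_le_sum fun α hα => ?_
  have := mul_le_mul_of_nonneg_left (hD α hα) (sq_nonneg ‖c α‖)
  linarith

/-- Bombieri's form of Bessel's inequality -/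
lemma bomb (S : Finset ℝ) (f : ℕ → ℂ) (W : Finset ℕ) (k : ℝ → ℝ → ℝ) (D : ℝ) (hD0 : 0 ≤ D)
    (hk : ∀ α ∈ S, ∀ β ∈ S, ‖∑ m ∈ W, ee ((α - β) * m)‖ ≤ k α β) (hs : ∀ α β, k α β = k β α)
    (hD : ∀ α ∈ S, ∑ β ∈ S, k α β ≤ D) :
    ∑ α ∈ S, ‖∑ m ∈ W, f m * ee (α * m)‖ ^ 2 ≤ D * ∑ m ∈ W, ‖f m‖ ^ 2 := by
  set V : ℝ → ℂ := fun α => ∑ m ∈ W, f m * ee (α * m) with hV
  set T : ℝ := ∑ α ∈ S, ‖V α‖ ^ 2 with hT
  have hT0 : 0 ≤ T := Finset.sum_nonneg fun _ _ => by positivity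
  have h1 : (T : ℂ) = ∑ m ∈ W, f m * ∑ α ∈ S, (starRingEnd ℂ) (V α) * ee (α * m) := by
    rw [hT]
    push_cast
    have : ∀ α ∈ S, ((‖V α‖ : ℂ)) ^ 2 = ∑ m ∈ W, f m * ((starRingEnd ℂ) (V α) * ee (α * m)) := by
      intro α _
      rw [← Complex.conj_mul']
      conv_lhs => rw [hV]
      rw [Finset.mul_sum]
      exact Finset.sum_congr rfl fun m _ => by ring
    rw [Finset.sum_congr rfl this, Finset.sum_comm]
    exact Finset.sum_congr rfl fun m _ => by rw [Finset.mul_sum]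
  have h2 : T ≤ ∑ m ∈ W, ‖f m‖ * ‖∑ α ∈ S, (starRingEnd ℂ) (V α) * ee (α * m)‖ := by
    have : T = ‖(T : ℂ)‖ := by rw [Complex.norm_real, Real.norm_eq_abs, abs_of_nonneg hT0]
    rw [this, h1]
    refine (norm_sum_le _ _).trans (Finset.sum_le_sum fun m _ => by rw [norm_mul])
  have h3 := Finset.sum_mul_sq_le_sq_mul_sq W (fun m => ‖f m‖)
    (fun m => ‖∑ α ∈ S, (starRingEnd ℂ) (V α) * ee (α * m)‖)
  have h4 := dual S (fun α => (starRingEnd ℂ) (V α)) W k D hk hs hD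
  simp only [RCLike.norm_conj] at h4
  have hF0 : 0 ≤ ∑ m ∈ W, ‖f m‖ ^ 2 := Finset.sum_nonneg fun _ _ => by positivity
  have h5 : T ^ 2 ≤ (∑ m ∈ W, ‖f m‖ ^ 2) * (D * T) := by
    calc T ^ 2 ≤ (∑ m ∈ W, ‖f m‖ * ‖∑ α ∈ S, (starRingEnd ℂ) (V α) * ee (α * m)‖) ^ 2 := by gcongr
      _ ≤ _ := h3
      _ ≤ _ := mul_le_mul_of_nonneg_left h4 hF0
  rcases hT0.eq_or_lt with h6 | h6
  · rw [← h6]
    positivity
  · have h7 : T * T ≤ T * (D * ∑ m ∈ W, ‖f m‖ ^ 2) := by nlinarith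
    exact le_of_mul_le_mul_left h7 h6

end BsL

lemma Nr.symm' {K H : ℕ} {α β : ℝ} (h : Nr K H α β) : Nr K H β α := by
  obtain ⟨a, ha⟩ := h
  refine ⟨-a, ?_⟩
  have : β - α - ((-a : ℤ) : ℝ) = -(α - β - a) := by push_cast; ring
  rw [this, abs_neg]
  exact ha

open Classical in
/-- [BS1] -/
theorem bs1 : S_BS1 := by
  intro ε R hε
  refine ⟨⌈(R : ℝ) / ε⌉₊ + 1, ?_⟩
  intro K hK f n H S hH hS hR
  have hK1 : 1 ≤ K := by omega
  have hK0 : (0 : ℝ) < K := by exact_mod_cast hK1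
  have hH0 : (0 : ℝ) < H := by exact_mod_cast hH
  have hRK : (R : ℝ) ≤ ε * K := by
    have h1 : (R : ℝ) / ε ≤ K := by
      refine (Nat.le_ceil _).trans ?_
      exact_mod_cast (by omega : ⌈(R : ℝ) / ε⌉₊ ≤ K)
    rw [div_le_iff₀ hε] at h1
    linarith
  set k : ℝ → ℝ → ℝ := fun α β => if α = β then (H : ℝ) else H / K with hk
  have h1 := BsL.bomb S f (Ioc n (n + H)) k ((1 + ε) * H) (by positivity) ?_ ?_ ?_
  · have h2 : ∑ α ∈ S, cr f α n H ^ 2 = (∑ α ∈ S, ‖∑ m ∈ Ioc n (n + H), f m * ee (α * m)‖ ^ 2) / (H : ℝ) ^ 2 := by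
      rw [Finset.sum_div]
      refine Finset.sum_congr rfl fun α _ => ?_
      unfold cr V
      rw [div_pow]
    rw [h2, div_le_iff₀ (by positivity)]
    refine h1.trans (le_of_eq ?_)
    unfold en
    field_simp
  · intro α hα β hβ
    simp only [hk]
    split_ifs with h
    · subst h
      refine (norm_sum_le _ _).trans ?_
      simp [norm_ee]
    · exact BsL.far hK1 hH (hS α hα β hβ h) n
  · intro α β
    simp only [hk, eq_comm]
  · intro α hα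
    have h2 : ∑ β ∈ S, k α β ≤ ∑ β ∈ S, ((if α = β then (H : ℝ) else 0) + H / K) := by
      refine Finset.sum_le_sum fun β _ => ?_
      simp only [hk]
      split_ifs
      · have : (0 : ℝ) ≤ H / K := by positivity
        linarith
      · linarith
    refine h2.trans ?_
    rw [Finset.sum_add_distrib, Finset.sum_ite_eq, if_pos hα, Finset.sum_const, nsmul_eq_mul]
    have h3 : ((#S : ℕ) : ℝ) ≤ R := by exact_mod_cast hR
    have h4 : ((#S : ℕ) : ℝ) * ((H : ℝ) / K) ≤ ε * K * ((H : ℝ) / K) :=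
      mul_le_mul_of_nonneg_right (h3.trans hRK) (by positivity)
    have h5 : ε * K * ((H : ℝ) / K) = ε * H := by field_simp
    linarith

/-- [BS2] -/
theorem bs2 : S_BS1 → S_BS2 := by
  intro hB θ hθ
  set R := ⌈2 / θ⌉₊ with hR
  obtain ⟨K₀, hK₀⟩ := hB (1 / 2) (R + 1) (by norm_num)
  refine ⟨K₀, R, ?_⟩
  intro K hK f hf n H S hH hS hθS
  by_contra hc
  obtain ⟨S', hS', hcard⟩ := Finset.exists_subset_card_eq (show R + 1 ≤ #S by omega)
  have h1 := hK₀ K hK f n H S' hH (fun α hα β hβ h => hS α (hS' hα) β (hS' hβ) h) (by omega)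
  have hH0 : (0 : ℝ) < H := by exact_mod_cast hH
  have h2 : en f n H ≤ 1 := by
    unfold en
    rw [div_le_one hH0]
    have : ∑ m ∈ Ioc n (n + H), ‖f m‖ ^ 2 ≤ ∑ m ∈ Ioc n (n + H), (1 : ℝ) :=
      Finset.sum_le_sum fun m _ => pow_le_one₀ (norm_nonneg _) (hf m)
    refine this.trans ?_
    simp
  have h3 : (#S' : ℝ) * θ ≤ ∑ α ∈ S', cr f α n H ^ 2 := by
    rw [← nsmul_eq_mul]
    exact Finset.card_nsmul_le_sum _ _ _ fun α hα => (hθS α (hS' hα)).le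
  rw [hcard] at h3
  have h4 : 2 / θ ≤ (R : ℝ) := Nat.le_ceil _
  rw [div_le_iff₀ hθ] at h4
  push_cast at h3
  nlinarith

end Pool.Agent.Helper44K9.FC
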