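import Pool.Agent.Helper44K9.FC.Stm
import Pool.Agent.H373R2.T7.SupLiou

/-!
# Project FC: long sums (leaf DAV)
-/

set_option autoImplicit false

namespace Pool.Agent.Helper44K9.FC

open Finset
open Pool.Agent.H807R2.Dav (ee)
open Pool.Agent.H373R2.T7 (SupSmall muC liR sup_muC sup_liou)

lemma dav_of (f : ℕ → ℂ) (hf : SupSmall f) : S_DAV f := by
  intro ε hε
  obtain ⟨N0, h0⟩ := hf 1
  obtain ⟨N1, h1⟩ := Filter.eventually_atTop.1
    ((Real.tendsto_log_atTop.comp tendsto_natCast_atTop_atTop).eventually_ge_atTop (1 / ε))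
  refine ⟨max N0 N1, fun X hX α => ?_⟩
  have h2 := h0 X ((le_max_left _ _).trans hX) α
  have h3 : 1 / ε ≤ Real.log X := h1 X ((le_max_right _ _).trans hX)
  have h4 : 0 < Real.log X := (by positivity : (0 : ℝ) < 1 / ε).trans_le h3
  have e1 : V f α 0 X = ∑ n ∈ Icc 1 X, f n * ee ((n : ℝ) * α) := by
    unfold V
    rw [zero_add]
    have h5 : Ioc 0 X = Icc 1 X := by
      ext m
      simp only [mem_Ioc, mem_Icc]
      omega
    rw [h5]
    exact sum_congr rfl fun n _ => by rw [mul_comm α]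
  rw [e1]
  refine h2.trans ?_
  rw [pow_one, div_le_iff₀ h4]
  have h5 : 1 ≤ ε * Real.log X := by
    rw [div_le_iff₀ hε] at h3
    linarith
  have h6 : (0 : ℝ) ≤ X := Nat.cast_nonneg _
  nlinarith

/-- the leaf DAV, Möbius function -/
theorem dav_mu : S_DAV mu := dav_of mu sup_muC

/-- the leaf DAV, Liouville function -/
theorem dav_la : S_DAV la := dav_of la sup_liou

end Pool.Agent.Helper44K9.FC
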