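import Pool.Agent.Helper44K9.FC.Stm
import Pool.Agent.Helper44K9.FU.Eq

/-! [EQ1]: the dilates by primes of a number which is not near a rational number of small denominator. -/

set_option autoImplicit false

namespace Pool.Agent.Helper44K9.FC

open Finset MeasureTheory
open Pool.Agent.H807R2.Dav (ee)
open Pool.Agent.Helper44K9.FU.EqL (blocks)

open Classical in
theorem eq1 (hTR : S_TRIG1) (hW : S_WPR) (hCH : Pool.Agent.Helper44K9.FU.S_CHB) : S_EQ1 := by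
  intro E ε hEc hε
  obtain ⟨⟨b, hb, k₀, hk₀⟩, -⟩ := hCH
  obtain ⟨S, a, τ, hτ, h0S, hpos, ha0, hmaj⟩ := hTR E (ε / 2) hEc (by positivity)
  set A₀ : ℝ := ∑ j ∈ S, ‖a j‖ + 1 with hA₀
  have hA₀0 : 0 < A₀ := by
    have : 0 ≤ ∑ j ∈ S, ‖a j‖ := sum_nonneg fun _ _ => norm_nonneg _
    linarith
  obtain ⟨C, hC1, hWC⟩ := hW (b * ε / (2 * A₀)) (by positivity)
  set D₀ : ℕ := ∑ j ∈ S, j.natAbs + 1 with hD₀
  refine ⟨C * D₀, fun τQ hτQ z A => ?_⟩
  obtain ⟨K, hK⟩ := hWC τQ hτQ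
  -- large k
  obtain ⟨k₁, hk₁0, hk₁1, hk₁K, hk₁z⟩ : ∃ k₁ : ℕ, k₀ ≤ k₁ ∧ 1 ≤ k₁ ∧ K ≤ k₁ ∧ z ≤ 2 ^ k₁ := by
    refine ⟨k₀ + K + z + 1, by omega, by omega, by omega, ?_⟩
    exact le_trans (by omega) (Nat.lt_two_pow_self (n := k₀ + K + z + 1)).le
  -- divergence
  obtain ⟨k₂, hk₂, hdiv⟩ : ∃ k₂ : ℕ, k₁ ≤ k₂ ∧ A ≤ b * ∑ k ∈ Ico k₁ k₂, 1 / (k : ℝ) := by
    have h1 := Real.tendsto_sum_range_one_div_nat_succ_atTop
    obtain ⟨M, hM⟩ := (h1.eventually_ge_atTop (A / b + ∑ k ∈ range k₁, 1 / ((k : ℝ)))).exists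
    refine ⟨max k₁ (M + 1), le_max_left _ _, ?_⟩
    have h2 : ∑ i ∈ range M, 1 / ((i : ℝ) + 1) = ∑ k ∈ range (M + 1), 1 / (k : ℝ) := by
      rw [sum_range_succ' (fun k : ℕ => 1 / (k : ℝ)) M]
      push_cast; simp
    rw [h2] at hM
    have h3 : ∑ k ∈ range (M + 1), 1 / (k : ℝ) ≤ ∑ k ∈ range (max k₁ (M + 1)), 1 / (k : ℝ) :=
      sum_le_sum_of_subset_of_nonneg (range_subset_range.2 (le_max_right _ _)) fun _ _ _ => by positivity
    have h4 : ∑ k ∈ Ico k₁ (max k₁ (M + 1)), 1 / (k : ℝ) =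
        ∑ k ∈ range (max k₁ (M + 1)), 1 / (k : ℝ) - ∑ k ∈ range k₁, 1 / (k : ℝ) :=
      sum_Ico_eq_sub _ (le_max_left _ _)
    rw [h4]
    have h5 : A / b ≤ ∑ k ∈ range (max k₁ (M + 1)), 1 / (k : ℝ) - ∑ k ∈ range k₁, 1 / (k : ℝ) := by
      linarith
    rw [div_le_iff₀ hb] at h5
    linarith
  set I : Finset ℕ := (Ioc (2 ^ k₁) (2 ^ k₂)).filter Nat.Prime with hI
  set L : ℝ := ∑ p ∈ I, 1 / (p : ℝ) with hL
  have hL0 : 0 ≤ L := sum_nonneg fun _ _ => by positivity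
  have hLb : b * ∑ k ∈ Ico k₁ k₂, 1 / (k : ℝ) ≤ L := by
    rw [hL, hI, blocks _ k₁ k₂ hk₂, mul_sum]
    refine sum_le_sum fun k hk => ?_
    rw [mem_Ico] at hk
    rw [mul_one_div]
    exact hk₀ k (by omega)
  refine ⟨I, ?_, ?_, τ, hτ, fun α hα => ?_⟩
  · intro p hp
    rw [hI, mem_filter, mem_Ioc] at hp
    exact ⟨hp.2, lt_of_le_of_lt hk₁z hp.1.1⟩
  · exact hdiv.trans hLb
  -- the main estimate
  set T : ℝ → ℝ := fun x => (∑ j ∈ S, a j * ee (j * x)).re with hT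
  have e0 : ∑ p ∈ I.filter (fun p : ℕ => ∃ β : ℝ, (β : UnitAddCircle) ∈ E ∧ ∃ a : ℤ, |β - p * α - a| ≤ τ),
      1 / (p : ℝ) ≤ ∑ p ∈ I, 1 / (p : ℝ) * T (p * α) := by
    calc ∑ p ∈ I.filter (fun p : ℕ => ∃ β : ℝ, (β : UnitAddCircle) ∈ E ∧ ∃ a : ℤ, |β - p * α - a| ≤ τ),
        1 / (p : ℝ) ≤ ∑ p ∈ I.filter (fun p : ℕ => ∃ β : ℝ, (β : UnitAddCircle) ∈ E ∧
          ∃ a : ℤ, |β - p * α - a| ≤ τ), 1 / (p : ℝ) * T (p * α) := by
          refine sum_le_sum fun p hp => ?_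
          obtain ⟨β, hβ, b', hb'⟩ := (mem_filter.1 hp).2
          have h1 : 1 ≤ T (p * α) := hmaj _ β hβ b' hb'
          calc 1 / (p : ℝ) = 1 / (p : ℝ) * 1 := (mul_one _).symm
            _ ≤ _ := mul_le_mul_of_nonneg_left h1 (by positivity)
      _ ≤ _ := sum_le_sum_of_subset_of_nonneg (filter_subset _ _) fun p _ _ =>
          mul_nonneg (by positivity) (hpos _)
  refine e0.trans ?_
  have e1 : ∑ p ∈ I, 1 / (p : ℝ) * T (p * α) =
      (∑ j ∈ S, a j * ∑ p ∈ I, ((1 / (p : ℝ) : ℝ) : ℂ) * ee (p * (j * α))).re := by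
    have h1 : ∑ j ∈ S, a j * ∑ p ∈ I, ((1 / (p : ℝ) : ℝ) : ℂ) * ee (p * (j * α)) =
        ∑ p ∈ I, ((1 / (p : ℝ) : ℝ) : ℂ) * ∑ j ∈ S, a j * ee (j * (p * α)) := by
      simp only [mul_sum]
      rw [sum_comm]
      refine sum_congr rfl fun p _ => sum_congr rfl fun j _ => ?_
      rw [show (j : ℝ) * ((p : ℝ) * α) = p * (j * α) by ring]
      ring
    rw [h1, Complex.re_sum]
    refine sum_congr rfl fun p _ => ?_
    rw [Complex.re_ofReal_mul]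
  rw [e1, Complex.re_sum, ← add_sum_erase S _ h0S]
  have e2 : (a 0 * ∑ p ∈ I, ((1 / (p : ℝ) : ℝ) : ℂ) * ee (p * (((0 : ℤ) : ℝ) * α))).re ≤
      ((volume E).toReal + ε / 2) * L := by
    have e3 : ∑ p ∈ I, ((1 / (p : ℝ) : ℝ) : ℂ) * ee (p * (((0 : ℤ) : ℝ) * α)) = ((L : ℝ) : ℂ) := by
      rw [hL]
      push_cast
      refine sum_congr rfl fun n _ => ?_
      have : ee 0 = 1 := by unfold ee; simp
      rw [zero_mul, mul_zero, this, mul_one]
    rw [e3, mul_comm, Complex.re_ofReal_mul, mul_comm]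
    exact mul_le_mul_of_nonneg_right ha0 hL0
  have e4 : ∀ j ∈ S, j ≠ 0 → ‖∑ p ∈ I, ((1 / (p : ℝ) : ℝ) : ℂ) * ee (p * (j * α))‖ ≤ ε / (2 * A₀) * L := by
    intro j hj hj0
    have hsum : ∑ p ∈ I, ((1 / (p : ℝ) : ℝ) : ℂ) * ee (p * (j * α)) = ∑ k ∈ Ico k₁ k₂,
        ∑ p ∈ (Ioc (2 ^ k) (2 ^ (k + 1))).filter Nat.Prime, ((1 / (p : ℝ) : ℝ) : ℂ) * ee (p * (j * α)) := by
      have hbl : ∀ F : ℕ → ℂ, ∑ p ∈ I, F p = ∑ k ∈ Ico k₁ k₂,
          ∑ p ∈ (Ioc (2 ^ k) (2 ^ (k + 1))).filter Nat.Prime, F p := by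
        intro F
        apply Complex.ext
        · rw [Complex.re_sum, Complex.re_sum, hI, blocks (fun p => (F p).re) k₁ k₂ hk₂]
          exact sum_congr rfl fun k _ => (Complex.re_sum _ _).symm
        · rw [Complex.im_sum, Complex.im_sum, hI, blocks (fun p => (F p).im) k₁ k₂ hk₂]
          exact sum_congr rfl fun k _ => (Complex.im_sum _ _).symm
      exact hbl _
    rw [hsum]
    calc ‖∑ k ∈ Ico k₁ k₂, ∑ p ∈ (Ioc (2 ^ k) (2 ^ (k + 1))).filter Nat.Prime,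
          ((1 / (p : ℝ) : ℝ) : ℂ) * ee (p * (j * α))‖
        ≤ ∑ k ∈ Ico k₁ k₂, b * ε / (2 * A₀) / k := by
          refine norm_sum_le_of_le _ fun k hk => ?_
          rw [mem_Ico] at hk
          refine hK k (by omega) (j * α) fun q hq1 hqC a' => ?_
          have h1 := hα (q * j.natAbs) (Nat.mul_pos hq1 (Int.natAbs_pos.2 hj0)) (by
            refine Nat.mul_le_mul hqC ?_
            have : j.natAbs ≤ ∑ j ∈ S, j.natAbs :=
              single_le_sum (f := fun j : ℤ => j.natAbs) (fun _ _ => Nat.zero_le _) hj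
            omega) (if 0 ≤ j then a' else -a')
          have h5 : |((q * j.natAbs : ℕ) : ℝ) * α - ((if 0 ≤ j then a' else -a' : ℤ) : ℝ)| =
              |q * (j * α) - a'| := by
            have h6 : ((j.natAbs : ℕ) : ℝ) = ((|j| : ℤ) : ℝ) := by
              rw [Int.abs_eq_natAbs, Int.cast_natCast]
            split_ifs with hj1
            · push_cast
              rw [h6, abs_of_nonneg hj1]
              congr 1; ring
            · push Not at hj1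
              push_cast
              rw [h6, abs_of_neg hj1]
              push_cast
              rw [show (q : ℝ) * -(j : ℝ) * α - -(a' : ℝ) = -(q * (j * α) - a') by ring, abs_neg]
          rwa [h5] at h1
      _ = ε / (2 * A₀) * (b * ∑ k ∈ Ico k₁ k₂, 1 / (k : ℝ)) := by
          rw [mul_sum, mul_sum]
          exact sum_congr rfl fun k _ => by ring
      _ ≤ ε / (2 * A₀) * L := mul_le_mul_of_nonneg_left hLb (by positivity)
  have e5 : ∑ j ∈ S.erase 0, (a j * ∑ p ∈ I, ((1 / (p : ℝ) : ℝ) : ℂ) * ee (p * (j * α))).re ≤ ε / 2 * L := by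
    calc ∑ j ∈ S.erase 0, (a j * ∑ p ∈ I, ((1 / (p : ℝ) : ℝ) : ℂ) * ee (p * (j * α))).re ≤
          ∑ j ∈ S.erase 0, ‖a j‖ * (ε / (2 * A₀) * L) := by
          refine sum_le_sum fun j hj => ?_
          rw [mem_erase] at hj
          refine (Complex.re_le_norm _).trans ?_
          rw [norm_mul]
          exact mul_le_mul_of_nonneg_left (e4 j hj.2 hj.1) (norm_nonneg _)
      _ = (∑ j ∈ S.erase 0, ‖a j‖) * (ε / (2 * A₀) * L) := by rw [sum_mul]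
      _ ≤ A₀ * (ε / (2 * A₀) * L) := by
          refine mul_le_mul_of_nonneg_right ?_ (by positivity)
          have : ∑ j ∈ S.erase 0, ‖a j‖ ≤ ∑ j ∈ S, ‖a j‖ :=
            sum_le_sum_of_subset_of_nonneg (erase_subset _ _) fun _ _ _ => norm_nonneg _
          linarith
      _ = ε / 2 * L := by field_simp
  linarith

end Pool.Agent.Helper44K9.FC
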