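import Pool.Agent.Helper44K9.FC.Mone
import Pool.Agent.Helper44K9.FU.Fin

/-! From one of many scales to all scales. -/

set_option autoImplicit false

namespace Pool.Agent.Helper44K9.FC

open Finset MeasureTheory Polynomial
open Pool.Agent.H807R2.Dav (ee norm_ee)
open Pool.Agent.Helper44K9.FU (MM W dil Mul1 S_PUSH S_DIL S_SUB)

lemma W_lin (f : ℕ → ℂ) (γ : ℝ) (n H : ℕ) : W f (C γ * X) n H = V f γ n H := by
  unfold W V
  refine sum_congr rfl fun m _ => ?_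
  rw [eval_mul, eval_C, eval_X]

lemma sub_V {f : ℕ → ℂ} (hf : ∀ n, ‖f n‖ ≤ 1) (β : ℝ) (n H H' : ℕ) :
    (H' : ℝ) * ‖V f β n H‖ ≤ ∑ i ∈ range H, ‖V f β (n + i) H'‖ + 2 * (H' : ℝ) ^ 2 := by
  have h1 := Pool.Agent.Helper44K9.FU.FL.sub_window hf (C β * X) n H H'
  simp only [W_lin] at h1
  exact h1

lemma cr_sub {f : ℕ → ℂ} (hf : ∀ n, ‖f n‖ ≤ 1) (β : ℝ) (n : ℕ) {H H' : ℕ} (hH : 1 ≤ H) (hH' : 1 ≤ H') :
    cr f β n H ≤ 1 / (H : ℝ) * ∑ i ∈ range H, cr f β (n + i) H' + 2 * H' / H := by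
  have h1 := sub_V hf β n H H'
  have hH0 : (0 : ℝ) < H := by exact_mod_cast hH
  have hH0' : (0 : ℝ) < H' := by exact_mod_cast hH'
  have h2 : ∑ i ∈ range H, ‖V f β (n + i) H'‖ = H' * ∑ i ∈ range H, cr f β (n + i) H' := by
    rw [mul_sum]
    refine sum_congr rfl fun i _ => ?_
    unfold cr
    field_simp
  rw [h2] at h1
  have h3 : (H' : ℝ) * ‖V f β n H‖ ≤ H' * (∑ i ∈ range H, cr f β (n + i) H' + 2 * H') := by
    rw [mul_add]
    nlinarith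
  have h4 := le_of_mul_le_mul_left h3 hH0'
  unfold cr at h4 ⊢
  rw [div_le_iff₀ hH0]
  refine h4.trans (le_of_eq ?_)
  field_simp

lemma sE_sub {f : ℕ → ℂ} (hf : ∀ n, ‖f n‖ ≤ 1) (E : Set UnitAddCircle) (n : ℕ) {H H' : ℕ} (hH : 1 ≤ H) (hH' : 1 ≤ H') :
    sE f E n H ≤ 1 / (H : ℝ) * ∑ i ∈ range H, sE f E (n + i) H' + 2 * H' / H := by
  refine sE_le ?_ fun β hβ => ?_
  · refine add_nonneg (mul_nonneg (by positivity) (sum_nonneg fun i _ => sE_nonneg _ _ _ _)) (by positivity)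
  · refine (cr_sub hf β n hH hH').trans ?_
    gcongr with i _
    exact le_sE hf _ _ hβ

lemma harm_le (N : ℕ) : ∑ n ∈ Icc 1 N, 1 / (n : ℝ) ≤ 1 + Real.log N := by
  have h1 := harmonic_le_one_add_log N
  refine le_trans (le_of_eq ?_) h1
  rw [harmonic_eq_sum_Icc]
  push_cast
  exact sum_congr rfl fun x _ => one_div _

/-- all scales, `ε ≤ 1` -/
theorem fin_core (hSUB : S_SUB) {f : ℕ → ℂ} (hf : Mul1 f) (hDAV : S_DAV f) {E : Set UnitAddCircle} {σ ε : ℝ}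
    (hσ0 : 0 ≤ σ) (hσ1 : σ ≤ 1) (hε : 0 < ε) (hε1 : ε ≤ 1)
    (hM : ∃ H₁ H₂ N₀ : ℕ, 1 ≤ H₁ ∧ ∀ N ≥ N₀, ∃ H ∈ Ico H₁ H₂,
      ∑ n ∈ Icc 1 N, (1 / (n : ℝ)) * sE f E n H ≤ (σ + ε / 8) * ∑ n ∈ Icc 1 N, 1 / (n : ℝ)) :
    ∃ H₀ : ℕ, ∀ N H : ℕ, H₀ ≤ H → H ≤ N →
      ∑ n ∈ Icc 1 N, (1 / (n : ℝ)) * sE f E n H ≤ (σ + ε) * Real.log N := by
  obtain ⟨H₁, H₂, N₁, hH₁, hmain⟩ := hM
  obtain ⟨C, hC⟩ := exists_nat_ge (16 / ε)
  have hC1 : 1 ≤ C := by
    have h1 : (0 : ℝ) < C := lt_of_lt_of_le (by positivity) hC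
    exact_mod_cast h1
  have hCr : (1 : ℝ) ≤ C := by exact_mod_cast hC1
  have hCε : 1 / (C : ℝ) ≤ ε / 16 := by
    rw [div_le_iff₀ hε] at hC
    rw [div_le_div_iff₀ (by linarith) (by norm_num)]
    linarith
  set ε₂ : ℝ := ε / (32 * (C + 1)) with hε₂
  have hε₂0 : 0 < ε₂ := by positivity
  obtain ⟨X₀, hX₀⟩ := hDAV ε₂ hε₂0
  obtain ⟨A, hA⟩ := exists_nat_ge (16 * (H₂ : ℝ) / ε)
  obtain ⟨A', hA'⟩ := exists_nat_ge ((X₀ : ℝ) / ε₂)
  obtain ⟨A'', hA''⟩ := exists_nat_ge (Real.exp (8 / ε))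
  refine ⟨N₁ + X₀ + A + A' + A'' + H₂ + 1, fun N H hH hN => ?_⟩
  have hH0 : (0 : ℝ) < H := by exact_mod_cast (by omega : 0 < H)
  have hHA : 16 * (H₂ : ℝ) / ε ≤ H := hA.trans (by exact_mod_cast (by omega : A ≤ H))
  have hHA' : (X₀ : ℝ) / ε₂ ≤ H := hA'.trans (by exact_mod_cast (by omega : A' ≤ H))
  have hHA'' : Real.exp (8 / ε) ≤ N := hA''.trans (by exact_mod_cast (by omega : A'' ≤ N))
  obtain ⟨H', hH', hsm⟩ := hmain N (by omega)
  rw [mem_Ico] at hH'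
  have hH'0 : (0 : ℝ) < H' := by exact_mod_cast (by omega : 0 < H')
  set hn : ℝ := ∑ n ∈ Icc 1 N, 1 / (n : ℝ) with hhn
  have hn0 : 0 ≤ hn := sum_nonneg fun _ _ => by positivity
  have hlog : hn ≤ 1 + Real.log N := harm_le N
  have hlogN : 8 / ε ≤ Real.log N := by
    rw [Real.le_log_iff_exp_le (lt_of_lt_of_le (Real.exp_pos _) hHA'')]
    exact hHA''
  -- small n
  have hsmall : ∀ n : ℕ, n ≤ C * H → sE f E n H ≤ ε / 8 := by
    intro n hn'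
    refine sE_le (by positivity) fun β _ => ?_
    unfold cr
    rw [div_le_iff₀ hH0]
    have hnr : (n : ℝ) ≤ C * H := by exact_mod_cast hn'
    have h2 : V f β n H = V f β 0 (n + H) - V f β 0 n := by
      unfold V
      rw [Nat.zero_add, Nat.zero_add, eq_sub_iff_add_eq, add_comm]
      rw [← sum_union]
      · congr 1
        ext m; simp only [mem_union, mem_Ioc]; omega
      · rw [Finset.disjoint_left]
        intro m hm hm'
        rw [mem_Ioc] at hm hm'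
        omega
    have h3 : ‖V f β 0 (n + H)‖ ≤ ε₂ * ((n + H : ℕ) : ℝ) := hX₀ (n + H) (by omega) β
    have h4 : ‖V f β 0 n‖ ≤ ε₂ * (C * H) := by
      by_cases hn2 : X₀ ≤ n
      · exact (hX₀ n hn2 β).trans (mul_le_mul_of_nonneg_left hnr hε₂0.le)
      · push Not at hn2
        refine (V_le hf.1 β 0 n).trans ?_
        rw [div_le_iff₀ hε₂0] at hHA'
        have h5 : (n : ℝ) ≤ X₀ := by exact_mod_cast hn2.le
        have h6 : ε₂ * (1 * H) ≤ ε₂ * (C * H) := mul_le_mul_of_nonneg_left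
          (mul_le_mul_of_nonneg_right hCr hH0.le) hε₂0.le
        linarith
    rw [h2]
    refine (norm_sub_le _ _).trans ?_
    push_cast at h3
    have h6 : ε₂ * ((n : ℝ) + H) ≤ ε₂ * ((C + 1) * H) := mul_le_mul_of_nonneg_left (by linarith) hε₂0.le
    have h7 : ε₂ * (C * H) ≤ ε₂ * ((C + 1) * H) := mul_le_mul_of_nonneg_left (by linarith) hε₂0.le
    have h8 : ε₂ * ((C + 1) * H) = ε / 32 * H := by
      rw [hε₂]; field_simp
    have h9 : 0 ≤ ε * H := by positivity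
    linarith
  -- total
  have h9 : ∑ n ∈ Icc 1 N, (1 / (n : ℝ)) * sE f E n H ≤ ε / 8 * hn + (1 + ε / 16) * ((σ + ε / 8) * hn + 1) +
      ε / 8 * hn := by
    have hp0 : 0 ≤ (σ + ε / 8) * hn + 1 := by positivity
    by_cases hCN : C * H ≤ N
    · have h1 : ∑ n ∈ Icc 1 (C * H), (1 / (n : ℝ)) * sE f E n H ≤ ε / 8 * hn := by
        calc ∑ n ∈ Icc 1 (C * H), (1 / (n : ℝ)) * sE f E n H ≤ ∑ n ∈ Icc 1 (C * H), (1 / (n : ℝ)) * (ε / 8) :=
              sum_le_sum fun n hn' => mul_le_mul_of_nonneg_left (hsmall n (mem_Icc.1 hn').2) (by positivity)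
          _ = ε / 8 * ∑ n ∈ Icc 1 (C * H), 1 / (n : ℝ) := by rw [← sum_mul]; ring
          _ ≤ ε / 8 * hn := by
              refine mul_le_mul_of_nonneg_left ?_ (by positivity)
              exact sum_le_sum_of_subset_of_nonneg (Icc_subset_Icc_right hCN) fun _ _ _ => by positivity
      have h2 : ∑ n ∈ Ioc (C * H) N, (1 / (n : ℝ)) * sE f E n H ≤
          (1 + 1 / (C : ℝ)) * (∑ n ∈ Icc 1 N, (1 / (n : ℝ)) * sE f E n H' + 1) + ε / 8 * hn := by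
        refine hSUB (fun n => sE f E n H) (fun n => sE f E n H') C H N (ε / 8)
          (fun n => ⟨sE_nonneg _ _ _ _, sE_le_one hf.1 _ _ _⟩) hC1 (by omega) hCN (by positivity) fun n => ?_
        refine (sE_sub hf.1 E n (by omega : 1 ≤ H) (by omega : 1 ≤ H')).trans ?_
        refine add_le_add le_rfl ?_
        rw [div_le_iff₀ hH0]
        rw [div_le_iff₀ hε] at hHA
        have h3 : (H' : ℝ) ≤ H₂ := by exact_mod_cast hH'.2.le
        linarith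
      have h3 : (1 + 1 / (C : ℝ)) * (∑ n ∈ Icc 1 N, (1 / (n : ℝ)) * sE f E n H' + 1) ≤
          (1 + ε / 16) * ((σ + ε / 8) * hn + 1) := by
        refine mul_le_mul (by linarith) (by linarith) ?_ (by positivity)
        exact add_nonneg (sum_nonneg fun n _ => mul_nonneg (by positivity) (sE_nonneg _ _ _ _)) zero_le_one
      have h4 : ∑ n ∈ Icc 1 N, (1 / (n : ℝ)) * sE f E n H = ∑ n ∈ Icc 1 (C * H), (1 / (n : ℝ)) * sE f E n H +
          ∑ n ∈ Ioc (C * H) N, (1 / (n : ℝ)) * sE f E n H := by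
        rw [← sum_union]
        · congr 1
          ext m; simp only [mem_union, mem_Icc, mem_Ioc]; omega
        · rw [Finset.disjoint_left]
          intro m hm hm'
          rw [mem_Icc] at hm
          rw [mem_Ioc] at hm'
          omega
      rw [h4]
      linarith
    · push Not at hCN
      have h1 : ∑ n ∈ Icc 1 N, (1 / (n : ℝ)) * sE f E n H ≤ ε / 8 * hn := by
        calc ∑ n ∈ Icc 1 N, (1 / (n : ℝ)) * sE f E n H ≤ ∑ n ∈ Icc 1 N, (1 / (n : ℝ)) * (ε / 8) :=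
              sum_le_sum fun n hn' => mul_le_mul_of_nonneg_left
                (hsmall n ((mem_Icc.1 hn').2.trans hCN.le)) (by positivity)
          _ = ε / 8 * hn := by rw [← sum_mul]; ring
      have h2 : 0 ≤ (1 + ε / 16) * ((σ + ε / 8) * hn + 1) := by positivity
      have h3 : 0 ≤ ε / 8 * hn := by positivity
      linarith
  refine h9.trans ?_
  have h10 : (1 + ε / 16) * ((σ + ε / 8) * hn + 1) ≤ (σ + ε / 4) * hn + 2 := by
    have h11 : (1 + ε / 16) * (σ + ε / 8) ≤ σ + ε / 4 := by nlinarith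
    have h12 := mul_le_mul_of_nonneg_right h11 hn0
    nlinarith
  have h13 : (σ + ε / 2) * hn ≤ (σ + ε / 2) * (1 + Real.log N) := mul_le_mul_of_nonneg_left hlog (by positivity)
  have h14 : ε / 2 * (8 / ε) ≤ ε / 2 * Real.log N := mul_le_mul_of_nonneg_left hlogN (by positivity)
  have h15 : ε / 2 * (8 / ε) = 4 := by field_simp; norm_num
  nlinarith

/-- all scales -/
theorem fin (hBS1 : S_BS1) (hBS2 : S_BS2) (hNR : S_NR1) (hPIG : S_PIGR) (hEQ : S_EQ1) (hPUSH : S_PUSH)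
    (hDIL : S_DIL) (hSUB : S_SUB) {f : ℕ → ℂ} (hf : Mul1 f) (hr : ∀ n, (starRingEnd ℂ) (f n) = f n)
    (hMAJ : S_MAJ f) (hDAV : S_DAV f) {s : ℝ} (hs0 : 0 ≤ s) (hs1 : s ≤ 1)
    (hEN : ∀ (H : ℕ) (ε : ℝ), 1 ≤ H → 0 < ε → ∃ N₀ : ℕ, ∀ N ≥ N₀,
      ∑ n ∈ Icc 1 N, (1 / (n : ℝ)) * en f n H ≤ (s + ε) * ∑ n ∈ Icc 1 N, 1 / (n : ℝ))
    (E : Set UnitAddCircle) (hEc : IsCompact E) (ε : ℝ) (hε : 0 < ε) :
    ∃ H₀ : ℕ, ∀ N H : ℕ, H₀ ≤ H → H ≤ N → ∑ n ∈ Icc 1 N, (1 / (n : ℝ)) * sE f E n H ≤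
      (√(s * (volume (E ∪ -E)).toReal / 2) + ε) * Real.log N := by
  set E' : Set UnitAddCircle := E ∪ -E with hE'
  have hE'c : IsCompact E' := hEc.union hEc.neg
  have hE's : ∀ x ∈ E', -x ∈ E' := by
    intro x hx
    rw [hE', Set.mem_union, Set.mem_neg] at hx ⊢
    rw [neg_neg]
    tauto
  set v : ℝ := (volume E').toReal with hv
  have hv0 : 0 ≤ v := ENNReal.toReal_nonneg
  have hv1 : v ≤ 1 := by
    rw [hv]
    have h1 : volume E' ≤ 1 := by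
      refine (measure_mono (Set.subset_univ E')).trans (le_of_eq ?_)
      exact UnitAddCircle.measure_univ
    exact ENNReal.toReal_le_of_le_ofReal zero_le_one (by simpa using h1)
  set σ : ℝ := √(s * v / 2) with hσ
  have hσ0 : 0 ≤ σ := Real.sqrt_nonneg _
  have hσsq : σ ^ 2 = s * v / 2 := Real.sq_sqrt (by positivity)
  have hσ1 : σ ≤ 1 := by
    rw [hσ, Real.sqrt_le_one]
    nlinarith
  -- a smaller ε
  set ε' : ℝ := min ε 1 with hε'
  have hε'0 : 0 < ε' := lt_min hε one_pos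
  have hε'1 : ε' ≤ 1 := min_le_right _ _
  set t : ℝ := σ + ε' / 8 with ht
  have ht0 : 0 < t := by positivity
  have hδ : 0 < ε' ^ 2 / 64 := by positivity
  obtain ⟨H₁, H₂, N₀, hH₁, hM⟩ := mone hBS1 hBS2 hNR hPIG hEQ hPUSH hDIL hf hr hMAJ hs0 hs1 hEN E' hE'c hE's
    (ε' ^ 2 / 64) hδ (by nlinarith)
  have hM' : ∃ H₁ H₂ N₀ : ℕ, 1 ≤ H₁ ∧ ∀ N ≥ N₀, ∃ H ∈ Ico H₁ H₂,
      ∑ n ∈ Icc 1 N, (1 / (n : ℝ)) * sE f E' n H ≤ (σ + ε' / 8) * ∑ n ∈ Icc 1 N, 1 / (n : ℝ) := by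
    refine ⟨H₁, H₂, N₀, hH₁, fun N hN => ?_⟩
    obtain ⟨H, hH, h1⟩ := hM N hN
    refine ⟨H, hH, ?_⟩
    set hn : ℝ := ∑ n ∈ Icc 1 N, 1 / (n : ℝ) with hhn
    have hn0 : 0 ≤ hn := sum_nonneg fun _ _ => by positivity
    have h2 : ∀ x : ℝ, x ≤ 1 / (2 * t) * x ^ 2 + t / 2 := by
      intro x
      have h3 : 1 / (2 * t) * x ^ 2 + t / 2 - x = (x - t) ^ 2 / (2 * t) := by field_simp; ring
      have h4 : 0 ≤ (x - t) ^ 2 / (2 * t) := by positivity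
      linarith
    calc ∑ n ∈ Icc 1 N, (1 / (n : ℝ)) * sE f E' n H ≤
        ∑ n ∈ Icc 1 N, (1 / (2 * t) * ((1 / (n : ℝ)) * sE f E' n H ^ 2) + t / 2 * (1 / (n : ℝ))) := by
          refine sum_le_sum fun n _ => ?_
          have h5 := mul_le_mul_of_nonneg_left (h2 (sE f E' n H)) (show (0 : ℝ) ≤ 1 / n by positivity)
          refine h5.trans (le_of_eq ?_)
          ring
      _ = 1 / (2 * t) * ∑ n ∈ Icc 1 N, (1 / (n : ℝ)) * sE f E' n H ^ 2 + t / 2 * hn := by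
          rw [sum_add_distrib, ← mul_sum, ← mul_sum]
      _ ≤ 1 / (2 * t) * (t ^ 2 * hn) + t / 2 * hn := by
          refine add_le_add (mul_le_mul_of_nonneg_left ?_ (by positivity)) le_rfl
          refine h1.trans (mul_le_mul_of_nonneg_right ?_ hn0)
          rw [← hv, ← hσsq, ht]
          nlinarith
      _ = t * hn := by field_simp; ring
  obtain ⟨H₀, h⟩ := fin_core hSUB hf hDAV hσ0 hσ1 hε'0 hε'1 hM'
  refine ⟨H₀, fun N H hH hN => ?_⟩
  have h1 : ∑ n ∈ Icc 1 N, (1 / (n : ℝ)) * sE f E n H ≤ ∑ n ∈ Icc 1 N, (1 / (n : ℝ)) * sE f E' n H := by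
    refine sum_le_sum fun n _ => mul_le_mul_of_nonneg_left ?_ (by positivity)
    exact sE_le (sE_nonneg _ _ _ _) fun β hβ => le_sE hf.1 _ _ (Or.inl hβ)
  refine (h1.trans (h N H hH hN)).trans ?_
  refine mul_le_mul_of_nonneg_right ?_ (Real.log_natCast_nonneg N)
  have := min_le_left ε 1
  linarith

end Pool.Agent.Helper44K9.FC
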