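import Pool.Agent.Helper44K9.FC.Sat
import Pool.Agent.Helper44K9.FU.Mone
import Pool.Agent.Helper44K9.FU.Bes

/-! The averaged estimate at one of many scales. -/

set_option autoImplicit false

namespace Pool.Agent.Helper44K9.FC

open Finset MeasureTheory Polynomial
open Pool.Agent.H807R2.Dav (ee norm_ee)
open Pool.Agent.Helper44K9.FU (MM W dil Mul1 S_PUSH S_DIL)
open Pool.Agent.Helper44K9.FU.ML

/-- normalized supremum -/
noncomputable def sE (f : ℕ → ℂ) (E : Set UnitAddCircle) (n H : ℕ) : ℝ :=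
  ⨆ β : {β : ℝ // (β : UnitAddCircle) ∈ E}, cr f β n H

lemma sE_bdd {f : ℕ → ℂ} (hf : ∀ n, ‖f n‖ ≤ 1) (E : Set UnitAddCircle) (n H : ℕ) :
    BddAbove (Set.range fun β : {β : ℝ // (β : UnitAddCircle) ∈ E} => cr f β n H) := by
  refine ⟨1, ?_⟩
  rintro _ ⟨β, rfl⟩
  exact cr_le hf _ _ _

lemma le_sE {f : ℕ → ℂ} (hf : ∀ n, ‖f n‖ ≤ 1) {E : Set UnitAddCircle} (n H : ℕ) {β : ℝ}
    (hβ : (β : UnitAddCircle) ∈ E) : cr f β n H ≤ sE f E n H :=
  le_ciSup (sE_bdd hf E n H) (⟨β, hβ⟩ : {β : ℝ // (β : UnitAddCircle) ∈ E})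

lemma sE_nonneg (f : ℕ → ℂ) (E : Set UnitAddCircle) (n H : ℕ) : 0 ≤ sE f E n H :=
  Real.iSup_nonneg fun _ => cr_nonneg _ _ _ _

lemma sE_le {f : ℕ → ℂ} {E : Set UnitAddCircle} {n H : ℕ} {x : ℝ} (hx : 0 ≤ x)
    (h : ∀ β : ℝ, (β : UnitAddCircle) ∈ E → cr f β n H ≤ x) : sE f E n H ≤ x :=
  Real.iSup_le (fun β => h β.1 β.2) hx

lemma sE_le_one {f : ℕ → ℂ} (hf : ∀ n, ‖f n‖ ≤ 1) (E : Set UnitAddCircle) (n H : ℕ) : sE f E n H ≤ 1 :=
  sE_le zero_le_one fun _ _ => cr_le hf _ _ _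

lemma sE_sq_le {f : ℕ → ℂ} {E : Set UnitAddCircle} {n H : ℕ} {x : ℝ} (hx : 0 ≤ x)
    (h : ∀ β : ℝ, (β : UnitAddCircle) ∈ E → cr f β n H ^ 2 ≤ x) : sE f E n H ^ 2 ≤ x := by
  have h1 : sE f E n H ≤ √x := sE_le (Real.sqrt_nonneg _) fun β hβ => Real.le_sqrt_of_sq_le (h β hβ)
  calc sE f E n H ^ 2 ≤ √x ^ 2 := pow_le_pow_left₀ (sE_nonneg _ _ _ _) h1 2
    _ = x := Real.sq_sqrt hx

lemma le_maj {f : ℕ → ℂ} (hf : ∀ n, ‖f n‖ ≤ 1) {Q : ℕ} {τ : ℝ} (n H : ℕ) {α : ℝ}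
    (hα : ∃ q : ℕ, 1 ≤ q ∧ q ≤ Q ∧ ∃ a : ℤ, |q * α - a| ≤ τ) : cr f α n H ≤ maj f Q τ n H := by
  refine le_ciSup (f := fun α : {α : ℝ // ∃ q : ℕ, 1 ≤ q ∧ q ≤ Q ∧ ∃ a : ℤ, |q * α - a| ≤ τ} => cr f α n H)
    ⟨1, ?_⟩ (⟨α, hα⟩ : {α : ℝ // ∃ q : ℕ, 1 ≤ q ∧ q ≤ Q ∧ ∃ a : ℤ, |q * α - a| ≤ τ})
  rintro _ ⟨β, rfl⟩
  exact cr_le hf _ _ _

lemma maj_nonneg (f : ℕ → ℂ) (Q : ℕ) (τ : ℝ) (n H : ℕ) : 0 ≤ maj f Q τ n H :=
  Real.iSup_nonneg fun _ => cr_nonneg _ _ _ _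

lemma maj_le {f : ℕ → ℂ} (hf : ∀ n, ‖f n‖ ≤ 1) (Q : ℕ) (τ : ℝ) (n H : ℕ) : maj f Q τ n H ≤ 1 :=
  Real.iSup_le (fun _ => cr_le hf _ _ _) zero_le_one

lemma cr_neg {f : ℕ → ℂ} (hr : ∀ n, (starRingEnd ℂ) (f n) = f n) (β : ℝ) (n H : ℕ) :
    cr f (-β) n H = cr f β n H := by
  have h1 : V f (-β) n H = (starRingEnd ℂ) (V f β n H) := by
    unfold V
    rw [map_sum]
    refine sum_congr rfl fun m _ => ?_
    rw [map_mul, hr, Pool.Agent.Helper44K9.FU.BesL.ee_conj, neg_mul]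
  unfold cr
  rw [h1, RCLike.norm_conj]

open Classical in
/-- the pointwise estimate -/
lemma pointwise {f : ℕ → ℂ} (hf : ∀ n, ‖f n‖ ≤ 1) (hr : ∀ n, (starRingEnd ℂ) (f n) = f n) {θ : ℝ} {K₀ R : ℕ}
    (hθ : 0 ≤ θ) (hC : Cst f θ K₀ R) {K n H Q : ℕ} (hK : K₀ ≤ K) {η η' κ' κ₁ ε₁ τ τE v : ℝ} (hη : 0 ≤ η) (hη' : 0 < η')
    (hκ' : 0 ≤ κ') (hv : 0 ≤ v) (hε₁ : 0 ≤ ε₁) {I : Finset ℕ} {w : ℕ → ℝ} (hw0 : ∀ p ∈ I, 0 ≤ w p)
    (hw1 : ∑ p ∈ I, w p = 1) (hIp : ∀ p ∈ I, 0 < p) (hH : 1 ≤ H) (hHp : ∀ p ∈ I, 1 ≤ H / p)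
    {E : Set UnitAddCircle} (hEs : ∀ x ∈ E, -x ∈ E) {S : Finset ℝ} (hS : Sep (4 * K) H S) (hSR : #S ≤ R)
    (hSopt : Ph f θ (4 * K) n H - η' ≤ ∑ α ∈ S, ph θ (cr f α n H))
    (hexc : ∑ p ∈ I.filter (fun p : ℕ => ¬ ((∀ α ∈ S, cr f α n H - η ≤ cr f (p * α) (n / p) (H / p)) ∧
      ∀ α ∈ S, ∀ β ∈ S, α ≠ β → ¬ Nr (3 * K) (H / p) (p * α) (p * β))), w p ≤ κ₁)
    (hbes : ∑ α ∈ S, cr f α n H ^ 2 ≤ (1 + ε₁) * en f n H) (hQ : 2 ≤ Q)
    (hsc : ∀ p ∈ I, (K : ℝ) / ((H / p : ℕ) : ℝ) ≤ τ ∧ (K : ℝ) / ((H / p : ℕ) : ℝ) ≤ τE)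
    (hEQ : ∀ α : ℝ, (∀ q : ℕ, 1 ≤ q → q ≤ Q → ∀ a : ℤ, τ < |q * α - a|) →
      ∑ p ∈ I.filter (fun p : ℕ => ∃ β : ℝ, (β : UnitAddCircle) ∈ E ∧ ∃ a : ℤ, |β - p * α - a| ≤ τE), w p ≤ v) :
    ∑ p ∈ I, w p * sE f E (n / p) (H / p) ^ 2 ≤
      ∑ p ∈ I, w p * (if Ph f θ (4 * K) n H + κ' < Ph f θ K (n / p) (H / p) then 1 else 0) +
      (κ₁ + (θ + (κ' + η' + 2 * R * η) / 2)) +
      (1 / 2 * (v * ((1 + ε₁) * en f n H)) + 1 / 2 * (R * maj f Q τ n H)) +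
      ∑ p ∈ I, w p * maj f Q τ (n / p) (H / p) := by
  set G : ℕ → Prop := fun p => (∀ α ∈ S, cr f α n H - η ≤ cr f (p * α) (n / p) (H / p)) ∧
      ∀ α ∈ S, ∀ β ∈ S, α ≠ β → ¬ Nr (3 * K) (H / p) (p * α) (p * β) with hG
  set Bd : ℝ → ℕ → Prop := fun α p => ∃ β : ℝ, (β : UnitAddCircle) ∈ E ∧ ∃ a : ℤ, |β - p * α - a| ≤ τE with hBd
  set ξ : ℝ := θ + (κ' + η' + 2 * R * η) / 2 with hξ
  have hξ0 : 0 ≤ ξ := by positivity
  have hcr2 : ∀ α, 0 ≤ cr f α n H ^ 2 := fun _ => sq_nonneg _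
  have hkey : ∀ p ∈ I, w p * sE f E (n / p) (H / p) ^ 2 ≤
      w p * (if Ph f θ (4 * K) n H + κ' < Ph f θ K (n / p) (H / p) then 1 else 0) +
      (if ¬ G p then w p else 0) + w p * ξ + 1 / 2 * ∑ α ∈ S, (if Bd α p then w p else 0) * cr f α n H ^ 2 +
      w p * maj f Q τ (n / p) (H / p) := by
    intro p hp
    have hwp := hw0 p hp
    have hn1 : 0 ≤ w p * (if Ph f θ (4 * K) n H + κ' < Ph f θ K (n / p) (H / p) then (1 : ℝ) else 0) := by
      split_ifs <;> simp [hwp]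
    have hn2 : 0 ≤ (if ¬ G p then w p else 0) := by split_ifs <;> simp [hwp]
    have hn3 : 0 ≤ w p * ξ := mul_nonneg hwp hξ0
    have hn4 : 0 ≤ 1 / 2 * ∑ α ∈ S, (if Bd α p then w p else 0) * cr f α n H ^ 2 := by
      refine mul_nonneg (by norm_num) (sum_nonneg fun α _ => mul_nonneg ?_ (hcr2 α))
      split_ifs <;> simp [hwp]
    have hn5 : 0 ≤ w p * maj f Q τ (n / p) (H / p) := mul_nonneg hwp (maj_nonneg _ _ _ _ _)
    have hs1 : sE f E (n / p) (H / p) ^ 2 ≤ 1 := pow_le_one₀ (sE_nonneg _ _ _ _) (sE_le_one hf _ _ _)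
    have hs2 : w p * sE f E (n / p) (H / p) ^ 2 ≤ w p := by
      calc w p * sE f E (n / p) (H / p) ^ 2 ≤ w p * 1 := mul_le_mul_of_nonneg_left hs1 hwp
        _ = w p := mul_one _
    by_cases hjump : Ph f θ (4 * K) n H + κ' < Ph f θ K (n / p) (H / p)
    · rw [if_pos hjump, mul_one]
      linarith
    by_cases hGp : G p
    · -- good
      have hb : sE f E (n / p) (H / p) ^ 2 ≤ ξ + 1 / 2 * ∑ α ∈ S, (if Bd α p then 1 else 0) * cr f α n H ^ 2 +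
          maj f Q τ (n / p) (H / p) := by
        have hm0 := maj_nonneg f Q τ (n / p) (H / p)
        have hsn : 0 ≤ ∑ α ∈ S, (if Bd α p then 1 else 0) * cr f α n H ^ 2 := by
          refine sum_nonneg fun α _ => mul_nonneg ?_ (hcr2 α)
          split_ifs <;> norm_num
        refine sE_sq_le (by positivity) fun β hβ => ?_
        by_cases hself : Nr K (H / p) β (-β)
        · -- near a fraction with denominator two
          have h1 : cr f β (n / p) (H / p) ≤ maj f Q τ (n / p) (H / p) := by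
            refine le_maj hf _ _ ⟨2, by norm_num, hQ, ?_⟩
            obtain ⟨a, ha⟩ := hself
            refine ⟨a, ?_⟩
            have h2 : ((2 : ℕ) : ℝ) * β - a = β - -β - a := by push_cast; ring
            rw [h2]
            exact ha.trans (hsc p hp).1
          have h3 : cr f β (n / p) (H / p) ^ 2 ≤ cr f β (n / p) (H / p) := by
            have h4 := cr_nonneg f β (n / p) (H / p)
            have h5 := cr_le hf β (n / p) (H / p)
            nlinarith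
          linarith
        · have h1 := saturated hf hθ hC hK (hIp p hp) (hHp p hp) hη hSR hSopt hGp.1 hGp.2
            (by push Not at hjump; exact hjump) hself (cr_neg hr _ _ _)
          have h2 : ∑ α ∈ S.filter (fun α : ℝ => Nr K (H / p) β (p * α) ∨ Nr K (H / p) (-β) (p * α)), cr f α n H ^ 2 ≤
              ∑ α ∈ S, (if Bd α p then 1 else 0) * cr f α n H ^ 2 := by
            rw [sum_filter]
            refine sum_le_sum fun α _ => ?_
            by_cases h3 : Nr K (H / p) β (p * α) ∨ Nr K (H / p) (-β) (p * α)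
            · have h4 : Bd α p := by
                rcases h3 with ⟨a, ha⟩ | ⟨a, ha⟩
                · exact ⟨β, hβ, a, ha.trans (hsc p hp).2⟩
                · refine ⟨-β, ?_, a, ha.trans (hsc p hp).2⟩
                  rw [AddCircle.coe_neg]
                  exact hEs _ hβ
              rw [if_pos h3, if_pos h4, one_mul]
            · rw [if_neg h3]
              refine mul_nonneg ?_ (hcr2 α)
              split_ifs <;> norm_num
          linarith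
      have hb2 := mul_le_mul_of_nonneg_left hb hwp
      have hb3 : w p * (1 / 2 * ∑ α ∈ S, (if Bd α p then 1 else 0) * cr f α n H ^ 2) =
          1 / 2 * ∑ α ∈ S, (if Bd α p then w p else 0) * cr f α n H ^ 2 := by
        rw [mul_left_comm, mul_sum]
        congr 1
        refine sum_congr rfl fun α _ => ?_
        split_ifs <;> ring
      rw [mul_add, mul_add, hb3] at hb2
      linarith
    · rw [if_pos hGp]
      linarith
  refine (sum_le_sum hkey).trans ?_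
  rw [sum_add_distrib, sum_add_distrib, sum_add_distrib, sum_add_distrib]
  have h2 : ∑ p ∈ I, (if ¬ G p then w p else 0) ≤ κ₁ := by
    rw [← sum_filter]
    exact hexc
  have h3 : ∑ p ∈ I, w p * ξ = ξ := by rw [← sum_mul, hw1, one_mul]
  have h4 : ∑ p ∈ I, 1 / 2 * ∑ α ∈ S, (if Bd α p then w p else 0) * cr f α n H ^ 2 ≤
      1 / 2 * (v * ((1 + ε₁) * en f n H)) + 1 / 2 * (R * maj f Q τ n H) := by
    rw [← mul_sum, sum_comm, ← mul_add]
    refine mul_le_mul_of_nonneg_left ?_ (by norm_num)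
    have hm0 := maj_nonneg f Q τ n H
    calc ∑ α ∈ S, ∑ p ∈ I, (if Bd α p then w p else 0) * cr f α n H ^ 2 ≤
        ∑ α ∈ S, (v * cr f α n H ^ 2 + maj f Q τ n H) := by
          refine sum_le_sum fun α _ => ?_
          rw [← sum_mul, ← sum_filter]
          by_cases hα : ∀ q : ℕ, 1 ≤ q → q ≤ Q → ∀ a : ℤ, τ < |q * α - a|
          · have h5 := mul_le_mul_of_nonneg_right (hEQ α hα) (hcr2 α)
            linarith
          · push Not at hα
            obtain ⟨q, hq1, hqQ, a, ha⟩ := hα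
            have h5 : cr f α n H ≤ maj f Q τ n H := le_maj hf _ _ ⟨q, hq1, hqQ, a, ha⟩
            have h6 : ∑ p ∈ I.filter (Bd α), w p ≤ 1 := by
              rw [← hw1]
              exact sum_le_sum_of_subset_of_nonneg (filter_subset _ _) fun p hp _ => hw0 p hp
            have h7 := cr_nonneg f α n H
            have h8 := cr_le hf α n H
            have h9 : (∑ p ∈ I.filter (Bd α), w p) * cr f α n H ^ 2 ≤ 1 * cr f α n H ^ 2 :=
              mul_le_mul_of_nonneg_right h6 (hcr2 α)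
            have h10 : cr f α n H ^ 2 ≤ cr f α n H := by nlinarith
            have h11 : 0 ≤ v * cr f α n H ^ 2 := mul_nonneg hv (hcr2 α)
            linarith
      _ = v * ∑ α ∈ S, cr f α n H ^ 2 + #S * maj f Q τ n H := by
          rw [sum_add_distrib, ← mul_sum, sum_const, nsmul_eq_mul]
      _ ≤ v * ((1 + ε₁) * en f n H) + R * maj f Q τ n H :=
          add_le_add (mul_le_mul_of_nonneg_left hbes hv)
            (mul_le_mul_of_nonneg_right (by exact_mod_cast hSR) hm0)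
  linarith

end Pool.Agent.Helper44K9.FC
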