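import Pool.Agent.Helper44K9.FC.Stm
import Pool.Agent.Helper44K9.FU.Fin
import Pool.Agent.Helper44K9.FU.Sub
import Pool.Agent.TH327.Dim.Torus
import Pool.Agent.TH327.Dim.Inst

/-! # Project FC, leaf MAJ: the frequencies near the rational numbers with small denominators. -/

set_option autoImplicit false

namespace Pool.Agent.Helper44K9.FC

open Finset MeasureTheory
open Pool.Agent.H807R2.Dav (ee norm_ee ee_add)
open Pool.Agent.Helper44K9.FU (W S_SUB)

namespace MajL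

lemma V_eq_W (f : ℕ → ℂ) (α : ℝ) (n H : ℕ) : V f α n H = W f (Polynomial.C α * Polynomial.X) n H := by
  unfold V W
  refine sum_congr rfl fun m _ => ?_
  simp

lemma V_le {f : ℕ → ℂ} (hf : ∀ n, ‖f n‖ ≤ 1) (α : ℝ) (n H : ℕ) : ‖V f α n H‖ ≤ H := by
  rw [V_eq_W]; exact Pool.Agent.Helper44K9.FU.FL.W_le hf _ n H

lemma ee_int (k : ℤ) : ee (k : ℝ) = 1 := by
  unfold ee
  rw [Complex.exp_eq_one_iff]
  exact ⟨k, by push_cast; ring⟩

lemma ee_near (x y : ℝ) : ‖ee x - ee y‖ ≤ 2 * Real.pi * |x - y| := by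
  have h1 : ee x = ee (x - y) * ee y := by rw [← ee_add]; congr 1; ring
  have h2 : ee x - ee y = (ee (x - y) - 1) * ee y := by rw [h1]; ring
  rw [h2, norm_mul, norm_ee, mul_one, Pool.Agent.H807R2.Dav.ee_eq']
  have h3 := Real.norm_exp_I_mul_ofReal_sub_one_le (x := 2 * Real.pi * (x - y))
  rw [Real.norm_eq_abs, abs_mul, abs_of_pos (by positivity : (0 : ℝ) < 2 * Real.pi)] at h3
  exact h3

/-- periodicity -/
lemma V_per (f : ℕ → ℂ) (α : ℝ) (b : ℤ) (n H : ℕ) : V f (α + b) n H = V f α n H := by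
  unfold V
  refine sum_congr rfl fun m _ => ?_
  have h1 : (α + b) * (m : ℝ) = α * m + ((b * m : ℤ) : ℝ) := by push_cast; ring
  rw [h1, ee_add, ee_int, mul_one]

/-- change of the frequency -/
lemma V_near {f : ℕ → ℂ} (hf : ∀ n, ‖f n‖ ≤ 1) (α β : ℝ) (n H : ℕ) :
    ‖V f α n H‖ ≤ ‖V f β n H‖ + 2 * Real.pi * |α - β| * (H : ℝ) ^ 2 := by
  have h1 : V f α n H = ee ((α - β) * n) * V f β n H +
      ∑ m ∈ Ioc n (n + H), f m * ee (β * m) * (ee ((α - β) * m) - ee ((α - β) * n)) := by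
    unfold V
    rw [mul_sum, ← sum_add_distrib]
    refine sum_congr rfl fun m _ => ?_
    have h2 : ee (α * m) = ee (β * m) * ee ((α - β) * m) := by rw [← ee_add]; congr 1; ring
    rw [h2]; ring
  rw [h1]
  refine (norm_add_le _ _).trans (add_le_add (by rw [norm_mul, norm_ee, one_mul]) ?_)
  refine (norm_sum_le _ _).trans ?_
  calc ∑ m ∈ Ioc n (n + H), ‖f m * ee (β * m) * (ee ((α - β) * m) - ee ((α - β) * n))‖
      ≤ ∑ m ∈ Ioc n (n + H), 2 * Real.pi * |α - β| * H := by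
        refine sum_le_sum fun m hm => ?_
        rw [mem_Ioc] at hm
        rw [norm_mul, norm_mul, norm_ee, mul_one]
        have h3 := ee_near ((α - β) * m) ((α - β) * n)
        have h4 : (α - β) * m - (α - β) * n = (α - β) * ((m : ℝ) - n) := by ring
        rw [h4, abs_mul] at h3
        have h5 : |(m : ℝ) - n| ≤ H := by
          have h6 : (n : ℝ) < m := by exact_mod_cast hm.1
          have h7 : (m : ℝ) ≤ n + H := by exact_mod_cast hm.2
          rw [abs_le]; constructor <;> linarith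
        calc ‖f m‖ * ‖ee ((α - β) * m) - ee ((α - β) * n)‖ ≤ 1 * (2 * Real.pi * (|α - β| * |(m : ℝ) - n|)) :=
              mul_le_mul (hf m) h3 (norm_nonneg _) zero_le_one
          _ = 2 * Real.pi * |α - β| * |(m : ℝ) - n| := by ring
          _ ≤ 2 * Real.pi * |α - β| * H := mul_le_mul_of_nonneg_left h5 (by positivity)
    _ = 2 * Real.pi * |α - β| * (H : ℝ) ^ 2 := by
        rw [sum_const, Nat.card_Ioc, nsmul_eq_mul]
        rw [Nat.add_sub_cancel_left]; ring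

/-- the fractions with small denominators -/
def TT (Q : ℕ) : Finset (ℕ × ℕ) := Icc 1 Q ×ˢ range Q

/-- the frequency of a pair -/
noncomputable def fr (c : ℕ × ℕ) : ℝ := (c.2 : ℝ) / c.1

/-- the reduction of a fraction to `[0, 1)` -/
lemma red {Q q : ℕ} (hq : 1 ≤ q) (hqQ : q ≤ Q) (a : ℤ) : ∃ c ∈ TT Q, ∃ b : ℤ, (a : ℝ) / q = fr c + b := by
  have hq0 : (0 : ℤ) < q := by exact_mod_cast hq
  have hr0 : 0 ≤ a % q := Int.emod_nonneg _ hq0.ne'
  have hr1 : a % q < q := Int.emod_lt_of_pos _ hq0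
  obtain ⟨r, hr⟩ : ∃ r : ℕ, (r : ℤ) = a % q := ⟨(a % q).toNat, Int.toNat_of_nonneg hr0⟩
  have hrq : r < q := by exact_mod_cast (hr ▸ hr1 : (r : ℤ) < q)
  refine ⟨(q, r), ?_, a / q, ?_⟩
  · unfold TT
    rw [mem_product, mem_Icc, mem_range]
    exact ⟨⟨hq, hqQ⟩, by omega⟩
  · unfold fr
    have h1 : (a : ℝ) = (r : ℝ) + (q : ℝ) * ((a / q : ℤ) : ℝ) := by
      have h2 := Int.emod_add_mul_ediv a q
      rw [← hr] at h2
      exact_mod_cast h2.symm
    have hqr : (q : ℝ) ≠ 0 := by positivity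
    simp only
    rw [h1]
    field_simp

/-- the point of the torus -/
noncomputable def pt (c : ℕ × ℕ) : Fin 1 → UnitAddCircle := fun _ => ((fr c : ℝ) : UnitAddCircle)

lemma covT (Q : ℕ) : Pool.Agent.TH327.Dim.CovT (pt '' (TT Q : Set (ℕ × ℕ))) ((Q : ℝ) * Q) 0 := by
  classical
  intro n hn
  refine ⟨(TT Q).image pt, ?_, ?_⟩
  · rw [Real.rpow_zero, mul_one]
    have h1 : ((TT Q).image pt).card ≤ Q * Q := by
      refine card_image_le.trans ?_
      unfold TT
      rw [card_product, Nat.card_Icc, card_range, Nat.add_sub_cancel]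
    exact_mod_cast h1
  · rintro _ ⟨c, hc, rfl⟩
    exact ⟨pt c, mem_image_of_mem _ (by exact_mod_cast hc), by rw [dist_self]; positivity⟩

lemma ev_eq (c : ℕ × ℕ) (m : ℕ) :
    Pool.Agent.TH327.Dim.evT (pt c, (0 : Fin 1 → UnitAddCircle)) m (UnitAddTorus.mFourier fun _ => 1) =
      ee (fr c * m) := by
  show UnitAddTorus.mFourier (fun _ : Fin 1 => (1 : ℤ)) ((0 : Fin 1 → UnitAddCircle) + m • pt c) = _
  rw [zero_add]
  show (∏ i : Fin 1, (fourier 1 ((m • pt c) i) : ℂ)) = _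
  rw [Fin.prod_univ_one]
  have h1 : (m • pt c) 0 = (((fr c * m : ℝ)) : UnitAddCircle) := by
    show m • ((fr c : ℝ) : UnitAddCircle) = _
    rw [← AddCircle.coe_nsmul, nsmul_eq_mul, mul_comm]
  rw [h1, fourier_coe_apply]
  unfold ee
  congr 1
  push_cast
  ring

end MajL

open MajL Pool.Agent.TH327.Dim

theorem maj_gen (f : ℕ → ℂ) (hf : ∀ n, ‖f n‖ ≤ 1) (hG : ∀ C : ℝ, 0 ≤ C → Good {K | Cov K C 0} {f}) : S_MAJ f := by
  intro Q ε hε
  have hF : ∀ h ∈ ({f} : Set (ℕ → ℂ)), ∀ n, ‖h n‖ ≤ 1 := by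
    intro h hh n
    rw [Set.mem_singleton_iff] at hh
    rw [hh]; exact hf n
  obtain ⟨Q', hQ'⟩ : ∃ Q' : ℕ, Q' = Q + 1 := ⟨_, rfl⟩
  have hPW := PW_torus hF (s := 0) hG 1 ((Q' : ℝ) * Q') (by positivity) (UnitAddTorus.mFourier fun _ => 1)
  obtain ⟨H1, h1⟩ := PW_log hF evT_le hPW (ε / 5) (by positivity)
  obtain ⟨h, hh⟩ : ∃ h : ℕ, h = max H1 1 := ⟨_, rfl⟩
  have hhH : H1 ≤ h := by rw [hh]; exact le_max_left _ _
  have hh1 : 1 ≤ h := by rw [hh]; exact le_max_right _ _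
  have hh0 : (0 : ℝ) < h := by exact_mod_cast hh1
  have hTne : (TT Q').Nonempty := ⟨(1, 0), by
    unfold TT; rw [mem_product, mem_Icc, mem_range]; exact ⟨⟨le_rfl, by omega⟩, by simp only; omega⟩⟩
  choose A hAT hA using fun n : ℕ => exists_max_image (TT Q') (fun c => cr f (fr c) n h) hTne
  obtain ⟨s', hs'⟩ : ∃ s' : ℕ → ℝ, s' = fun n => cr f (fr (A n)) n h := ⟨_, rfl⟩
  have hs'n : ∀ n, s' n = cr f (fr (A n)) n h := fun n => by rw [hs']
  have hs01 : ∀ n, 0 ≤ s' n ∧ s' n ≤ 1 := by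
    intro n
    rw [hs'n]
    unfold cr
    refine ⟨by positivity, ?_⟩
    rw [div_le_one hh0]
    exact V_le hf _ _ _
  refine ⟨ε / (100 * h), by positivity, max ⌈20 * (h : ℝ) / ε⌉₊ 1, fun H hH => ?_⟩
  have hH1 : 1 ≤ H := le_trans (le_max_right _ _) hH
  have hH0 : (0 : ℝ) < H := by exact_mod_cast hH1
  have hHε : 20 * (h : ℝ) ≤ ε * H := by
    have : 20 * (h : ℝ) / ε ≤ H := (Nat.le_ceil _).trans (by exact_mod_cast le_trans (le_max_left _ _) hH)
    rw [div_le_iff₀ hε] at this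
    linarith
  -- the bound of each correlation
  have hmaj : ∀ n, maj f Q (ε / (100 * h)) n H ≤ (1 / (H : ℝ)) * ∑ i ∈ range H, s' (n + i) + ε / 5 := by
    intro n
    have hnn : 0 ≤ (1 / (H : ℝ)) * ∑ i ∈ range H, s' (n + i) + ε / 5 := by
      have : 0 ≤ ∑ i ∈ range H, s' (n + i) := sum_nonneg fun i _ => (hs01 _).1
      positivity
    refine Real.iSup_le ?_ hnn
    rintro ⟨α, q, hq, hqQ, a, ha⟩
    have hq0 : (0 : ℝ) < q := by exact_mod_cast hq
    obtain ⟨c, hc, b, hb⟩ := red hq (by omega : q ≤ Q') a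
    have hα : |α - a / q| ≤ ε / (100 * h) := by
      have e1 : α - a / q = (q * α - a) / q := by field_simp
      rw [e1, abs_div, abs_of_pos hq0, div_le_iff₀ hq0]
      refine ha.trans ?_
      have : (1 : ℝ) ≤ q := by exact_mod_cast hq
      exact le_mul_of_one_le_right (by positivity) this
    have hsm : ∀ n' : ℕ, ‖V f α n' h‖ ≤ h * s' n' + 2 * Real.pi * (ε / (100 * h)) * (h : ℝ) ^ 2 := by
      intro n'
      have e1 := V_near hf α (a / q) n' h
      have e2 : ‖V f (a / q) n' h‖ ≤ h * s' n' := by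
        rw [hb, V_per, hs'n]
        have e3 := hA n' c hc
        have e4 : ‖V f (fr c) n' h‖ = h * cr f (fr c) n' h := by unfold cr; field_simp
        rw [e4]
        exact mul_le_mul_of_nonneg_left e3 hh0.le
      have e5 : 2 * Real.pi * |α - a / q| * (h : ℝ) ^ 2 ≤ 2 * Real.pi * (ε / (100 * h)) * (h : ℝ) ^ 2 := by
        apply mul_le_mul_of_nonneg_right _ (by positivity)
        exact mul_le_mul_of_nonneg_left hα (by positivity)
      linarith
    have hsub := Pool.Agent.Helper44K9.FU.FL.sub_window hf (Polynomial.C α * Polynomial.X) n H h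
    simp only [← V_eq_W] at hsub
    have hsum : ∑ i ∈ range H, ‖V f α (n + i) h‖ ≤
        h * ∑ i ∈ range H, s' (n + i) + H * (2 * Real.pi * (ε / (100 * h)) * (h : ℝ) ^ 2) := by
      calc ∑ i ∈ range H, ‖V f α (n + i) h‖ ≤
          ∑ i ∈ range H, (h * s' (n + i) + 2 * Real.pi * (ε / (100 * h)) * (h : ℝ) ^ 2) :=
            sum_le_sum fun i _ => hsm (n + i)
        _ = _ := by rw [sum_add_distrib, mul_sum, sum_const, card_range, nsmul_eq_mul]
    have e6 : 2 * Real.pi * (ε / (100 * h)) * (h : ℝ) ^ 2 ≤ (ε / 10) * h := by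
      have e7 : 2 * Real.pi * (ε / (100 * h)) * (h : ℝ) ^ 2 = (2 * Real.pi / 100) * ε * h := by field_simp
      rw [e7]
      have e8 : 2 * Real.pi / 100 ≤ 1 / 10 := by linarith [Real.pi_lt_d2]
      have e9 : 0 ≤ ε * h := by positivity
      nlinarith
    show ‖V f α n H‖ / H ≤ _
    rw [div_le_iff₀ hH0]
    have e10 : (h : ℝ) * ‖V f α n H‖ ≤ h * (∑ i ∈ range H, s' (n + i) + (ε / 5) * H) := by
      have e11 : (H : ℝ) * (2 * Real.pi * (ε / (100 * h)) * (h : ℝ) ^ 2) ≤ H * ((ε / 10) * h) :=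
        mul_le_mul_of_nonneg_left e6 hH0.le
      have e12 : 2 * (h : ℝ) ^ 2 ≤ h * ((ε / 10) * H) := by
        have : h * (20 * (h : ℝ)) ≤ h * (ε * H) := mul_le_mul_of_nonneg_left hHε hh0.le
        linarith
      have e13 : (h : ℝ) * (∑ i ∈ range H, s' (n + i) + (ε / 5) * H) =
        h * ∑ i ∈ range H, s' (n + i) + H * ((ε / 10) * h) + h * ((ε / 10) * H) := by ring
      rw [e13]
      linarith
    have e14 := le_of_mul_le_mul_left e10 hh0
    refine e14.trans (le_of_eq ?_)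
    field_simp
  obtain ⟨N1, hN1⟩ : ∃ N1 : ℕ, N1 = ⌈Real.exp (5 * (H + 2) / (2 * ε))⌉₊ := ⟨_, rfl⟩
  refine ⟨max (max H h) N1, fun N hN => ?_⟩
  have hNH : H ≤ N := le_trans (le_trans (le_max_left _ _) (le_max_left _ _)) hN
  have hNh : h ≤ N := le_trans (le_trans (le_max_right _ _) (le_max_left _ _)) hN
  have hNN : N1 ≤ N := le_trans (le_max_right _ _) hN
  obtain ⟨L, hL⟩ : ∃ L : ℝ, L = ∑ n ∈ Icc 1 N, 1 / (n : ℝ) := ⟨_, rfl⟩
  have hNpos : (0 : ℝ) < N := by exact_mod_cast (by omega : 0 < N)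
  have hlogL : Real.log N ≤ L := by
    have e1 := log_add_one_le_harmonic N
    have e2 : Real.log N ≤ Real.log (N + 1) := Real.log_le_log hNpos (by linarith)
    have e3 : ((harmonic N : ℚ) : ℝ) = L := by
      rw [hL, harmonic_eq_sum_Icc]
      push_cast
      exact sum_congr rfl fun x _ => (one_div _).symm
    push_cast at e1
    linarith
  have hLbig : 5 * (H + 2) ≤ 2 * ε * L := by
    have e1 : Real.exp (5 * (H + 2) / (2 * ε)) ≤ N := by
      refine (Nat.le_ceil _).trans ?_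
      rw [← hN1]
      exact_mod_cast hNN
    have e2 : 5 * (H + 2) / (2 * ε) ≤ Real.log N := (Real.le_log_iff_exp_le hNpos).2 e1
    rw [div_le_iff₀ (by positivity)] at e2
    have e3 : Real.log N * (2 * ε) ≤ L * (2 * ε) := mul_le_mul_of_nonneg_right hlogL (by positivity)
    linarith
  have hsubl := Pool.Agent.Helper44K9.FU.sub (fun n => maj f Q (ε / (100 * h)) n H) s' 1 H N (ε / 5) hs01 le_rfl hH1
    (by omega) (by positivity) hmaj
  -- the log average of `s'`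
  have hs'avg : ∑ n ∈ Icc 1 N, (1 / (n : ℝ)) * s' n ≤ ε / 5 * L := by
    have e1 := h1 h hhH N hNh ⟨_, covT Q'⟩ f rfl (fun n => (pt (A n), 0)) (fun n => ⟨A n, by exact_mod_cast hAT n, rfl⟩)
    have e2 : ∀ n : ℕ, (1 / (n : ℝ)) * s' n = (‖∑ m ∈ Ioc n (n + h), f m *
        evT (pt (A n), (0 : Fin 1 → UnitAddCircle)) m (UnitAddTorus.mFourier fun _ => 1)‖ / n) / h := by
      intro n
      simp only [ev_eq]
      rw [hs'n]
      unfold cr V
      ring
    rw [sum_congr rfl fun n _ => e2 n, ← sum_div, div_le_iff₀ hh0]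
    refine e1.trans ?_
    calc ε / 5 * h * Real.log N ≤ ε / 5 * h * L := mul_le_mul_of_nonneg_left hlogL (by positivity)
      _ = ε / 5 * L * h := by ring
  have hmaj1 : ∀ n, maj f Q (ε / (100 * h)) n H ≤ 1 := by
    intro n
    refine Real.iSup_le ?_ zero_le_one
    rintro ⟨α, hα⟩
    show ‖V f α n H‖ / H ≤ _
    rw [div_le_one hH0]
    exact V_le hf _ _ _
  have hsplit : Icc 1 N = Icc 1 H ∪ Ioc H N := by
    ext x; simp only [mem_Icc, mem_union, mem_Ioc]; omega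
  have hdis : Disjoint (Icc 1 H) (Ioc H N) := by
    rw [Finset.disjoint_left]
    intro x hx hx'
    rw [mem_Icc] at hx
    rw [mem_Ioc] at hx'
    omega
  have hsmall : ∑ n ∈ Icc 1 H, (1 / (n : ℝ)) * maj f Q (ε / (100 * h)) n H ≤ H := by
    calc ∑ n ∈ Icc 1 H, (1 / (n : ℝ)) * maj f Q (ε / (100 * h)) n H ≤ ∑ n ∈ Icc 1 H, (1 : ℝ) := by
          refine sum_le_sum fun n hn => ?_
          rw [mem_Icc] at hn
          have hn1 : (1 : ℝ) ≤ n := by exact_mod_cast hn.1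
          have e1 : 1 / (n : ℝ) ≤ 1 := by rw [div_le_one (by positivity)]; exact hn1
          calc (1 / (n : ℝ)) * maj f Q (ε / (100 * h)) n H ≤ (1 / (n : ℝ)) * 1 :=
                mul_le_mul_of_nonneg_left (hmaj1 n) (by positivity)
            _ ≤ 1 := by rw [mul_one]; exact e1
      _ = H := by simp
  have hL' : ∑ n ∈ Icc 1 N, 1 / (n : ℝ) = L := hL.symm
  rw [hsplit, sum_union hdis, ← hsplit, hL']
  rw [hL'] at hsubl
  rw [one_mul] at hsubl
  have h2 : (1 + 1 / ((1 : ℕ) : ℝ)) * (∑ n ∈ Icc 1 N, 1 / (n : ℝ) * s' n + 1) ≤ 2 * (ε / 5 * L + 1) := by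
    have : (1 + 1 / ((1 : ℕ) : ℝ)) = 2 := by norm_num
    rw [this]
    linarith
  linarith

theorem maj_mu : S_MAJ mu :=
  maj_gen muf muf_le fun _ hC => good_mob hC le_rfl (by norm_num)

theorem maj_la : S_MAJ la :=
  maj_gen laf laf_le fun _ hC => good_lam hC le_rfl (by norm_num)

end Pool.Agent.Helper44K9.FC
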