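import Pool.Agent.Helper44K9.FC.Main

/-! The averaged estimate at one of many scales: the theorem. -/

set_option autoImplicit false

namespace Pool.Agent.Helper44K9.FC

open Finset MeasureTheory Polynomial
open Pool.Agent.H807R2.Dav (ee norm_ee)
open Pool.Agent.Helper44K9.FU (MM W dil Mul1 S_PUSH S_DIL)
open Pool.Agent.Helper44K9.FU.ML

lemma Sep.mono {K K' H : ℕ} {S : Finset ℝ} (h : Sep K' H S) (hK : K ≤ K') : Sep K H S :=
  fun α hα β hβ hne hN => h α hα β hβ hne (hN.mono hK)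

lemma ar1 {Er ℓ hn e : ℝ} (hℓ : 0 ≤ ℓ) (h : 2048 * Er ≤ hn * e) : Er * ℓ ≤ e / 2048 * (ℓ * hn) := by nlinarith

lemma ar2 {Er ℓ hn e : ℝ} (hℓ : 0 ≤ hn) (h : 2048 * Er ≤ ℓ * e) : Er * hn ≤ e / 2048 * (ℓ * hn) := by nlinarith

lemma ar3 {v s e : ℝ} (hv0 : 0 ≤ v) (hv1 : v ≤ 1) (hs0 : 0 ≤ s) (hs1 : s ≤ 1) (he0 : 0 ≤ e) (he1 : e ≤ 1) :
    (v + e) * (1 + e) * (s + e) ≤ s * v + 7 * e := by
  have h1 : (v + e) * (s + e) ≤ s * v + 3 * e := by nlinarith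
  have h2 : (v + e) * (s + e) ≤ 4 := by nlinarith
  nlinarith

lemma ar4 {e : ℝ} (he0 : 0 ≤ e) (he1 : e ≤ 1) : e ^ 2 ≤ e := by nlinarith

lemma ar5 {k m τ h x : ℝ} (hτ : 0 < τ) (hk : k ≤ m * τ) (hx : 0 ≤ x) (h1 : m + x + 1 ≤ h) : k ≤ τ * h := by nlinarith

lemma ar6 {R e : ℝ} (hR : 0 ≤ R) (he : 0 ≤ e) : R * (e / (64 * (R + 1))) ≤ e / 64 := by
  rw [mul_div_assoc', div_le_div_iff₀ (by positivity) (by norm_num)]
  nlinarith

lemma ar7 {e x : ℝ} (he0 : 0 ≤ e) (he1 : e ≤ 1) (h1 : x ≤ 1) (h2 : 0 ≤ x) : (1 + e) * x ≤ 2 := by nlinarith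

open Classical in
/-- the estimate at one of many scales -/
theorem mone (hBS1 : S_BS1) (hBS2 : S_BS2) (hNR : S_NR1) (hPIG : S_PIGR) (hEQ : S_EQ1) (hPUSH : S_PUSH)
    (hDIL : S_DIL) {f : ℕ → ℂ} (hf : Mul1 f) (hr : ∀ n, (starRingEnd ℂ) (f n) = f n) (hMAJ : S_MAJ f)
    {s : ℝ} (hs0 : 0 ≤ s) (hs1 : s ≤ 1)
    (hEN : ∀ (H : ℕ) (ε : ℝ), 1 ≤ H → 0 < ε → ∃ N₀ : ℕ, ∀ N ≥ N₀,
      ∑ n ∈ Icc 1 N, (1 / (n : ℝ)) * en f n H ≤ (s + ε) * ∑ n ∈ Icc 1 N, 1 / (n : ℝ))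
    (E : Set UnitAddCircle) (hEc : IsCompact E) (hEs : ∀ x ∈ E, -x ∈ E) (ε : ℝ) (hε : 0 < ε) (hε1 : ε ≤ 1) :
    ∃ H₁ H₂ N₀ : ℕ, 1 ≤ H₁ ∧ ∀ N ≥ N₀, ∃ H ∈ Ico H₁ H₂,
      ∑ n ∈ Icc 1 N, (1 / (n : ℝ)) * sE f E n H ^ 2 ≤
        (s * (volume E).toReal / 2 + ε) * ∑ n ∈ Icc 1 N, 1 / (n : ℝ) := by
  set v : ℝ := (volume E).toReal with hv
  have hv0 : 0 ≤ v := ENNReal.toReal_nonneg
  have hv1 : v ≤ 1 := by
    rw [hv]
    have h1 : volume E ≤ 1 := by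
      refine (measure_mono (Set.subset_univ E)).trans (le_of_eq ?_)
      exact UnitAddCircle.measure_univ
    exact ENNReal.toReal_le_of_le_ofReal zero_le_one (by simpa using h1)
  -- constants
  set θ : ℝ := ε / 32 with hθ
  set κ' : ℝ := ε / 16 with hκ'
  set η' : ℝ := ε ^ 2 / 2048 with hη'
  set ε₁ : ℝ := ε / 64 with hε₁
  have hθ0 : 0 < θ := by positivity
  have hκ'0 : 0 < κ' := by positivity
  have hη'0 : 0 < η' := by positivity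
  have hε₁0 : 0 < ε₁ := by positivity
  obtain ⟨K₂, R, hK₂⟩ := hBS2 θ hθ0
  obtain ⟨K₁, hK₁⟩ := hBS1 ε₁ R hε₁0
  have hC : Cst f θ (K₁ + K₂ + 1) R := by
    refine ⟨fun K hK n H S hH hS hS' => hK₂ K (by omega) f hf.1 n H S hH hS hS', fun K hK n H S hH hS hS' => ?_⟩
    refine (hK₁ K (by omega) f n H S hH hS hS').trans ?_
    have h1 := en_le hf.1 n H
    have h2 := en_nonneg f n H
    have h3 : ε₁ ≤ 1 := by rw [hε₁]; linarith
    exact ar7 hε₁0.le h3 h1 h2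
  set K : ℕ := K₁ + K₂ + 1 with hKdef
  have hK1 : 1 ≤ K := by omega
  set η : ℝ := ε ^ 2 / (4096 * (R + 1)) with hη
  have hη0 : 0 < η := by positivity
  have hRη : 2 * R * η ≤ ε ^ 2 / 2048 := by
    rw [hη]
    have hR0 : (0 : ℝ) ≤ R := Nat.cast_nonneg _
    rw [mul_div_assoc', div_le_div_iff₀ (by positivity) (by norm_num)]
    nlinarith [sq_nonneg ε, mul_nonneg hR0 (sq_nonneg ε)]
  -- the number of levels
  obtain ⟨J, hJ1, hJ⟩ : ∃ J : ℕ, 1 ≤ J ∧ (2 : ℝ) / J ≤ ε ^ 2 / 1024 := by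
    obtain ⟨J, hJ⟩ := exists_nat_ge (2048 / ε ^ 2)
    refine ⟨J + 1, by omega, ?_⟩
    have h1 : (0 : ℝ) < ((J + 1 : ℕ) : ℝ) := by positivity
    have h2 : (0 : ℝ) < ε ^ 2 := by positivity
    rw [div_le_iff₀ h1]
    rw [div_le_iff₀ h2] at hJ
    push_cast
    nlinarith
  set KK : ℕ → ℕ := fun j => 4 ^ (J - j) * K with hKK
  have hKK_step : ∀ j < J, KK j = 4 * KK (j + 1) := by
    intro j hj
    simp only [hKK]
    rw [show J - j = (J - (j + 1)) + 1 by omega, pow_succ]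
    ring
  have hKK_le : ∀ j, KK j ≤ KK 0 := by
    intro j
    simp only [hKK]
    refine Nat.mul_le_mul_right _ (Nat.pow_le_pow_right (by positivity) (by omega))
  have hKK_ge : ∀ j, K ≤ KK j := by
    intro j
    simp only [hKK]
    exact Nat.le_mul_of_pos_left _ (by positivity)
  have hKK1 : ∀ j, 1 ≤ KK j := fun j => hK1.trans (hKK_ge j)
  -- the primes
  obtain ⟨Q, hQ⟩ := hEQ E ε₁ hEc hε₁0
  set ε₂ : ℝ := ε / (64 * (R + 1)) with hε₂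
  have hε₂0 : 0 < ε₂ := by positivity
  obtain ⟨τ, hτ, HM, hHM⟩ := hMAJ (Q + 2) ε₂ hε₂0
  set κ₀ : ℝ := R * (100 / η ^ 2) + (R : ℝ) ^ 2 with hκ₀
  have hκ₀0 : 0 ≤ κ₀ := by positivity
  obtain ⟨I, hIp, hIA, τE, hτE, hEQ'⟩ := hQ τ hτ (⌈8 / η⌉₊) (2048 * κ₀ / ε ^ 2 + 1)
  set L : ℝ := ∑ p ∈ I, 1 / (p : ℝ) with hL
  have hL0 : 0 < L := by
    have : 0 ≤ 2048 * κ₀ / ε ^ 2 := by positivity
    linarith
  set w : ℕ → ℝ := fun p => (1 / (p : ℝ)) / L with hw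
  have hw0 : ∀ p ∈ I, 0 ≤ w p := fun p _ => by simp only [hw]; positivity
  have hw1 : ∑ p ∈ I, w p = 1 := by
    simp only [hw]
    rw [← sum_div, ← hL, div_self hL0.ne']
  have hwsum : ∀ (s : Finset ℕ) (x : ℝ), ∑ p ∈ s, 1 / (p : ℝ) ≤ x → ∑ p ∈ s, w p ≤ x / L := by
    intro s x hx
    simp only [hw]
    rw [← sum_div]
    exact div_le_div_of_nonneg_right hx hL0.le
  set κ : ℝ := κ₀ / L with hκ
  have hκ0 : 0 ≤ κ := by positivity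
  have hκ1 : κ ≤ ε ^ 2 / 2048 := by
    have h1 : 2048 * κ₀ / ε ^ 2 ≤ L := by linarith
    rw [div_le_iff₀ (by positivity)] at h1
    rw [hκ, div_le_iff₀ hL0]
    linarith
  obtain ⟨B, hB'⟩ : ∃ B : ℕ, ∀ p ∈ I, p ≤ B := ⟨I.sup id, fun p hp => le_sup (f := id) hp⟩
  have hIprime : ∀ p ∈ I, p.Prime := fun p hp => (hIp p hp).1
  obtain ⟨HP, hHP⟩ := hPUSH I η hη0 (fun p hp => ⟨hIprime p hp, by
    have h1 := (hIp p hp).2
    exact (Nat.le_ceil _).trans (by exact_mod_cast h1.le)⟩)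
  choose HN hHN using fun j : ℕ => hNR (KK j) B (hKK1 j)
  obtain ⟨M, hM⟩ : ∃ M : ℕ, (KK 0 : ℝ) / τ ≤ M := exists_nat_ge _
  obtain ⟨M', hM'⟩ : ∃ M : ℕ, (KK 0 : ℝ) / τE ≤ M := exists_nat_ge _
  -- the scales
  set H₁ : ℕ := HM + HP + ∑ j ∈ range (J + 1), HN j + (M + M' + 1) * (B + 1) + 2 * B + 1 with hH₁
  set Er : ℝ := 2 * (4 + 2 * Real.log (B + 1)) with hEr
  have hlogB : 0 ≤ Real.log ((B : ℝ) + 1) := Real.log_nonneg (by
    have : (0 : ℝ) ≤ B := Nat.cast_nonneg _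
    linarith)
  have hEr0 : 0 < Er := by positivity
  set Λ : ℝ := 2048 * Er / ε ^ 2 with hΛ
  have hΛ0 : 0 < Λ := by positivity
  have hdiv := Real.tendsto_sum_range_one_div_nat_succ_atTop
  obtain ⟨H₂, hH₂, hH₂Λ⟩ : ∃ H₂ : ℕ, H₁ ≤ H₂ ∧ Λ ≤ ∑ H ∈ Ico H₁ H₂, 1 / (H : ℝ) := by
    obtain ⟨M', hM'⟩ := (hdiv.eventually_ge_atTop (Λ + ∑ k ∈ range H₁, 1 / ((k : ℝ)))).exists
    refine ⟨max H₁ (M' + 1), le_max_left _ _, ?_⟩
    have h2 : ∑ i ∈ range M', 1 / ((i : ℝ) + 1) = ∑ k ∈ range (M' + 1), 1 / (k : ℝ) := by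
      rw [sum_range_succ' (fun k : ℕ => 1 / (k : ℝ)) M']
      push_cast; simp
    rw [h2] at hM'
    have h3 : ∑ k ∈ range (M' + 1), 1 / (k : ℝ) ≤ ∑ k ∈ range (max H₁ (M' + 1)), 1 / (k : ℝ) :=
      sum_le_sum_of_subset_of_nonneg (range_subset_range.2 (le_max_right _ _)) fun _ _ _ => by positivity
    rw [sum_Ico_eq_sub _ (le_max_left _ _)]
    linarith
  obtain ⟨N₀, hN₀⟩ : ∃ N₀ : ℕ, ∀ N ≥ N₀, Λ ≤ ∑ n ∈ Icc 1 N, 1 / (n : ℝ) := by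
    obtain ⟨N₀, hN₀⟩ := Filter.eventually_atTop.1 (hdiv.eventually_ge_atTop Λ)
    refine ⟨N₀, fun N hN => ?_⟩
    have h1 := hN₀ N hN
    have h2 : ∑ n ∈ Icc 1 N, 1 / (n : ℝ) = ∑ i ∈ range N, 1 / ((i : ℝ) + 1) := by
      rw [← Finset.Ico_succ_right_eq_Icc, sum_Ico_eq_sum_range]
      refine sum_congr (by simp) fun i _ => ?_
      push_cast; rw [add_comm (1 : ℝ)]
    rw [h2]; exact h1
  have hNEex : ∀ H : ℕ, ∃ N₀ : ℕ, 1 ≤ H → ∀ N ≥ N₀,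
      ∑ n ∈ Icc 1 N, (1 / (n : ℝ)) * en f n H ≤ (s + ε₁) * ∑ n ∈ Icc 1 N, 1 / (n : ℝ) := by
    intro H
    by_cases hH : 1 ≤ H
    · obtain ⟨N₀, h⟩ := hEN H ε₁ hH hε₁0
      exact ⟨N₀, fun _ => h⟩
    · exact ⟨0, fun h => absurd h hH⟩
  choose NE hNE using hNEex
  have hNMex : ∀ H : ℕ, ∃ N₀ : ℕ, HM ≤ H → ∀ N ≥ N₀,
      ∑ n ∈ Icc 1 N, (1 / (n : ℝ)) * maj f (Q + 2) τ n H ≤ ε₂ * ∑ n ∈ Icc 1 N, 1 / (n : ℝ) := by
    intro H
    by_cases hH : HM ≤ H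
    · obtain ⟨N₀, h⟩ := hHM H hH
      exact ⟨N₀, fun _ => h⟩
    · exact ⟨0, fun h => absurd h hH⟩
  choose NM hNM using hNMex
  refine ⟨H₁, H₂, N₀ + ∑ H ∈ range H₂, (NE H + NM H), by omega, fun N hN => ?_⟩
  have hhN := hN₀ N (by omega)
  set hn : ℝ := ∑ n ∈ Icc 1 N, 1 / (n : ℝ) with hhn
  set ℓ : ℝ := ∑ H ∈ Ico H₁ H₂, 1 / (H : ℝ) with hℓ
  set er : ℝ := Er * (ℓ + hn) with her
  have hmass : MM H₁ H₂ N (fun _ _ => 1) = ℓ * hn := MM_one H₁ H₂ N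
  have hℓ0 : 0 < ℓ := lt_of_lt_of_le hΛ0 hH₂Λ
  have hhn0 : 0 < hn := lt_of_lt_of_le hΛ0 hhN
  have hm0 : 0 < ℓ * hn := by positivity
  have herm : er ≤ ε ^ 2 / 1024 * (ℓ * hn) := by
    have h1 : Er * ℓ ≤ ε ^ 2 / 2048 * (ℓ * hn) := by
      have h2 : 2048 * Er ≤ hn * ε ^ 2 := by rw [hΛ, div_le_iff₀ (by positivity)] at hhN; exact hhN
      exact ar1 hℓ0.le h2
    have h1' : Er * hn ≤ ε ^ 2 / 2048 * (ℓ * hn) := by
      have h2 : 2048 * Er ≤ ℓ * ε ^ 2 := by rw [hΛ, div_le_iff₀ (by positivity)] at hH₂Λ; exact hH₂Λ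
      exact ar2 hhn0.le h2
    rw [her, mul_add]; linarith
  -- averages
  have hMMen : MM H₁ H₂ N (fun n H => en f n H) ≤ (s + ε₁) * (ℓ * hn) := by
    unfold MM
    rw [hℓ, sum_mul, mul_sum]
    refine sum_le_sum fun H hH => ?_
    rw [mem_Ico] at hH
    have h1 : NE H + NM H ≤ ∑ H ∈ range H₂, (NE H + NM H) :=
      single_le_sum (f := fun H => NE H + NM H) (fun _ _ => Nat.zero_le _) (mem_range.2 hH.2)
    have h2 := hNE H (by omega) N (by omega)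
    have h3 : (s + ε₁) * (1 / (H : ℝ) * hn) = 1 / (H : ℝ) * ((s + ε₁) * hn) := by ring
    rw [h3]
    exact mul_le_mul_of_nonneg_left h2 (by positivity)
  have hMMmaj : MM H₁ H₂ N (fun n H => maj f (Q + 2) τ n H) ≤ ε₂ * (ℓ * hn) := by
    unfold MM
    rw [hℓ, sum_mul, mul_sum]
    refine sum_le_sum fun H hH => ?_
    rw [mem_Ico] at hH
    have h1 : NE H + NM H ≤ ∑ H ∈ range H₂, (NE H + NM H) :=
      single_le_sum (f := fun H => NE H + NM H) (fun _ _ => Nat.zero_le _) (mem_range.2 hH.2)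
    have h2 := hNM H (by omega) N (by omega)
    have h3 : ε₂ * (1 / (H : ℝ) * hn) = 1 / (H : ℝ) * (ε₂ * hn) := by ring
    rw [h3]
    exact mul_le_mul_of_nonneg_left h2 (by positivity)
  -- bounds for primes and scales
  have hscale : ∀ p ∈ I, ∀ H ∈ Ico H₁ H₂, 1 ≤ H / p ∧ (KK 0 : ℝ) / ((H / p : ℕ) : ℝ) ≤ τ ∧
      (KK 0 : ℝ) / ((H / p : ℕ) : ℝ) ≤ τE := by
    intro p hp H hH
    have hpB := hB' p hp
    have hp0 := (hIprime p hp).pos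
    rw [mem_Ico] at hH
    have h1 : M + M' + 1 ≤ H / p := by
      rw [Nat.le_div_iff_mul_le hp0]
      calc (M + M' + 1) * p ≤ (M + M' + 1) * (B + 1) := Nat.mul_le_mul_left _ (by omega)
        _ ≤ H₁ := by rw [hH₁]; omega
        _ ≤ H := hH.1
    have h2 : ((M : ℝ) + M' + 1) ≤ ((H / p : ℕ) : ℝ) := by exact_mod_cast h1
    have hM0 : (0 : ℝ) ≤ M := Nat.cast_nonneg _
    have hM'0 : (0 : ℝ) ≤ M' := Nat.cast_nonneg _
    have h3 : (0 : ℝ) < ((H / p : ℕ) : ℝ) := by linarith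
    refine ⟨by omega, ?_, ?_⟩
    · rw [div_le_iff₀ h3]
      rw [div_le_iff₀ hτ] at hM
      exact ar5 hτ hM hM'0 h2
    · rw [div_le_iff₀ h3]
      rw [div_le_iff₀ hτE] at hM'
      exact ar5 hτE hM' hM0 (by linarith)
  have hDILr : ∀ F : ℕ → ℕ → ℝ, (∀ n H, 0 ≤ F n H ∧ F n H ≤ 2) → ∀ p ∈ I,
      MM H₁ H₂ N (fun n H => F (n / p) (H / p)) ≤ MM H₁ H₂ N F + er := by
    intro F hF p hp
    have hpB := hB' p hp
    have hp0 := (hIprime p hp).pos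
    refine (hDIL p H₁ H₂ N 2 F hp0 (by omega) hH₂ hF).trans ?_
    refine add_le_add le_rfl ?_
    rw [her]
    refine mul_le_mul_of_nonneg_right ?_ (by positivity)
    rw [hEr]
    have h1 : Real.log p ≤ Real.log ((B : ℝ) + 1) := by
      apply Real.log_le_log (by exact_mod_cast hp0)
      have : (p : ℝ) ≤ B := by exact_mod_cast hpB
      linarith
    linarith
  -- the functionals
  set r : ℕ → ℕ → ℕ → ℝ := fun j n H => Ph f θ (KK j) n H with hrdef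
  have hr02 : ∀ j n H, 0 ≤ r j n H ∧ r j n H ≤ 2 := fun j n H =>
    ⟨Ph_nonneg hθ0.le hC (hKK_ge j), Ph_le hθ0.le hC (hKK_ge j)⟩
  -- good families
  have hopt : ∀ j < J, ∀ H ∈ Ico H₁ H₂, ∀ n, ∃ S : Finset ℝ, Sep (4 * KK (j + 1)) H S ∧ #S ≤ R ∧
      Ph f θ (4 * KK (j + 1)) n H - η' ≤ ∑ α ∈ S, ph θ (cr f α n H) ∧
      ∑ p ∈ I.filter (fun p : ℕ => ¬ ((∀ α ∈ S, cr f α n H - η ≤ cr f (p * α) (n / p) (H / p)) ∧
        ∀ α ∈ S, ∀ β ∈ S, α ≠ β → ¬ Nr (3 * KK (j + 1)) (H / p) (p * α) (p * β))), w p ≤ κ := by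
    intro j hj H hH n
    have hH0 : 1 ≤ H := by
      have := (mem_Ico.1 hH).1
      omega
    have h1 : K₁ + K₂ + 1 ≤ 4 * KK (j + 1) := by
      have := hKK_ge (j + 1)
      omega
    obtain ⟨S, hS, hSR, hSo⟩ := near_opt hC h1 hH0 hη'0 (n := n)
    refine ⟨S, hS, hSR, hSo, ?_⟩
    refine hwsum _ κ₀ ?_
    refine exc hIprime (by omega) (fun p hp => (hscale p hp H hH).1) hSR hS hη0 (fun P => ?_) ?_
    · exact hHP H (by have := (mem_Ico.1 hH).1; omega) f hf P n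
    · intro α β p hp q hq hpq h2 h3
      have h4 : HN (j + 1) ≤ ∑ j ∈ range (J + 1), HN j :=
        single_le_sum (f := HN) (fun _ _ => Nat.zero_le _) (mem_range.2 (by omega))
      exact hHN (j + 1) H (by have := (mem_Ico.1 hH).1; omega) α β p q (hIprime p hp) (hIprime q hq) hpq
        (hB' p hp) (hB' q hq) h2 h3
  -- pigeonhole
  obtain ⟨j, hj, hpig⟩ := hPIG I w hw0 hw1 J H₁ H₂ N 2 κ κ' (η' + 2 * R * η) er r hJ1 (by norm_num) hκ'0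
    (by positivity) hr02 (fun j _ p hp => hDILr (r (j + 1)) (hr02 (j + 1)) p hp) (by
      intro j hj H hH n _
      obtain ⟨S, hS, hSR, hSo, hexc⟩ := hopt j hj H hH n
      refine le_trans ?_ hexc
      refine sum_le_sum_of_subset_of_nonneg ?_ fun p hp _ => hw0 p (mem_filter.1 hp).1
      intro p hp
      rw [mem_filter] at hp ⊢
      refine ⟨hp.1, fun hG => ?_⟩
      have h1 := semicont hf.1 hθ0.le hC (hKK_ge (j + 1)) (hIprime p hp.1).pos (hscale p hp.1 H hH).1 hη0.le hSR hSo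
        hG.1 hG.2
      have h2 := hp.2
      simp only [hrdef] at h2
      rw [hKK_step j hj] at h2
      linarith)
  rw [hmass] at hpig
  -- the pointwise estimate
  obtain ⟨c0, hc0⟩ : ∃ c0 : ℝ, c0 = κ + (θ + (κ' + η' + 2 * R * η) / 2) := ⟨_, rfl⟩
  have hpt : ∀ H ∈ Ico H₁ H₂, ∀ n ∈ Icc 1 N, ∑ p ∈ I, w p * sE f E (n / p) (H / p) ^ 2 ≤
      ∑ p ∈ I, w p * (if r j n H + κ' < r (j + 1) (n / p) (H / p) then 1 else 0) +
      c0 +
      (1 / 2 * ((v + ε₁) * ((1 + ε₁) * en f n H)) + 1 / 2 * (R * maj f (Q + 2) τ n H)) +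
      ∑ p ∈ I, w p * maj f (Q + 2) τ (n / p) (H / p) := by
    rw [hc0]
    intro H hH n _
    obtain ⟨S, hS, hSR, hSo, hexc⟩ := hopt j hj H hH n
    have hH0 : 1 ≤ H := by
      have := (mem_Ico.1 hH).1
      omega
    simp only [hrdef]
    rw [hKK_step j hj]
    refine pointwise hf.1 hr hθ0.le hC (hKK_ge (j + 1)) hη0.le hη'0 hκ'0.le (by positivity) hε₁0.le hw0 hw1
      (fun p hp => (hIprime p hp).pos) hH0 (fun p hp => (hscale p hp H hH).1) hEs hS hSR hSo hexc ?_ (by omega)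
      (fun p hp => ?_) (τE := τE) ?_
    · exact hK₁ _ (by have := hKK_ge (j + 1); omega) f n H S hH0 hS hSR
    · have h1 := hscale p hp H hH
      have h2 : (KK (j + 1) : ℝ) / ((H / p : ℕ) : ℝ) ≤ (KK 0 : ℝ) / ((H / p : ℕ) : ℝ) := by
        have : ((KK (j + 1) : ℕ) : ℝ) ≤ KK 0 := by exact_mod_cast hKK_le (j + 1)
        gcongr
      exact ⟨h2.trans h1.2.1, h2.trans h1.2.2⟩
    · intro α hα
      have h1 := hwsum _ _ (hEQ' α fun q hq1 hq2 a => hα q hq1 (by omega) a)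
      rw [mul_div_assoc, div_self hL0.ne', mul_one] at h1
      exact h1
  -- assembly
  have ha1 : MM H₁ H₂ N (fun n H => sE f E n H ^ 2) ≤
      ∑ p ∈ I, w p * MM H₁ H₂ N (fun n H => sE f E (n / p) (H / p) ^ 2) + er := by
    refine le_of_MM hw1 hw0 (g := fun n H => sE f E n H ^ 2) fun p hp =>
      hDILr (fun n H => 1 - sE f E n H ^ 2) (fun n H => ?_) p hp
    have h1 : sE f E n H ^ 2 ≤ 1 := pow_le_one₀ (sE_nonneg _ _ _ _) (sE_le_one hf.1 _ _ _)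
    have h2 := sq_nonneg (sE f E n H)
    constructor <;> linarith
  have ha2 : ∑ p ∈ I, w p * MM H₁ H₂ N (fun n H => sE f E (n / p) (H / p) ^ 2) ≤
      ∑ p ∈ I, w p * MM H₁ H₂ N (fun n H => if r j n H + κ' < r (j + 1) (n / p) (H / p) then 1 else 0) +
      c0 * (ℓ * hn) +
      (1 / 2 * ((v + ε₁) * ((1 + ε₁) * MM H₁ H₂ N (fun n H => en f n H))) +
        1 / 2 * (R * MM H₁ H₂ N (fun n H => maj f (Q + 2) τ n H))) +
      ∑ p ∈ I, w p * MM H₁ H₂ N (fun n H => maj f (Q + 2) τ (n / p) (H / p)) := by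
    have h1 := MM_mono (H₁ := H₁) (H₂ := H₂) (N := N) hpt
    simp only [MM_add] at h1
    rw [MM_sum I H₁ H₂ N (fun p n H => w p * sE f E (n / p) (H / p) ^ 2),
      MM_sum I H₁ H₂ N (fun p n H => w p * (if r j n H + κ' < r (j + 1) (n / p) (H / p) then 1 else 0)),
      MM_sum I H₁ H₂ N (fun p n H => w p * maj f (Q + 2) τ (n / p) (H / p)), MM_const] at h1
    simp only [MM_smul] at h1
    rw [hmass] at h1
    exact h1
  have ha3 : ∑ p ∈ I, w p * MM H₁ H₂ N (fun n H => maj f (Q + 2) τ (n / p) (H / p)) ≤ ε₂ * (ℓ * hn) + er := by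
    calc ∑ p ∈ I, w p * MM H₁ H₂ N (fun n H => maj f (Q + 2) τ (n / p) (H / p)) ≤
        ∑ p ∈ I, w p * (ε₂ * (ℓ * hn) + er) := by
          refine sum_le_sum fun p hp => mul_le_mul_of_nonneg_left ?_ (hw0 p hp)
          refine (hDILr (maj f (Q + 2) τ) (fun n H => ⟨maj_nonneg _ _ _ _ _, (maj_le hf.1 _ _ _ _).trans (by norm_num)⟩)
            p hp).trans ?_
          exact add_le_add hMMmaj le_rfl
      _ = ε₂ * (ℓ * hn) + er := by rw [← sum_mul, hw1, one_mul]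
  have hmm : 0 ≤ MM H₁ H₂ N (fun n H => en f n H) := by
    unfold MM
    exact sum_nonneg fun _ _ => mul_nonneg (by positivity) (sum_nonneg fun _ _ => mul_nonneg (by positivity) (en_nonneg _ _ _))
  have hεsq : ε ^ 2 ≤ ε := ar4 hε.le hε1
  have ha4 : ∑ p ∈ I, w p * MM H₁ H₂ N (fun n H => if r j n H + κ' < r (j + 1) (n / p) (H / p) then 1 else 0) ≤
      ε / 16 * (ℓ * hn) := by
    have h1 : (2 / (J : ℝ) + (η' + 2 * R * η) + 2 * κ) * (ℓ * hn) + er ≤ (4 * ε ^ 2 / 1024) * (ℓ * hn) := by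
      have h2 : 2 / (J : ℝ) + (η' + 2 * R * η) + 2 * κ ≤ 3 * ε ^ 2 / 1024 := by
        rw [hη']; linarith
      have h3 := mul_le_mul_of_nonneg_right h2 hm0.le
      linarith
    have h2 := hpig.trans h1
    have h3 : (4 * ε ^ 2 / 1024) * (ℓ * hn) = κ' * (ε / 16 * (ℓ * hn)) := by rw [hκ']; ring
    rw [h3] at h2
    exact le_of_mul_le_mul_left h2 hκ'0
  have ha5 : (v + ε₁) * ((1 + ε₁) * MM H₁ H₂ N (fun n H => en f n H)) ≤ (s * v + 7 * ε₁) * (ℓ * hn) := by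
    have hε₁1 : ε₁ ≤ 1 := by rw [hε₁]; linarith
    calc (v + ε₁) * ((1 + ε₁) * MM H₁ H₂ N (fun n H => en f n H)) ≤ (v + ε₁) * ((1 + ε₁) * ((s + ε₁) * (ℓ * hn))) := by
          gcongr
      _ = ((v + ε₁) * (1 + ε₁) * (s + ε₁)) * (ℓ * hn) := by ring
      _ ≤ (s * v + 7 * ε₁) * (ℓ * hn) := by
          refine mul_le_mul_of_nonneg_right ?_ hm0.le
          exact ar3 hv0 hv1 hs0 hs1 hε₁0.le hε₁1
  have ha6 : R * MM H₁ H₂ N (fun n H => maj f (Q + 2) τ n H) ≤ ε₁ * (ℓ * hn) := by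
    have hR0 : (0 : ℝ) ≤ R := Nat.cast_nonneg _
    calc R * MM H₁ H₂ N (fun n H => maj f (Q + 2) τ n H) ≤ R * (ε₂ * (ℓ * hn)) := mul_le_mul_of_nonneg_left hMMmaj hR0
      _ = (R * ε₂) * (ℓ * hn) := by ring
      _ ≤ ε₁ * (ℓ * hn) := by
          refine mul_le_mul_of_nonneg_right ?_ hm0.le
          exact ar6 hR0 hε.le
  have hε₂1 : ε₂ ≤ ε / 64 := by
    rw [hε₂]
    apply div_le_div_of_nonneg_left hε.le (by norm_num)
    have hR0 : (0 : ℝ) ≤ R := Nat.cast_nonneg _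
    linarith
  have hfin : MM H₁ H₂ N (fun n H => sE f E n H ^ 2) < (s * v / 2 + ε) * (ℓ * hn) := by
    have h1 : c0 * (ℓ * hn) ≤ 6 * ε / 64 * (ℓ * hn) := by
      refine mul_le_mul_of_nonneg_right ?_ hm0.le
      rw [hc0, hθ, hκ', hη']
      linarith
    have h2 : er ≤ ε / 1024 * (ℓ * hn) := by
      refine herm.trans (mul_le_mul_of_nonneg_right ?_ hm0.le)
      linarith
    have h3 : ε₂ * (ℓ * hn) ≤ ε / 64 * (ℓ * hn) := mul_le_mul_of_nonneg_right hε₂1 hm0.le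
    have h4 : 0 < ε * (ℓ * hn) := by positivity
    have h5 : ε₁ * (ℓ * hn) = ε / 64 * (ℓ * hn) := by rw [hε₁]
    have h6 : (s * v + 7 * ε₁) * (ℓ * hn) = s * v * (ℓ * hn) + 7 * (ε₁ * (ℓ * hn)) := by ring
    have h7 : (s * v / 2 + ε) * (ℓ * hn) = 1 / 2 * (s * v * (ℓ * hn)) + ε * (ℓ * hn) := by ring
    rw [h6] at ha5
    rw [h7]
    linarith
  -- some H
  by_contra hcon
  push Not at hcon
  have h1 : (s * v / 2 + ε) * (ℓ * hn) ≤ MM H₁ H₂ N (fun n H => sE f E n H ^ 2) := by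
    unfold MM
    rw [hℓ, sum_mul, mul_sum]
    refine sum_le_sum fun H hH => ?_
    have h2 := hcon H hH
    have h3 : (s * v / 2 + ε) * (1 / (H : ℝ) * hn) = 1 / (H : ℝ) * ((s * v / 2 + ε) * hn) := by ring
    rw [h3]
    exact mul_le_mul_of_nonneg_left h2.le (by positivity)
  linarith

end Pool.Agent.Helper44K9.FC
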