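import Pool.Agent.Helper44K9.FC.Stm

/-! [NR1] separation and dilations by two primes (helper65). -/

set_option autoImplicit false

namespace Pool.Agent.Helper44K9.FC

open Finset

/-- [NR1] -/
theorem nr1 : S_NR1 := by
  intro K B hK
  refine ⟨8 * K * B ^ 2 + 4 * B + 1, ?_⟩
  intro H hH α β p q hp hq hpq hpB hqB h1 h2
  obtain ⟨a, ha⟩ := h1
  obtain ⟨b, hb⟩ := h2
  set δ := α - β with hδ
  have hH0 : (0 : ℝ) < H := by
    have : 0 < H := by omega
    exact_mod_cast this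
  have hK0 : (0 : ℝ) < K := by exact_mod_cast hK
  have key : ∀ (p : ℕ) (a : ℤ), p.Prime → p ≤ B →
      |(p : ℝ) * α - (p : ℝ) * β - a| ≤ ((3 * K : ℕ) : ℝ) / ((H / p : ℕ) : ℝ) →
      |(p : ℝ) * δ - a| ≤ 4 * K * p / H := by
    intro p a hp hpB h
    have hp0 : 0 < p := hp.pos
    have hp0' : (0 : ℝ) < p := by exact_mod_cast hp0
    have h4 : H < (H / p + 1) * p := by
      nlinarith [Nat.div_mul_le_self H p, Nat.mod_lt H hp0, Nat.div_add_mod H p]
    have h5 : 3 * H ≤ 4 * ((H / p) * p) := by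
      have : 4 * H < 4 * ((H / p) * p) + 4 * p := by nlinarith
      have : 4 * p ≤ H := by omega
      omega
    have h6 : 3 * (H : ℝ) ≤ 4 * (((H / p : ℕ) : ℝ) * p) := by exact_mod_cast h5
    have h7 : (0 : ℝ) < ((H / p : ℕ) : ℝ) := by
      by_contra h8
      have : ((H / p : ℕ) : ℝ) * p ≤ 0 := mul_nonpos_of_nonpos_of_nonneg (not_lt.1 h8) hp0'.le
      linarith
    have h8 : (p : ℝ) * δ - a = (p : ℝ) * α - (p : ℝ) * β - a := by rw [hδ]; ring
    rw [h8]
    refine h.trans ?_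
    rw [div_le_div_iff₀ h7 hH0]
    push_cast
    nlinarith
  have ka := key p a hp hpB ha
  have kb := key q b hq hqB hb
  have hp0' : (0 : ℝ) < p := by exact_mod_cast hp.pos
  have hq0' : (0 : ℝ) < q := by exact_mod_cast hq.pos
  have hpB' : (p : ℝ) ≤ B := by exact_mod_cast hpB
  have hqB' : (q : ℝ) ≤ B := by exact_mod_cast hqB
  have h3 : |(q : ℝ) * a - (p : ℝ) * b| < 1 := by
    have e1 : (q : ℝ) * a - (p : ℝ) * b = (p : ℝ) * ((q : ℝ) * δ - b) - (q : ℝ) * ((p : ℝ) * δ - a) := by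
      ring
    rw [e1]
    refine (abs_sub _ _).trans_lt ?_
    rw [abs_mul (p : ℝ), abs_mul (q : ℝ), abs_of_pos hp0', abs_of_pos hq0']
    have f1 : (p : ℝ) * |(q : ℝ) * δ - b| ≤ B * (4 * K * B / H) := by
      refine mul_le_mul hpB' (kb.trans ?_) (abs_nonneg _) (by positivity)
      gcongr
    have f2 : (q : ℝ) * |(p : ℝ) * δ - a| ≤ B * (4 * K * B / H) := by
      refine mul_le_mul hqB' (ka.trans ?_) (abs_nonneg _) (by positivity)
      gcongr
    have f4 : (8 : ℝ) * K * B ^ 2 < H := by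
      have : 8 * K * B ^ 2 < H := by omega
      exact_mod_cast this
    have f5 : (B : ℝ) * (4 * K * B / H) + B * (4 * K * B / H) = 8 * K * B ^ 2 / H := by ring
    refine (add_le_add f1 f2).trans_lt ?_
    rw [f5, div_lt_one hH0]
    exact f4
  have h4 : (q : ℤ) * a = (p : ℤ) * b := by
    have h5 : |((q : ℤ) * a - (p : ℤ) * b : ℤ)| < 1 := by
      have h6 : ((|((q : ℤ) * a - (p : ℤ) * b : ℤ)| : ℤ) : ℝ) < 1 := by
        push_cast
        exact h3
      exact_mod_cast h6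
    have := Int.abs_lt_one_iff.1 h5
    omega
  have h5 : (p : ℤ) ∣ a := by
    have h6 : (p : ℤ) ∣ (q : ℤ) * a := by
      rw [h4]
      exact ⟨b, rfl⟩
    have h7 : IsCoprime (p : ℤ) (q : ℤ) := by
      rw [Nat.isCoprime_iff_coprime]
      exact (Nat.coprime_primes hp hq).2 hpq
    exact h7.dvd_of_dvd_mul_left h6
  obtain ⟨a', rfl⟩ := h5
  refine ⟨a', ?_⟩
  have h6 : (p : ℝ) * δ - (((p : ℤ) * a' : ℤ) : ℝ) = (p : ℝ) * (δ - a') := by
    push_cast
    ring
  rw [h6, abs_mul, abs_of_pos hp0'] at ka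
  have h7 : (p : ℝ) * |δ - a'| ≤ (p : ℝ) * (4 * K / H) := by
    refine ka.trans (le_of_eq ?_)
    ring
  have h8 := le_of_mul_le_mul_left h7 hp0'
  push_cast
  exact h8

end Pool.Agent.Helper44K9.FC
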