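import Pool.Agent.Helper44K9.FC.Stm
import Pool.Agent.Helper44K9.FU.Pig

/-! [PIGR] pigeonhole over the levels, real valued. -/

set_option autoImplicit false

namespace Pool.Agent.Helper44K9.FC

open Finset
open Pool.Agent.Helper44K9.FU (MM)
open Pool.Agent.Helper44K9.FU.PigL

open Classical in
/-- [PIGR] -/
theorem pigr : S_PIGR := by
  intro I w hw hw1 J H₁ H₂ N B κ κ' ν er r hJ hB0 hκ' hν hR hA hB
  set T := MM H₁ H₂ N (fun _ _ => 1) with hT
  have hT0 : 0 ≤ T := by
    rw [hT, mm_eq]
    exact Finset.sum_nonneg fun x _ => by positivity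
  set a : ℕ → ℝ := fun j => MM H₁ H₂ N (r j) with ha
  set S : ℕ → ℝ := fun j => ∑ p ∈ I, w p * MM H₁ H₂ N
    (fun n H => if r j n H + κ' < r (j + 1) (n / p) (H / p) then 1 else 0) with hS
  have hpt : ∀ x y : ℝ, 0 ≤ x → y ≤ B → κ' * (if y + κ' < x then (1 : ℝ) else 0) ≤
      ((x - y) + ν) + B * (if x < y - ν then 1 else 0) := by
    intro x y hx hy
    split_ifs with h1 h2 h2 <;> nlinarith
  have hstep : ∀ j < J, κ' * S j ≤ a (j + 1) - a j + er + (ν + B * κ) * T := by
    intro j hj
    have h1 : κ' * S j ≤ ∑ p ∈ I, w p * ((MM H₁ H₂ N (fun n H => r (j + 1) (n / p) (H / p)) - a j + ν * T) +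
        B * MM H₁ H₂ N
          (fun n H => if r (j + 1) (n / p) (H / p) < r j n H - ν then 1 else 0)) := by
      rw [hS]
      simp only
      rw [Finset.mul_sum]
      refine Finset.sum_le_sum fun p hp => ?_
      rw [mul_left_comm]
      refine mul_le_mul_of_nonneg_left ?_ (hw p hp)
      rw [ha]
      simp only
      rw [← mm_sub, hT, ← mm_smul, ← mm_smul, ← mm_smul, ← mm_add, ← mm_add]
      refine mm_mono fun H _ n _ => ?_
      have := hpt (r (j + 1) (n / p) (H / p)) (r j n H) (hR _ _ _).1 (hR _ _ _).2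
      simpa using this
    have h2 : ∑ p ∈ I, w p * (MM H₁ H₂ N (fun n H => r (j + 1) (n / p) (H / p)) - a j + ν * T) ≤
        a (j + 1) - a j + er + ν * T := by
      calc ∑ p ∈ I, w p * (MM H₁ H₂ N (fun n H => r (j + 1) (n / p) (H / p)) - a j + ν * T)
          ≤ ∑ p ∈ I, w p * (a (j + 1) - a j + er + ν * T) := by
            refine Finset.sum_le_sum fun p hp => mul_le_mul_of_nonneg_left ?_ (hw p hp)
            have := hA j hj p hp
            simp only [ha]
            linarith
        _ = a (j + 1) - a j + er + ν * T := by rw [← Finset.sum_mul, hw1, one_mul]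
    have h3 : ∑ p ∈ I, w p * MM H₁ H₂ N
        (fun n H => if r (j + 1) (n / p) (H / p) < r j n H - ν then 1 else 0) ≤ κ * T := by
      rw [mm_sum H₁ H₂ N I w (fun p n H => if r (j + 1) (n / p) (H / p) < r j n H - ν then 1 else 0), hT,
        ← mm_smul]
      refine mm_mono fun H hH n hn => ?_
      rw [mul_one]
      refine le_trans (le_of_eq ?_) (hB j hj H hH n hn)
      rw [Finset.sum_filter]
      exact Finset.sum_congr rfl fun p _ => by split_ifs <;> simp
    have h4 : ∑ p ∈ I, w p * ((MM H₁ H₂ N (fun n H => r (j + 1) (n / p) (H / p)) - a j + ν * T) +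
        B * MM H₁ H₂ N
          (fun n H => if r (j + 1) (n / p) (H / p) < r j n H - ν then 1 else 0)) =
        ∑ p ∈ I, w p * (MM H₁ H₂ N (fun n H => r (j + 1) (n / p) (H / p)) - a j + ν * T) +
        B * ∑ p ∈ I, w p * MM H₁ H₂ N
          (fun n H => if r (j + 1) (n / p) (H / p) < r j n H - ν then 1 else 0) := by
      rw [Finset.mul_sum, ← Finset.sum_add_distrib]
      exact Finset.sum_congr rfl fun p _ => by ring
    rw [h4] at h1
    have h5 : B * ∑ p ∈ I, w p * MM H₁ H₂ N
        (fun n H => if r (j + 1) (n / p) (H / p) < r j n H - ν then 1 else 0) ≤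
        B * (κ * T) := mul_le_mul_of_nonneg_left h3 hB0
    nlinarith
  have hJ0 : (0 : ℝ) < J := by exact_mod_cast hJ
  by_contra hcon
  push Not at hcon
  have h1 : ∀ j ∈ Finset.range J, (B / J + ν + B * κ) * T + er <
      a (j + 1) - a j + er + (ν + B * κ) * T := fun j hj =>
    (hcon j (Finset.mem_range.1 hj)).trans_le (hstep j (Finset.mem_range.1 hj))
  have h2 := Finset.sum_lt_sum_of_nonempty (Finset.nonempty_range_iff.2 (by omega)) h1
  rw [Finset.sum_const, Finset.card_range, nsmul_eq_mul] at h2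
  have h3 : ∑ j ∈ Finset.range J, (a (j + 1) - a j + er + (ν + B * κ) * T) =
      a J - a 0 + J * (er + (ν + B * κ) * T) := by
    have h4 : ∀ j ∈ Finset.range J, a (j + 1) - a j + er + (ν + B * κ) * T =
        (a (j + 1) - a j) + (er + (ν + B * κ) * T) := fun j _ => by ring
    rw [Finset.sum_congr rfl h4, Finset.sum_add_distrib, Finset.sum_range_sub, Finset.sum_const,
      Finset.card_range, nsmul_eq_mul]
  rw [h3] at h2
  have h5 : a J ≤ B * T := by
    rw [hT, ← mm_smul]
    refine mm_mono fun H _ n _ => ?_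
    rw [mul_one]
    exact (hR J n H).2
  have h6 : 0 ≤ a 0 := by
    simp only [ha]
    rw [mm_eq]
    exact Finset.sum_nonneg fun x _ => mul_nonneg (by positivity) (hR _ _ _).1
  have h7 : (J : ℝ) * ((B / J + ν + B * κ) * T + er) =
      B * T + J * (er + (ν + B * κ) * T) := by
    field_simp
    ring
  rw [h7] at h2
  linarith

end Pool.Agent.Helper44K9.FC
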