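import Pool.Agent.Helper44K9.FC.Stm

/-! The energy functional and its saturation. -/

set_option autoImplicit false

namespace Pool.Agent.Helper44K9.FC

open Finset MeasureTheory Polynomial
open Pool.Agent.H807R2.Dav (ee norm_ee)
open Pool.Agent.Helper44K9.FU (MM W dil Mul1 S_PUSH)

/-- truncated square -/
noncomputable def ph (θ x : ℝ) : ℝ := max (x ^ 2 - θ) 0

lemma ph_nonneg (θ x : ℝ) : 0 ≤ ph θ x := le_max_right _ _

lemma ph_le_sq {θ x : ℝ} (hθ : 0 ≤ θ) : ph θ x ≤ x ^ 2 := max_le (by linarith) (sq_nonneg x)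

lemma sq_le_ph (θ x : ℝ) : x ^ 2 ≤ θ + ph θ x := by
  have : x ^ 2 - θ ≤ ph θ x := le_max_left _ _
  linarith

lemma ph_sub {θ x y η : ℝ} (hy0 : 0 ≤ y) (hy : y ≤ 1) (hη : 0 ≤ η) (hx0 : 0 ≤ x) (h : y - η ≤ x) :
    ph θ y - 2 * η ≤ ph θ x := by
  unfold ph
  rcases le_total (y ^ 2 - θ) 0 with h1 | h1
  · rw [max_eq_right h1]
    have : 0 ≤ max (x ^ 2 - θ) 0 := le_max_right _ _
    linarith
  · rw [max_eq_left h1]
    refine le_trans ?_ (le_max_left _ _)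
    rcases le_total 0 (y - η) with h2 | h2
    · nlinarith
    · nlinarith

lemma cr_nonneg (f : ℕ → ℂ) (α : ℝ) (n H : ℕ) : 0 ≤ cr f α n H := div_nonneg (norm_nonneg _) (Nat.cast_nonneg _)

lemma V_le {f : ℕ → ℂ} (hf : ∀ n, ‖f n‖ ≤ 1) (α : ℝ) (n H : ℕ) : ‖V f α n H‖ ≤ H := by
  unfold V
  refine (norm_sum_le _ _).trans ?_
  calc ∑ m ∈ Ioc n (n + H), ‖f m * ee (α * m)‖ ≤ ∑ m ∈ Ioc n (n + H), (1 : ℝ) := by
        refine sum_le_sum fun m _ => ?_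
        rw [norm_mul, norm_ee, mul_one]
        exact hf m
    _ = H := by simp

lemma cr_le {f : ℕ → ℂ} (hf : ∀ n, ‖f n‖ ≤ 1) (α : ℝ) (n H : ℕ) : cr f α n H ≤ 1 :=
  div_le_one_of_le₀ (V_le hf α n H) (Nat.cast_nonneg _)

lemma en_le {f : ℕ → ℂ} (hf : ∀ n, ‖f n‖ ≤ 1) (n H : ℕ) : en f n H ≤ 1 := by
  unfold en
  refine div_le_one_of_le₀ ?_ (Nat.cast_nonneg _)
  calc ∑ m ∈ Ioc n (n + H), ‖f m‖ ^ 2 ≤ ∑ m ∈ Ioc n (n + H), (1 : ℝ) :=
        sum_le_sum fun m _ => pow_le_one₀ (norm_nonneg _) (hf m)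
    _ = H := by simp

lemma en_nonneg (f : ℕ → ℂ) (n H : ℕ) : 0 ≤ en f n H :=
  div_nonneg (sum_nonneg fun _ _ => by positivity) (Nat.cast_nonneg _)

/-- the energy functional -/
noncomputable def Ph (f : ℕ → ℂ) (θ : ℝ) (K n H : ℕ) : ℝ :=
  if 1 ≤ H then sSup {x | ∃ S : Finset ℝ, Sep K H S ∧ x = ∑ α ∈ S, ph θ (cr f α n H)} else 0

/-- the constants -/
structure Cst (f : ℕ → ℂ) (θ : ℝ) (K₀ R : ℕ) : Prop where
  card : ∀ K ≥ K₀, ∀ (n H : ℕ) (S : Finset ℝ), 1 ≤ H → Sep K H S → (∀ α ∈ S, θ < cr f α n H ^ 2) → #S ≤ R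
  bes : ∀ K ≥ K₀, ∀ (n H : ℕ) (S : Finset ℝ), 1 ≤ H → Sep K H S → #S ≤ R → ∑ α ∈ S, cr f α n H ^ 2 ≤ 2

lemma Sep.subset {K H : ℕ} {S T : Finset ℝ} (h : Sep K H T) (hST : S ⊆ T) : Sep K H S :=
  fun α hα β hβ hne => h α (hST hα) β (hST hβ) hne

lemma Nr.mono {K K' H : ℕ} {α β : ℝ} (h : Nr K H α β) (hK : K ≤ K') : Nr K' H α β := by
  obtain ⟨a, ha⟩ := h
  refine ⟨a, ha.trans ?_⟩
  have : (K : ℝ) ≤ K' := by exact_mod_cast hK
  gcongr

lemma Nr.symm' {K H : ℕ} {α β : ℝ} (h : Nr K H α β) : Nr K H β α := by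
  obtain ⟨a, ha⟩ := h
  refine ⟨-a, ?_⟩
  push_cast
  rw [show β - α - -(a : ℝ) = -(α - β - a) by ring, abs_neg]
  exact ha

lemma filter_big {f : ℕ → ℂ} {θ : ℝ} {K n H : ℕ} (S : Finset ℝ) :
    ∑ α ∈ S, ph θ (cr f α n H) = ∑ α ∈ S.filter (fun α => θ < cr f α n H ^ 2), ph θ (cr f α n H) := by
  classical
  rw [sum_filter]
  refine sum_congr rfl fun α _ => ?_
  split_ifs with h
  · rfl
  · unfold ph
    push Not at h
    exact max_eq_right (by linarith)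

lemma energy_le {f : ℕ → ℂ} {θ : ℝ} {K₀ R : ℕ} (hθ : 0 ≤ θ) (hC : Cst f θ K₀ R) {K n H : ℕ} (hK : K₀ ≤ K)
    (hH : 1 ≤ H) {S : Finset ℝ} (hS : Sep K H S) : ∑ α ∈ S, ph θ (cr f α n H) ≤ 2 := by
  classical
  rw [filter_big (K := K) S]
  have h1 : Sep K H (S.filter (fun α => θ < cr f α n H ^ 2)) := hS.subset (filter_subset _ _)
  have h2 := hC.card K hK n H _ hH h1 fun α hα => (mem_filter.1 hα).2
  exact (sum_le_sum fun α _ => ph_le_sq hθ).trans (hC.bes K hK n H _ hH h1 h2)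

lemma Ph_bdd {f : ℕ → ℂ} {θ : ℝ} {K₀ R : ℕ} (hθ : 0 ≤ θ) (hC : Cst f θ K₀ R) {K n H : ℕ} (hK : K₀ ≤ K)
    (hH : 1 ≤ H) : BddAbove {x | ∃ S : Finset ℝ, Sep K H S ∧ x = ∑ α ∈ S, ph θ (cr f α n H)} := by
  refine ⟨2, ?_⟩
  rintro _ ⟨S, hS, rfl⟩
  exact energy_le hθ hC hK hH hS

lemma le_Ph {f : ℕ → ℂ} {θ : ℝ} {K₀ R : ℕ} (hθ : 0 ≤ θ) (hC : Cst f θ K₀ R) {K n H : ℕ} (hK : K₀ ≤ K)
    (hH : 1 ≤ H) {S : Finset ℝ} (hS : Sep K H S) : ∑ α ∈ S, ph θ (cr f α n H) ≤ Ph f θ K n H := by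
  unfold Ph
  rw [if_pos hH]
  exact le_csSup (Ph_bdd hθ hC hK hH) ⟨S, hS, rfl⟩

lemma Ph_nonneg {f : ℕ → ℂ} {θ : ℝ} {K₀ R : ℕ} (hθ : 0 ≤ θ) (hC : Cst f θ K₀ R) {K n H : ℕ} (hK : K₀ ≤ K) :
    0 ≤ Ph f θ K n H := by
  by_cases hH : 1 ≤ H
  · have h1 := le_Ph hθ hC hK hH (n := n) (S := ∅) (by intro α hα; simp at hα)
    rw [sum_empty] at h1
    exact h1
  · unfold Ph; rw [if_neg hH]

lemma Ph_le {f : ℕ → ℂ} {θ : ℝ} {K₀ R : ℕ} (hθ : 0 ≤ θ) (hC : Cst f θ K₀ R) {K n H : ℕ} (hK : K₀ ≤ K) :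
    Ph f θ K n H ≤ 2 := by
  by_cases hH : 1 ≤ H
  · unfold Ph
    rw [if_pos hH]
    refine csSup_le ⟨0, ∅, by intro α hα; simp at hα, by simp⟩ ?_
    rintro _ ⟨S, hS, rfl⟩
    exact energy_le hθ hC hK hH hS
  · unfold Ph; rw [if_neg hH]; norm_num

/-- near-optimal families -/
lemma near_opt {f : ℕ → ℂ} {θ : ℝ} {K₀ R : ℕ} (hC : Cst f θ K₀ R) {K n H : ℕ} (hK : K₀ ≤ K)
    (hH : 1 ≤ H) {η' : ℝ} (hη' : 0 < η') : ∃ S : Finset ℝ, Sep K H S ∧ #S ≤ R ∧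
      Ph f θ K n H - η' ≤ ∑ α ∈ S, ph θ (cr f α n H) := by
  classical
  have h1 : Ph f θ K n H - η' < sSup {x | ∃ S : Finset ℝ, Sep K H S ∧ x = ∑ α ∈ S, ph θ (cr f α n H)} := by
    unfold Ph
    rw [if_pos hH]
    linarith
  have h0 : ({x | ∃ S : Finset ℝ, Sep K H S ∧ x = ∑ α ∈ S, ph θ (cr f α n H)} : Set ℝ).Nonempty :=
    ⟨0, ∅, by intro α hα; simp at hα, by simp⟩
  obtain ⟨_, ⟨S, hS, rfl⟩, h2⟩ := exists_lt_of_lt_csSup h0 h1
  have h3 : Sep K H (S.filter (fun α => θ < cr f α n H ^ 2)) := hS.subset (filter_subset _ _)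
  refine ⟨_, h3, hC.card K hK n H _ hH h3 fun α hα => (mem_filter.1 hα).2, ?_⟩
  rw [← filter_big (K := K) S]
  exact h2.le

open Classical in
/-- saturation -/
lemma saturated {f : ℕ → ℂ} (hf : ∀ n, ‖f n‖ ≤ 1) {θ : ℝ} {K₀ R : ℕ} (hθ : 0 ≤ θ) (hC : Cst f θ K₀ R)
    {K n H p : ℕ} (hK : K₀ ≤ K) (hp : 0 < p) (hHp : 1 ≤ H / p) {η η' κ' : ℝ} (hη : 0 ≤ η) {S : Finset ℝ} (hSR : #S ≤ R)
    (hSopt : Ph f θ (4 * K) n H - η' ≤ ∑ α ∈ S, ph θ (cr f α n H))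
    (h1 : ∀ α ∈ S, cr f α n H - η ≤ cr f (p * α) (n / p) (H / p))
    (h2 : ∀ α ∈ S, ∀ β ∈ S, α ≠ β → ¬ Nr (3 * K) (H / p) (p * α) (p * β))
    (h3 : Ph f θ K (n / p) (H / p) ≤ Ph f θ (4 * K) n H + κ') {β : ℝ} (hβ : ¬ Nr K (H / p) β (-β))
    (hsym : cr f (-β) (n / p) (H / p) = cr f β (n / p) (H / p)) :
    cr f β (n / p) (H / p) ^ 2 ≤ θ + (κ' + η' + 2 * R * η) / 2 + 1 / 2 * ∑ α ∈ S.filter (fun α : ℝ =>
      Nr K (H / p) β (p * α) ∨ Nr K (H / p) (-β) (p * α)), cr f α n H ^ 2 := by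
  have hp0 : (p : ℝ) ≠ 0 := by exact_mod_cast hp.ne'
  have hinj : Function.Injective (fun α : ℝ => (p : ℝ) * α) := mul_right_injective₀ hp0
  have hHp0 : (0 : ℝ) < ((H / p : ℕ) : ℝ) := by exact_mod_cast hHp
  have hrefl : ∀ γ : ℝ, Nr K (H / p) γ γ := fun γ => ⟨0, by
    have h0 : γ - γ - ((0 : ℤ) : ℝ) = 0 := by simp
    rw [h0, abs_zero]
    positivity⟩
  set T : Finset ℝ := S.filter (fun α : ℝ => ¬ (Nr K (H / p) β (p * α) ∨ Nr K (H / p) (-β) (p * α))) with hT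
  have hTS : T ⊆ S := filter_subset _ _
  -- comparison of sums over subsets
  have hcmp : ∑ α ∈ T, ph θ (cr f α n H) - 2 * R * η ≤ ∑ α ∈ T, ph θ (cr f (p * α) (n / p) (H / p)) := by
    have h4 : ∑ α ∈ T, (ph θ (cr f α n H) - 2 * η) ≤ ∑ α ∈ T, ph θ (cr f (p * α) (n / p) (H / p)) :=
      sum_le_sum fun α hα => ph_sub (cr_nonneg _ _ _ _) (cr_le hf α n H) hη (cr_nonneg _ _ _ _) (h1 α (hTS hα))
    rw [sum_sub_distrib, sum_const, nsmul_eq_mul] at h4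
    have h5 : (#T : ℝ) ≤ R := by exact_mod_cast (card_le_card hTS).trans hSR
    have h6 : (#T : ℝ) * (2 * η) ≤ R * (2 * η) := mul_le_mul_of_nonneg_right h5 (by linarith)
    linarith
  have hTβ : ∀ α ∈ T, ¬ Nr K (H / p) β (p * α) ∧ ¬ Nr K (H / p) (-β) (p * α) := by
    intro α hα
    have := (mem_filter.1 hα).2
    exact not_or.1 this
  set U : Finset ℝ := T.image (fun α => (p : ℝ) * α) with hU
  have himg : ∑ γ ∈ U, ph θ (cr f γ (n / p) (H / p)) =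
      ∑ α ∈ T, ph θ (cr f (p * α) (n / p) (H / p)) := sum_image fun a _ b _ hab => hinj hab
  have hUn : ∀ γ ∈ U, ¬ Nr K (H / p) β γ ∧ ¬ Nr K (H / p) (-β) γ := by
    intro γ hγ
    obtain ⟨α, hα, rfl⟩ := mem_image.1 hγ
    exact hTβ α hα
  have hUU : Sep K (H / p) U := by
    intro γ hγ γ' hγ' hne hN
    obtain ⟨α, hα, rfl⟩ := mem_image.1 hγ
    obtain ⟨α', hα', rfl⟩ := mem_image.1 hγ'
    exact h2 α (hTS hα) α' (hTS hα') (fun h => hne (by rw [h])) (hN.mono (by omega))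
  have hs1 : Sep K (H / p) (insert (-β) U) := by
    intro γ hγ γ' hγ' hne hN
    rw [mem_insert] at hγ hγ'
    rcases hγ with rfl | hγ
    · rcases hγ' with rfl | hγ'
      · exact hne rfl
      · exact (hUn γ' hγ').2 hN
    · rcases hγ' with rfl | hγ'
      · exact (hUn γ hγ).2 hN.symm'
      · exact hUU γ hγ γ' hγ' hne hN
  have hs2 : Sep K (H / p) (insert β (insert (-β) U)) := by
    intro γ hγ γ' hγ' hne hN
    rw [mem_insert] at hγ hγ'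
    rcases hγ with rfl | hγ
    · rcases hγ' with rfl | hγ'
      · exact hne rfl
      · rw [mem_insert] at hγ'
        rcases hγ' with rfl | hγ'
        · exact hβ hN
        · exact (hUn γ' hγ').1 hN
    · rcases hγ' with rfl | hγ'
      · rw [mem_insert] at hγ
        rcases hγ with rfl | hγ
        · exact hβ hN.symm'
        · exact (hUn γ hγ).1 hN.symm'
      · exact hs1 γ hγ γ' hγ' hne hN
  have hn1 : -β ∉ U := fun h => (hUn _ h).2 (hrefl _)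
  have hn2 : β ∉ insert (-β) U := by
    rw [mem_insert, not_or]
    refine ⟨fun h => hβ ?_, fun h => (hUn _ h).1 (hrefl _)⟩
    rw [← h]; exact hrefl _
  have h5 := le_Ph hθ hC hK hHp (n := n / p) hs2
  rw [sum_insert hn2, sum_insert hn1, himg, hsym] at h5
  have h7 := sum_filter_add_sum_filter_not S (fun α : ℝ => Nr K (H / p) β (p * α) ∨ Nr K (H / p) (-β) (p * α))
    (fun α => ph θ (cr f α n H))
  have h8 := sq_le_ph θ (cr f β (n / p) (H / p))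
  have h9 : ∑ α ∈ S.filter (fun α : ℝ => Nr K (H / p) β (p * α) ∨ Nr K (H / p) (-β) (p * α)), ph θ (cr f α n H) ≤
      ∑ α ∈ S.filter (fun α : ℝ => Nr K (H / p) β (p * α) ∨ Nr K (H / p) (-β) (p * α)), cr f α n H ^ 2 :=
    sum_le_sum fun α _ => ph_le_sq hθ
  linarith

/-- lower semicontinuity -/
lemma semicont {f : ℕ → ℂ} (hf : ∀ n, ‖f n‖ ≤ 1) {θ : ℝ} {K₀ R : ℕ} (hθ : 0 ≤ θ) (hC : Cst f θ K₀ R)
    {K n H p : ℕ} (hK : K₀ ≤ K) (hp : 0 < p) (hHp : 1 ≤ H / p) {η η' : ℝ} (hη : 0 ≤ η) {S : Finset ℝ} (hSR : #S ≤ R)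
    (hSopt : Ph f θ (4 * K) n H - η' ≤ ∑ α ∈ S, ph θ (cr f α n H))
    (h1 : ∀ α ∈ S, cr f α n H - η ≤ cr f (p * α) (n / p) (H / p))
    (h2 : ∀ α ∈ S, ∀ β ∈ S, α ≠ β → ¬ Nr (3 * K) (H / p) (p * α) (p * β)) :
    Ph f θ (4 * K) n H - (η' + 2 * R * η) ≤ Ph f θ K (n / p) (H / p) := by
  classical
  have hp0 : (p : ℝ) ≠ 0 := by exact_mod_cast hp.ne'
  have hinj : Function.Injective (fun α : ℝ => (p : ℝ) * α) := mul_right_injective₀ hp0
  have hcmp : ∑ α ∈ S, ph θ (cr f α n H) - 2 * R * η ≤ ∑ α ∈ S, ph θ (cr f (p * α) (n / p) (H / p)) := by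
    have h4 : ∑ α ∈ S, (ph θ (cr f α n H) - 2 * η) ≤ ∑ α ∈ S, ph θ (cr f (p * α) (n / p) (H / p)) :=
      sum_le_sum fun α hα => ph_sub (cr_nonneg _ _ _ _) (cr_le hf α n H) hη (cr_nonneg _ _ _ _) (h1 α hα)
    rw [sum_sub_distrib, sum_const, nsmul_eq_mul] at h4
    have h5 : (#S : ℝ) ≤ R := by exact_mod_cast hSR
    have h6 : (#S : ℝ) * (2 * η) ≤ R * (2 * η) := mul_le_mul_of_nonneg_right h5 (by linarith)
    linarith
  have hs : Sep K (H / p) (S.image (fun α => (p : ℝ) * α)) := by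
    intro γ hγ γ' hγ' hne hN
    obtain ⟨α, hα, rfl⟩ := mem_image.1 hγ
    obtain ⟨α', hα', rfl⟩ := mem_image.1 hγ'
    exact h2 α hα α' hα' (fun h => hne (by rw [h])) (hN.mono (by omega))
  have h5 := le_Ph hθ hC hK hHp (n := n / p) hs
  rw [sum_image fun a _ b _ hab => hinj hab] at h5
  linarith

open Classical in
/-- the exceptional primes -/
lemma exc {f : ℕ → ℂ} {K n H R : ℕ} {I : Finset ℕ} {η : ℝ} (hI : ∀ p ∈ I, p.Prime) (hH : 0 < H)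
    (hHp : ∀ p ∈ I, 1 ≤ H / p) {S : Finset ℝ} (hSR : #S ≤ R) (hS : Sep (4 * K) H S) (hη : 0 < η)
    (hpush : ∀ P : ℝ[X], ∑ p ∈ I.filter (fun p => ‖W f (dil p P) (n / p) (H / p)‖ <
      (‖W f P n H‖ / H - η) * ((H / p : ℕ) : ℝ)), 1 / (p : ℝ) ≤ 100 / η ^ 2)
    (hnr : ∀ α β : ℝ, ∀ p ∈ I, ∀ q ∈ I, p ≠ q → Nr (3 * K) (H / p) (p * α) (p * β) →
      Nr (3 * K) (H / q) (q * α) (q * β) → Nr (4 * K) H α β) :
    ∑ p ∈ I.filter (fun p : ℕ => ¬ ((∀ α ∈ S, cr f α n H - η ≤ cr f (p * α) (n / p) (H / p)) ∧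
      ∀ α ∈ S, ∀ β ∈ S, α ≠ β → ¬ Nr (3 * K) (H / p) (p * α) (p * β))), 1 / (p : ℝ) ≤
      R * (100 / η ^ 2) + (R : ℝ) ^ 2 := by
  have hHr : (0 : ℝ) < H := by exact_mod_cast hH
  have hnn : ∀ (p : ℕ) (Q : Prop) [Decidable Q], (0 : ℝ) ≤ if Q then 1 / (p : ℝ) else 0 := by
    intro p Q _; split_ifs <;> positivity
  rw [sum_filter]
  have h1 : ∀ p ∈ I, (if ¬ ((∀ α ∈ S, cr f α n H - η ≤ cr f (p * α) (n / p) (H / p)) ∧
      ∀ α ∈ S, ∀ β ∈ S, α ≠ β → ¬ Nr (3 * K) (H / p) (p * α) (p * β)) then 1 / (p : ℝ) else 0) ≤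
      ∑ α ∈ S, (if ¬ (cr f α n H - η ≤ cr f (p * α) (n / p) (H / p)) then 1 / (p : ℝ) else 0) +
      ∑ α ∈ S, ∑ β ∈ S, (if α ≠ β ∧ Nr (3 * K) (H / p) (p * α) (p * β) then 1 / (p : ℝ) else 0) := by
    intro p _
    have hn1 : 0 ≤ ∑ α ∈ S, (if ¬ (cr f α n H - η ≤ cr f (p * α) (n / p) (H / p)) then 1 / (p : ℝ) else 0) :=
      sum_nonneg fun _ _ => hnn _ _
    have hn2 : 0 ≤ ∑ α ∈ S, ∑ β ∈ S, (if α ≠ β ∧ Nr (3 * K) (H / p) (p * α) (p * β) then 1 / (p : ℝ) else 0) :=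
      sum_nonneg fun _ _ => sum_nonneg fun _ _ => hnn _ _
    by_cases hc : ((∀ α ∈ S, cr f α n H - η ≤ cr f (p * α) (n / p) (H / p)) ∧
      ∀ α ∈ S, ∀ β ∈ S, α ≠ β → ¬ Nr (3 * K) (H / p) (p * α) (p * β))
    · rw [if_neg (not_not.2 hc)]
      linarith
    · rw [if_pos hc]
      rw [not_and_or] at hc
      rcases hc with hc | hc
      · push Not at hc
        obtain ⟨α, hα, hi⟩ := hc
        have h3 := single_le_sum (f := fun α => (if ¬ (cr f α n H - η ≤ cr f (p * α) (n / p) (H / p)) then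
          1 / (p : ℝ) else 0)) (fun _ _ => hnn _ _) hα
        simp only [if_pos (not_le.2 hi)] at h3
        linarith
      · push Not at hc
        obtain ⟨α, hα, β, hβ, hij, hR⟩ := hc
        have h3 := single_le_sum (f := fun α => ∑ β ∈ S, (if α ≠ β ∧ Nr (3 * K) (H / p) (p * α) (p * β) then
          1 / (p : ℝ) else 0)) (fun _ _ => sum_nonneg fun _ _ => hnn _ _) hα
        have h4 := single_le_sum (f := fun β => (if α ≠ β ∧ Nr (3 * K) (H / p) (p * α) (p * β) then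
          1 / (p : ℝ) else 0)) (fun _ _ => hnn _ _) hβ
        have h5 : (if α ≠ β ∧ Nr (3 * K) (H / p) (p * α) (p * β) then 1 / (p : ℝ) else 0) = 1 / (p : ℝ) :=
          if_pos ⟨hij, hR⟩
        simp only [h5] at h4
        linarith
  refine (sum_le_sum h1).trans ?_
  rw [sum_add_distrib]
  have hrR : (#S : ℝ) ≤ R := by exact_mod_cast hSR
  apply add_le_add
  · rw [sum_comm]
    calc ∑ α ∈ S, ∑ p ∈ I, (if ¬ (cr f α n H - η ≤ cr f (p * α) (n / p) (H / p)) then 1 / (p : ℝ) else 0) ≤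
        ∑ α ∈ S, 100 / η ^ 2 := by
          refine sum_le_sum fun α _ => ?_
          have h2 := hpush (C α * X)
          rw [sum_filter] at h2
          refine le_trans (sum_le_sum fun p hp => ?_) h2
          have hW : ∀ (γ : ℝ) (n' H' : ℕ), W f (C γ * X) n' H' = V f γ n' H' := by
            intro γ n' H'
            unfold W V
            refine sum_congr rfl fun m _ => ?_
            rw [eval_mul, eval_C, eval_X]
          have hdil : dil p (C α * X) = C ((p : ℝ) * α) * X := by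
            unfold dil
            rw [mul_comp, C_comp, X_comp, C_mul]
            ring
          rw [hdil, hW, hW]
          by_cases h3 : cr f α n H - η ≤ cr f (p * α) (n / p) (H / p)
          · rw [if_neg (not_not.2 h3)]
            exact hnn _ _
          · rw [if_pos h3, if_pos]
            push Not at h3
            have h4 : (0 : ℝ) < ((H / p : ℕ) : ℝ) := by exact_mod_cast hHp p hp
            unfold cr at h3
            rw [div_lt_iff₀ h4] at h3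
            exact h3
      _ = #S * (100 / η ^ 2) := by simp
      _ ≤ R * (100 / η ^ 2) := mul_le_mul_of_nonneg_right hrR (by positivity)
  · rw [sum_comm]
    have h6 : ∀ α ∈ S, ∀ β ∈ S, ∑ p ∈ I, (if α ≠ β ∧ Nr (3 * K) (H / p) (p * α) (p * β) then 1 / (p : ℝ) else 0) ≤ 1 := by
      intro α hα β hβ
      rw [← sum_filter]
      have h7 : #(I.filter (fun p : ℕ => α ≠ β ∧ Nr (3 * K) (H / p) (p * α) (p * β))) ≤ 1 := by
        rw [card_le_one]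
        intro p hp q hq
        rw [mem_filter] at hp hq
        by_contra hpq
        exact hS α hα β hβ hp.2.1 (hnr _ _ p hp.1 q hq.1 hpq hp.2.2 hq.2.2)
      calc ∑ p ∈ I.filter (fun p : ℕ => α ≠ β ∧ Nr (3 * K) (H / p) (p * α) (p * β)), 1 / (p : ℝ) ≤
          ∑ p ∈ I.filter (fun p : ℕ => α ≠ β ∧ Nr (3 * K) (H / p) (p * α) (p * β)), (1 : ℝ) := by
            refine sum_le_sum fun p hp => ?_
            have h8 : (1 : ℝ) ≤ p := by exact_mod_cast (hI p (mem_filter.1 hp).1).one_le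
            rw [div_le_one (by linarith)]
            exact h8
        _ ≤ 1 := by
            rw [sum_const, nsmul_eq_mul, mul_one]
            exact_mod_cast h7
    calc ∑ α ∈ S, ∑ p ∈ I, ∑ β ∈ S, (if α ≠ β ∧ Nr (3 * K) (H / p) (p * α) (p * β) then 1 / (p : ℝ) else 0) ≤
        ∑ α ∈ S, (#S : ℝ) := by
          refine sum_le_sum fun α hα => ?_
          rw [sum_comm]
          refine (sum_le_sum fun β hβ => h6 α hα β hβ).trans ?_
          simp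
      _ = (#S : ℝ) * #S := by simp
      _ ≤ (R : ℝ) ^ 2 := by
          rw [sq]
          exact mul_le_mul hrR hrR (Nat.cast_nonneg _) (Nat.cast_nonneg _)

end Pool.Agent.Helper44K9.FC
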