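import Pool.Agent.Helper44K9.FC.Stm
import Pool.Agent.R509.HM.Sqf

/-!
# Project FC: the logarithmic density of the squarefree numbers (leaf SQF)
-/

set_option autoImplicit false

namespace Pool.Agent.Helper44K9.FC

open Finset MeasureTheory
open Pool.Agent.R509.HM

namespace SqfL

/-- sums over a period -/
lemma shift (g : ℕ → ℝ) (D : ℕ) (hg : ∀ n, g (n + D) = g n) (k : ℕ) :
    ∑ b ∈ range D, g (b + k) = ∑ b ∈ range D, g b := by
  induction k with
  | zero => simp
  | succ k ih =>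
    rw [← ih]
    have h1 : ∑ b ∈ range (D + 1), g (b + k) = ∑ b ∈ range D, g (b + k) + g (D + k) :=
      sum_range_succ _ _
    have h2 : ∑ b ∈ range (D + 1), g (b + k) = ∑ b ∈ range D, g (b + 1 + k) + g (0 + k) :=
      sum_range_succ' _ _
    have h3 : g (D + k) = g (0 + k) := by rw [add_comm, hg, zero_add]
    have h4 : ∑ b ∈ range D, g (b + (k + 1)) = ∑ b ∈ range D, g (b + 1 + k) :=
      sum_congr rfl fun b _ => by rw [show b + (k + 1) = b + 1 + k by ring]
    rw [h4]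
    linarith

/-- initial sums of a periodic function -/
lemma init (g : ℕ → ℝ) (D : ℕ) (hD : 1 ≤ D) (hg : ∀ n, g (n + D) = g n) (hg1 : ∀ n, g n ≤ 1)
    (s : ℝ) (hs0 : 0 ≤ s) (hs : ∑ b ∈ range D, g b ≤ s * D) (n : ℕ) :
    ∑ b ∈ range n, g (b + 1) ≤ s * n + D := by
  induction n using Nat.strong_induction_on with
  | _ n ih =>
    rcases lt_or_ge n D with h | h
    · calc ∑ b ∈ range n, g (b + 1) ≤ ∑ b ∈ range n, (1 : ℝ) := sum_le_sum fun b _ => hg1 _
        _ = n := by simp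
        _ ≤ s * n + D := by
          have : (n : ℝ) ≤ D := by exact_mod_cast h.le
          have : 0 ≤ s * (n : ℝ) := by positivity
          linarith
    · obtain ⟨m, rfl⟩ := Nat.exists_eq_add_of_le' h
      rw [sum_range_add]
      have h1 := ih m (by omega)
      have h2 : ∑ b ∈ range D, g (m + b + 1) = ∑ b ∈ range D, g b := by
        rw [← shift g D hg (m + 1)]
        exact sum_congr rfl fun b _ => by rw [show m + b + 1 = b + (m + 1) by ring]
      rw [h2]
      push_cast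
      linarith

/-- Abel summation -/
lemma abel (a : ℕ → ℝ) (C : ℝ) (ha : ∀ n, ∑ b ∈ range n, a (b + 1) ≤ C) (N : ℕ) :
    ∑ n ∈ Icc 1 N, (1 / (n : ℝ)) * a n ≤ C := by
  have hC : 0 ≤ C := by simpa using ha 0
  have h1 : ∀ N : ℕ, ∑ n ∈ Icc 1 N, (1 / (n : ℝ)) * a n ≤
      C * (1 - 1 / ((N : ℝ) + 1)) + (1 / ((N : ℝ) + 1)) * ∑ b ∈ range N, a (b + 1) := by
    intro N
    induction N with
    | zero => simp
    | succ N ih =>
      rw [sum_Icc_succ_top (by omega), sum_range_succ]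
      have h2 := ha (N + 1)
      rw [sum_range_succ] at h2
      push_cast
      set A := ∑ b ∈ range N, a (b + 1)
      have p1 : (0 : ℝ) < (N : ℝ) + 1 := by positivity
      have p2 : (0 : ℝ) < (N : ℝ) + 1 + 1 := by positivity
      have h3 : 0 ≤ (1 / ((N : ℝ) + 1) - 1 / ((N : ℝ) + 1 + 1)) * (C - (A + a (N + 1))) := by
        apply mul_nonneg
        · rw [sub_nonneg]
          exact one_div_le_one_div_of_le p1 (by linarith)
        · linarith
      linarith
  have h2 := h1 N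
  have h3 := ha N
  have p1 : (0 : ℝ) < 1 / ((N : ℝ) + 1) := by positivity
  nlinarith

/-- logarithmic averages of periodic functions -/
lemma logav (g : ℕ → ℝ) (D : ℕ) (hD : 1 ≤ D) (hg : ∀ n, g (n + D) = g n) (hg1 : ∀ n, g n ≤ 1)
    (s : ℝ) (hs0 : 0 ≤ s) (hs : ∑ b ∈ range D, g b ≤ s * D) (h N : ℕ) :
    ∑ n ∈ Icc 1 N, (1 / (n : ℝ)) * g (n + h) ≤ s * ∑ n ∈ Icc 1 N, 1 / (n : ℝ) + D := by
  have h1 := abel (fun n => g (n + h) - s) D (by
    intro n
    rw [sum_sub_distrib]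
    have h2 := init (fun n => g (n + h)) D hD (fun n => by
      show g (n + D + h) = g (n + h)
      rw [show n + D + h = n + h + D by ring, hg]) (fun n => hg1 _) s hs0
      (by rw [shift g D hg h]; exact hs) n
    simp only [sum_const, card_range, nsmul_eq_mul]
    linarith) N
  have h2 : ∑ n ∈ Icc 1 N, (1 / (n : ℝ)) * (g (n + h) - s) =
      ∑ n ∈ Icc 1 N, (1 / (n : ℝ)) * g (n + h) - s * ∑ n ∈ Icc 1 N, 1 / (n : ℝ) := by
    rw [mul_sum, ← sum_sub_distrib]
    exact sum_congr rfl fun n _ => by ring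
  have h1' : ∑ n ∈ Icc 1 N, (1 / (n : ℝ)) * (g (n + h) - s) ≤ D := h1
  linarith

lemma norm_mu (m : ℕ) : ‖mu m‖ = |((ArithmeticFunction.moebius m : ℤ) : ℝ)| := by
  unfold mu
  rw [Complex.norm_intCast]

end SqfL

open SqfL in
/-- the leaf SQF -/
theorem sqf : S_SQF := by
  intro H ε hH hε
  obtain ⟨W, hW⟩ := exists_W (ε / 2) (by positivity)
  set S := Nat.primesBelow W with hS
  have hSp : ∀ p ∈ S, p.Prime := fun p hp => Nat.prime_of_mem_primesBelow hp
  set D := DS S with hD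
  have hD1 : 1 ≤ D := DS_pos S hSp
  set s : ℝ := 6 / Real.pi ^ 2 + ε / 2 with hs
  have hs0 : 0 ≤ s := by positivity
  have hsum : ∑ b ∈ range D, sqS S b ≤ s * D := by
    rw [hD, sqS_sum S hSp]
    exact mul_le_mul_of_nonneg_right hW (Nat.cast_nonneg _)
  obtain ⟨N₀, hN₀⟩ := Filter.eventually_atTop.1
    ((Real.tendsto_sum_range_one_div_nat_succ_atTop).eventually_ge_atTop (2 * D / ε))
  refine ⟨N₀, fun N hN => ?_⟩
  have hL : 2 * D / ε ≤ ∑ n ∈ Icc 1 N, 1 / (n : ℝ) := by
    have h1 := hN₀ N hN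
    have h2 : ∑ n ∈ Icc 1 N, 1 / (n : ℝ) = ∑ i ∈ range N, 1 / ((i : ℝ) + 1) := by
      rw [← Finset.Ico_succ_right_eq_Icc, sum_Ico_eq_sum_range]
      apply sum_congr rfl
      intro i _
      push_cast
      rw [add_comm]
    rw [h2]
    exact h1
  have hL2 : (D : ℝ) ≤ ε / 2 * ∑ n ∈ Icc 1 N, 1 / (n : ℝ) := by
    rw [div_le_iff₀ hε] at hL
    linarith
  have hH0 : (0 : ℝ) < H := by exact_mod_cast hH
  -- the windows
  have h1 : ∀ n, en mu n H ≤ (∑ h ∈ range H, sqS S (n + (h + 1))) / H := by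
    intro n
    unfold en
    apply div_le_div_of_nonneg_right _ hH0.le
    have h2 : ∑ m ∈ Ioc n (n + H), ‖mu m‖ ^ 2 = ∑ h ∈ range H, ‖mu (n + (h + 1))‖ ^ 2 := by
      have h3 : Ioc n (n + H) = (range H).image (fun h => n + (h + 1)) := by
        ext m
        simp only [mem_Ioc, mem_image, mem_range]
        constructor
        · rintro ⟨h4, h5⟩
          exact ⟨m - n - 1, by omega, by omega⟩
        · rintro ⟨h, h4, rfl⟩
          omega
      rw [h3, sum_image]
      intro a _ b _ hab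
      simp only at hab
      omega
    rw [h2]
    apply sum_le_sum
    intro h _
    rw [norm_mu]
    have h4 := mob_le S hSp (n + (h + 1))
    have h5 : |((ArithmeticFunction.moebius (n + (h + 1)) : ℤ) : ℝ)| ≤ 1 := h4.trans (sqS_le _ _)
    have h6 := abs_nonneg ((ArithmeticFunction.moebius (n + (h + 1)) : ℤ) : ℝ)
    nlinarith
  calc ∑ n ∈ Icc 1 N, (1 / (n : ℝ)) * en mu n H
      ≤ ∑ n ∈ Icc 1 N, (1 / (n : ℝ)) * ((∑ h ∈ range H, sqS S (n + (h + 1))) / H) :=
        sum_le_sum fun n _ => mul_le_mul_of_nonneg_left (h1 n) (by positivity)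
    _ = (∑ h ∈ range H, ∑ n ∈ Icc 1 N, (1 / (n : ℝ)) * sqS S (n + (h + 1))) / H := by
        rw [sum_comm, sum_div]
        apply sum_congr rfl
        intro n _
        rw [← mul_sum]
        ring
    _ ≤ (∑ h ∈ range H, (s * ∑ n ∈ Icc 1 N, 1 / (n : ℝ) + D)) / H := by
        apply div_le_div_of_nonneg_right _ hH0.le
        exact sum_le_sum fun h _ => logav (sqS S) D hD1 (sqS_per S) (sqS_le S) s hs0 hsum (h + 1) N
    _ = s * ∑ n ∈ Icc 1 N, 1 / (n : ℝ) + D := by
        rw [sum_const, card_range, nsmul_eq_mul]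
        field_simp
    _ ≤ (6 / Real.pi ^ 2 + ε) * ∑ n ∈ Icc 1 N, 1 / (n : ℝ) := by
        rw [hs]
        linarith

end Pool.Agent.Helper44K9.FC
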