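import Mathlib
import Pool.Agent.Helper44K9.FU.Stm

/-!
# Project FC (MP_663568_nt, helper44): linear phases, closed sets of frequencies of positive measure.

For the Möbius and the Liouville function `f` and every compact set `E` of frequencies,
`limsup (1 / log N) ∑_{n ≤ N} (1/n) sup_{α ∈ E} |(1/H) ∑_{h ≤ H} f(n+h) e(α h)| ≤ σ √|E|`.
Definitions and statements of the leaves.
-/

set_option autoImplicit false

namespace Pool.Agent.Helper44K9.FC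

open Finset MeasureTheory
open Pool.Agent.H807R2.Dav (ee)
open Pool.Agent.Helper44K9.FU (MM)

/-- the sum of `f(m) e(α m)` over `n < m ≤ n + H` -/
noncomputable def V (f : ℕ → ℂ) (α : ℝ) (n H : ℕ) : ℂ := ∑ m ∈ Ioc n (n + H), f m * ee (α * m)

/-- the correlation of `f` with `e(α m)` on the window -/
noncomputable def cr (f : ℕ → ℂ) (α : ℝ) (n H : ℕ) : ℝ := ‖V f α n H‖ / H

/-- the mean square of `f` on the window -/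
noncomputable def en (f : ℕ → ℂ) (n H : ℕ) : ℝ := (∑ m ∈ Ioc n (n + H), ‖f m‖ ^ 2) / H

/-- `α`, `β` are near at the scale `H` -/
def Nr (K H : ℕ) (α β : ℝ) : Prop := ∃ a : ℤ, |α - β - a| ≤ K / (H : ℝ)

/-- separated sets -/
def Sep (K H : ℕ) (S : Finset ℝ) : Prop := ∀ α ∈ S, ∀ β ∈ S, α ≠ β → ¬ Nr K H α β

/-- the Möbius function -/
noncomputable def mu (n : ℕ) : ℂ := ((ArithmeticFunction.moebius n : ℤ) : ℂ)

/-- the Liouville function -/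
noncomputable def la (n : ℕ) : ℂ := (-1) ^ ArithmeticFunction.cardFactors n

/-- [BS1] Bessel's inequality for well separated frequencies. Proof (Selberg): for `α ≠ β` in `S` the sum of
`e((α - β) m)` over the window is at most `H / (2 K)` (geometric sum, `Pool.Agent.Helper602.MK.N_J5b.KD_far`, see
`IW_one` in `Pool.Agent.H373R2.NB.Weyl`); with `s = 1 + R / (2 K)`, expand `0 ≤ ‖f - ∑ (⟨f, e_α⟩/(s H)) e_α‖²`. -/
def S_BS1 : Prop := ∀ (ε : ℝ) (R : ℕ), 0 < ε → ∃ K₀ : ℕ, ∀ K ≥ K₀, ∀ (f : ℕ → ℂ) (n H : ℕ) (S : Finset ℝ), 1 ≤ H →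
  Sep K H S → #S ≤ R → ∑ α ∈ S, cr f α n H ^ 2 ≤ (1 + ε) * en f n H

/-- [BS2] few large correlations. Proof: if more than `⌈2/θ⌉` elements, apply `S_BS1` (with `ε = 1/2`, say, and
`R = ⌈2/θ⌉ + 1`) to a subset with exactly `⌈2/θ⌉ + 1` elements. -/
def S_BS2 : Prop := ∀ θ : ℝ, 0 < θ → ∃ K₀ R : ℕ, ∀ K ≥ K₀, ∀ f : ℕ → ℂ, (∀ n, ‖f n‖ ≤ 1) → ∀ (n H : ℕ) (S : Finset ℝ),
  1 ≤ H → Sep K H S → (∀ α ∈ S, θ < cr f α n H ^ 2) → #S ≤ R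

/-- [NR1] separation is preserved by the dilations with all primes but one. Proof as `FU.nr` (which is shorter here):
`|α - β - a/p| ≤ 3 K / (p (H/p)) ≤ 4 K / H` for `H` large (`p (H/p) ≥ H - p`), the same with `b/q`, so `a/p = b/q` is
an integer. -/
def S_NR1 : Prop := ∀ K B : ℕ, 1 ≤ K → ∃ H₀ : ℕ, ∀ H ≥ H₀, ∀ (α β : ℝ) (p q : ℕ), p.Prime → q.Prime → p ≠ q →
  p ≤ B → q ≤ B → Nr (3 * K) (H / p) (p * α) (p * β) → Nr (3 * K) (H / q) (q * α) (q * β) → Nr (4 * K) H α β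

open Classical in
/-- [PIGR] pigeonhole over the levels, real valued. Proof as `FU.pig`, with
`κ' 1[x > y + κ'] ≤ (x - y) + ν + B 1[x < y - ν]` for `0 ≤ x, y ≤ B`. -/
def S_PIGR : Prop := ∀ (I : Finset ℕ) (w : ℕ → ℝ), (∀ p ∈ I, 0 ≤ w p) → ∑ p ∈ I, w p = 1 →
  ∀ (J H₁ H₂ N : ℕ) (B κ κ' ν er : ℝ) (r : ℕ → ℕ → ℕ → ℝ), 1 ≤ J → 0 ≤ B → 0 < κ' → 0 ≤ ν →
  (∀ j n H, 0 ≤ r j n H ∧ r j n H ≤ B) →
  (∀ j < J, ∀ p ∈ I, MM H₁ H₂ N (fun n H => r (j + 1) (n / p) (H / p)) ≤ MM H₁ H₂ N (r (j + 1)) + er) →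
  (∀ j < J, ∀ H ∈ Ico H₁ H₂, ∀ n ∈ Icc 1 N,
    ∑ p ∈ I.filter (fun p => r (j + 1) (n / p) (H / p) < r j n H - ν), w p ≤ κ) →
  ∃ j < J, κ' * ∑ p ∈ I, w p * MM H₁ H₂ N (fun n H => if r j n H + κ' < r (j + 1) (n / p) (H / p) then 1 else 0) ≤
    (B / J + ν + B * κ) * MM H₁ H₂ N (fun _ _ => 1) + er

/-- [TRIG1] trigonometric majorant with the sharp mean; from `FU.TrigL.approx`, `FU.TrigL.mean` as in `FU.trig`
(`U ⊇ E` open with `|U| ≤ |E| + ε/4`, `g` continuous, `1_E ≤ g ≤ 1_U`, approximate `(1 + ε/4) g + ε/4`, real part). -/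
def S_TRIG1 : Prop := ∀ (E : Set UnitAddCircle) (ε : ℝ), IsCompact E → 0 < ε →
  ∃ (S : Finset ℤ) (a : ℤ → ℂ) (τ : ℝ), 0 < τ ∧ 0 ∈ S ∧
    (∀ x : ℝ, 0 ≤ (∑ j ∈ S, a j * ee (j * x)).re) ∧ (a 0).re ≤ (volume E).toReal + ε ∧
    ∀ x β : ℝ, (β : UnitAddCircle) ∈ E → ∀ b : ℤ, |β - x - b| ≤ τ → 1 ≤ (∑ j ∈ S, a j * ee (j * x)).re

/-- [WPR] weighted sums over the primes of a dyadic block, away from the rational numbers with small denominators.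
Proof: as `FU.pw` (`d = 1`), for all sub-blocks `Ioc N M`, `N ≤ M ≤ 2 N` (difference of two initial sums):
`‖∑_{N < n ≤ M} Λ(n) e(n θ)‖ ≤ ε' N` unless `θ` is within `C/N ≤ τ` of ...; the prime powers contribute `O(√N log N)`;
partial summation with the weight `1 / (n log n)`. -/
def S_WPR : Prop := ∀ ε : ℝ, 0 < ε → ∃ C : ℕ, 1 ≤ C ∧ ∀ τ : ℝ, 0 < τ → ∃ k₀ : ℕ, ∀ k ≥ k₀, ∀ θ : ℝ,
  (∀ q : ℕ, 1 ≤ q → q ≤ C → ∀ a : ℤ, τ < |q * θ - a|) →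
  ‖∑ p ∈ (Ioc (2 ^ k) (2 ^ (k + 1))).filter Nat.Prime, ((1 / (p : ℝ) : ℝ) : ℂ) * ee (p * θ)‖ ≤ ε / k

open Classical in
/-- [EQ1] `S_TRIG1 → S_WPR → FU.S_CHB → S_EQ1`: `I` = all primes of `(2^k₁, 2^k₂]`; `∑ 1/k ≤ L/b` by `FU.S_CHB`. -/
def S_EQ1 : Prop := ∀ (E : Set UnitAddCircle) (ε : ℝ), IsCompact E → 0 < ε → ∃ Q : ℕ, ∀ τQ : ℝ, 0 < τQ →
  ∀ (z : ℕ) (A : ℝ), ∃ I : Finset ℕ, (∀ p ∈ I, p.Prime ∧ z < p) ∧ A ≤ ∑ p ∈ I, 1 / (p : ℝ) ∧ ∃ τ : ℝ, 0 < τ ∧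
    ∀ α : ℝ, (∀ q : ℕ, 1 ≤ q → q ≤ Q → ∀ a : ℤ, τQ < |q * α - a|) →
    ∑ p ∈ I.filter (fun p : ℕ => ∃ β : ℝ, (β : UnitAddCircle) ∈ E ∧ ∃ a : ℤ, |β - p * α - a| ≤ τ), 1 / (p : ℝ) ≤
      ((volume E).toReal + ε) * ∑ p ∈ I, 1 / (p : ℝ)

/-- the supremum of the correlations over the frequencies within `τ / q` of a fraction with denominator `q ≤ Q` -/
noncomputable def maj (f : ℕ → ℂ) (Q : ℕ) (τ : ℝ) (n H : ℕ) : ℝ :=
  ⨆ α : {α : ℝ // ∃ q : ℕ, 1 ≤ q ∧ q ≤ Q ∧ ∃ a : ℤ, |q * α - a| ≤ τ}, cr f α n H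

/-- [MAJ] major arcs (Matomäki-Radziwiłł), for `f = mu` and `f = la`. Proof: take `E` = the fractions with denominators
`≤ Q` (at most `Q²` of them) in `Pool.Agent.Results.MP_663568_nt.SmallFrequencySets.result` (for `mu`; for `la` the same
proof with `Pool.Agent.TH327.Dim.good_lam` and `laf`), `d = 1`, `s = 0`, `C = Q² + 1`, at a fixed length `h₀`;
`τ = ε / (100 h₀)`; a window of length `H ≥ h₀ / ε` is cut into windows of length `h₀` (use `FU.FL.sub_window`, which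
is true with any `f`), on which `e(β m)`, `|β| ≤ τ`, is constant up to `ε`; `FU.sub` (`S_SUB`) compares the logarithmic
averages, `n ≤ C H` by the trivial bound if `N` is large in terms of `H`. -/
def S_MAJ (f : ℕ → ℂ) : Prop := ∀ (Q : ℕ) (ε : ℝ), 0 < ε → ∃ τ : ℝ, 0 < τ ∧ ∃ H₀ : ℕ, ∀ H ≥ H₀, ∃ N₀ : ℕ, ∀ N ≥ N₀,
  ∑ n ∈ Icc 1 N, (1 / (n : ℝ)) * maj f Q τ n H ≤ ε * ∑ n ∈ Icc 1 N, 1 / (n : ℝ)

/-- [DAV] long sums (Davenport), for `f = mu` and `f = la`; from `Pool.Agent.TH823.MRS.expo_mob`, `expo_lam` with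
`H = X` and a trapezoid `T`, or from `Pool.Agent.H807R2.Dav...`. -/
def S_DAV (f : ℕ → ℂ) : Prop := ∀ ε : ℝ, 0 < ε → ∃ X₀ : ℕ, ∀ X ≥ X₀, ∀ α : ℝ, ‖V f α 0 X‖ ≤ ε * X

/-- [SQF] the logarithmic density of the squarefree numbers, upper bound: for each `H`. (For `N` large in terms of
`H`; look at `Pool.Agent.R509.PP.Mob` for `6/π²`.) -/
def S_SQF : Prop := ∀ (H : ℕ) (ε : ℝ), 1 ≤ H → 0 < ε → ∃ N₀ : ℕ, ∀ N ≥ N₀,
  ∑ n ∈ Icc 1 N, (1 / (n : ℝ)) * en mu n H ≤ (6 / Real.pi ^ 2 + ε) * ∑ n ∈ Icc 1 N, 1 / (n : ℝ)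

end Pool.Agent.Helper44K9.FC
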