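import Pool.Agent.Helper44K9.FC.Stm
import Pool.Agent.Helper44K9.FU.Trig

/-! [TRIG1] trigonometric majorants with the sharp mean. -/

set_option autoImplicit false

namespace Pool.Agent.Helper44K9.FC

open Finset MeasureTheory AddCircle
open Pool.Agent.H807R2.Dav (ee)
open Pool.Agent.Helper44K9.FU.TrigL

theorem trig1 : S_TRIG1 := by
  classical
  have : Fact ((0 : ℝ) < 1) := ⟨zero_lt_one⟩
  intro E c hE hc
  -- a small number
  obtain ⟨e, he⟩ : ∃ e : ℝ, e = min (c / 8) 1 := ⟨_, rfl⟩
  have he0 : 0 < e := by rw [he]; exact lt_min (by positivity) one_pos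
  have hec : e ≤ c / 8 := by rw [he]; exact min_le_left _ _
  have he1 : e ≤ 1 := by rw [he]; exact min_le_right _ _
  have hcl : IsClosed E := hE.isClosed
  obtain ⟨U, hU1, hU2, hU3⟩ := Set.exists_isOpen_le_add E (volume : Measure UnitAddCircle)
    (ε := ENNReal.ofReal e) (by
      rw [ne_eq, ENNReal.ofReal_eq_zero, not_le]
      exact he0)
  have hV1 : (volume : Measure UnitAddCircle).real E ≤ 1 := by
    have h0 : volume E ≤ 1 := by
      have h1 : volume E ≤ volume (Set.univ : Set UnitAddCircle) := measure_mono (Set.subset_univ _)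
      rwa [UnitAddCircle.measure_univ] at h1
    have h1 := ENNReal.toReal_mono ENNReal.one_ne_top h0
    rwa [ENNReal.toReal_one] at h1
  have hUv : (volume : Measure UnitAddCircle).real U ≤ (volume : Measure UnitAddCircle).real E + e := by
    rw [measureReal_def, measureReal_def]
    have h1 := ENNReal.toReal_mono (by
      rw [ne_eq, ENNReal.add_eq_top, not_or]
      exact ⟨measure_ne_top _ _, ENNReal.ofReal_ne_top⟩) hU3
    rwa [ENNReal.toReal_add (measure_ne_top _ _) ENNReal.ofReal_ne_top, ENNReal.toReal_ofReal he0.le] at h1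
  obtain ⟨g, hg0, hg1, hg⟩ := exists_continuous_zero_one_of_isClosed hU2.isClosed_compl hcl
    (Set.disjoint_compl_left_iff_subset.2 hU1)
  -- the trigonometric polynomial
  obtain ⟨G, hG⟩ : ∃ G : C(UnitAddCircle, ℂ), ∀ z, G z = (((1 + e) * g z : ℝ) : ℂ) :=
    ⟨⟨fun z => (((1 + e) * g z : ℝ) : ℂ), by fun_prop⟩, fun z => rfl⟩
  obtain ⟨a, ha⟩ := approx G e he0
  obtain ⟨p, hp⟩ : ∃ p : UnitAddCircle → ℝ, p = fun z => (∑ j ∈ a.support, a j * fourier j z).re :=
    ⟨_, rfl⟩
  have hpg : ∀ z, |p z - (1 + e) * g z| ≤ e := by
    intro z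
    have h1 := ha z
    rw [hG] at h1
    have h2 := Complex.abs_re_le_norm (∑ j ∈ a.support, a j * fourier j z - (((1 + e) * g z : ℝ) : ℂ))
    rw [Complex.sub_re, Complex.ofReal_re] at h2
    rw [hp]
    exact h2.trans h1
  have hpc : Continuous p := by
    rw [hp]
    exact Complex.continuous_re.comp (continuous_finsetSum _ fun j _ =>
      (ContinuousMap.continuous (fourier j)).const_mul (a j))
  -- the mean
  have ha0 : (a 0).re ≤ (1 + e) * ((volume : Measure UnitAddCircle).real E + e) + e := by
    have h1 := mean a
    have hint : Integrable (fun z : UnitAddCircle => ∑ j ∈ a.support, a j * fourier j z) volume :=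
      (continuous_finsetSum _ fun j _ =>
        (ContinuousMap.continuous (fourier j)).const_mul (a j)).integrable_of_hasCompactSupport
        (HasCompactSupport.of_compactSpace _)
    have h2 : (a 0).re = ∫ z : UnitAddCircle, p z := by
      rw [← h1, hp]
      exact (integral_re hint).symm
    have hpi : Integrable p volume :=
      hpc.integrable_of_hasCompactSupport (HasCompactSupport.of_compactSpace _)
    have hgi : Integrable (fun z : UnitAddCircle => U.indicator (fun _ => (1 + e : ℝ)) z + e) volume :=
      ((integrable_const (1 + e : ℝ)).indicator hU2.measurableSet).add (integrable_const _)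
    have h3 : ∫ z : UnitAddCircle, p z ≤
        ∫ z : UnitAddCircle, (U.indicator (fun _ => (1 + e : ℝ)) z + e) := by
      refine integral_mono hpi hgi fun z => ?_
      have h4 := (abs_le.1 (hpg z)).2
      show p z ≤ U.indicator (fun _ => (1 + e : ℝ)) z + e
      by_cases hz : z ∈ U
      · rw [Set.indicator_of_mem hz]
        have h5 := (hg z).2
        have h6 : (1 + e) * g z ≤ (1 + e) * 1 := mul_le_mul_of_nonneg_left h5 (by linarith)
        linarith
      · rw [Set.indicator_of_notMem hz]
        have h5 : g z = 0 := hg0 hz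
        rw [h5] at h4
        linarith
    have h4 : ∫ z : UnitAddCircle, (U.indicator (fun _ => (1 + e : ℝ)) z + e) =
        (1 + e) * (volume : Measure UnitAddCircle).real U + e := by
      rw [integral_add ((integrable_const (1 + e : ℝ)).indicator hU2.measurableSet) (integrable_const _),
        integral_indicator_const _ hU2.measurableSet, integral_const, smul_eq_mul, smul_eq_mul]
      have h5 : (volume : Measure UnitAddCircle).real Set.univ = 1 := by
        rw [measureReal_def, UnitAddCircle.measure_univ, ENNReal.toReal_one]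
      rw [h5]
      ring
    rw [h2]
    have h5 : (1 + e) * (volume : Measure UnitAddCircle).real U ≤
        (1 + e) * ((volume : Measure UnitAddCircle).real E + e) :=
      mul_le_mul_of_nonneg_left hUv (by linarith)
    linarith
  -- uniform continuity
  have huc := CompactSpace.uniformContinuous_of_continuous hpc
  obtain ⟨τ, hτ, hτ2⟩ := Metric.uniformContinuous_iff.1 huc e he0
  -- the value at a real number
  obtain ⟨a', ha'⟩ : ∃ a' : ℤ → ℂ, a' = fun j => a j + if j = 0 then ((e : ℝ) : ℂ) else 0 :=
    ⟨_, rfl⟩
  have hval : ∀ x : ℝ, (∑ j ∈ insert 0 a.support, a' j * ee (j * x)).re =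
      p (x : UnitAddCircle) + e := by
    intro x
    have h1 : ∑ j ∈ insert 0 a.support, a' j * ee (j * x) =
        ∑ j ∈ a.support, a j * fourier j (x : UnitAddCircle) + ((e : ℝ) : ℂ) := by
      rw [ha']
      simp only [add_mul, sum_add_distrib]
      congr 1
      · symm
        refine (sum_subset (subset_insert 0 a.support) fun j _ hj => ?_).trans ?_
        · rw [Finsupp.notMem_support_iff.1 hj, zero_mul]
        · exact sum_congr rfl fun j _ => by rw [ee_fourier]
      · rw [sum_eq_single 0]
        · rw [if_pos rfl, Int.cast_zero, zero_mul, Pool.Agent.H807R2.Dav.ee_zero, mul_one]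
        · intro j _ hj
          rw [if_neg hj, zero_mul]
        · intro h
          exact absurd (mem_insert_self 0 _) h
    rw [h1, Complex.add_re, Complex.ofReal_re, hp]
  refine ⟨insert 0 a.support, a', τ / 2, by positivity, mem_insert_self 0 _, fun x => ?_, ?_, ?_⟩
  · rw [hval]
    have h1 := (abs_le.1 (hpg (x : UnitAddCircle))).1
    have h2 := (hg (x : UnitAddCircle)).1
    have h3 : 0 ≤ (1 + e) * g (x : UnitAddCircle) := mul_nonneg (by linarith) h2
    linarith
  · rw [ha']
    simp only [if_true]
    rw [Complex.add_re, Complex.ofReal_re]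
    have h1 : (volume : Measure UnitAddCircle).real E = (volume E).toReal := measureReal_def _ _
    rw [h1] at ha0 hV1
    nlinarith
  · intro x β hβ b hxb
    rw [hval]
    have h1 : dist (x : UnitAddCircle) (β : UnitAddCircle) < τ := by
      rw [dist_eq_norm, ← AddCircle.coe_sub, UnitAddCircle.norm_eq]
      have h2 := round_le (x - β) (-b)
      refine h2.trans_lt ?_
      have h3 : x - β - ((-b : ℤ) : ℝ) = -(β - x - b) := by push_cast; ring
      rw [h3, abs_neg]
      linarith
    have h2 := hτ2 h1
    rw [Real.dist_eq] at h2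
    have h3 : g (β : UnitAddCircle) = 1 := hg1 hβ
    have h4 := (abs_le.1 (hpg (β : UnitAddCircle))).1
    rw [h3] at h4
    have h5 := (abs_lt.1 h2).1
    linarith

end Pool.Agent.Helper44K9.FC
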