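import Pool.Agent.Helper44K9.FC.Stm
import Pool.Agent.R486.PD.MajorArcs
import Pool.Agent.R486.PD.MinorArcs
import Pool.Agent.R486.PD.ModelMinor

/-! [WPR]: `∑ e(p θ) / p` over the primes of a dyadic block, away from the rational numbers of small denominator. -/

set_option autoImplicit false

namespace Pool.Agent.Helper44K9.FC

open Finset
open Pool.Agent.H807R2.Dav (ee)
open Pool.Agent.R486.PD

namespace WprL

/-- the sum over primes `p ≤ M` with the weight `log p` -/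
noncomputable def Pr (M : ℕ) (θ : ℝ) : ℂ := ∑ n ∈ Ioc 0 M, (if n.Prime then ((Real.log n : ℝ) : ℂ) * ee (n * θ) else 0)

theorem norm_ee (x : ℝ) : ‖ee x‖ = 1 := Pool.Agent.H807R2.Dav.norm_ee x

/-- the prime powers -/
theorem lam_pr (M : ℕ) (hM : 1 ≤ M) (θ : ℝ) :
    ‖SLam Polynomial.X M θ - Pr M θ‖ ≤ 2 * √(M : ℝ) * Real.log M := by
  have h0 : SLam Polynomial.X M θ - Pr M θ = ∑ n ∈ Ioc 0 M,
      ((ArithmeticFunction.vonMangoldt n - (if n.Prime then Real.log n else 0) : ℝ) : ℂ) * ee (n * θ) := by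
    unfold SLam Pr
    have h1 : Icc 1 M = Ioc 0 M := by ext x; simp only [mem_Icc, mem_Ioc]; omega
    rw [h1, ← sum_sub_distrib]
    refine sum_congr rfl fun n _ => ?_
    rw [Polynomial.eval_X]
    rw [show θ * (((n : ℕ) : ℤ) : ℝ) = n * θ by push_cast; ring]
    split_ifs with h
    · push_cast; ring
    · push_cast; ring
  have h2 : ∀ n ∈ Ioc 0 M, 0 ≤ ArithmeticFunction.vonMangoldt n - (if n.Prime then Real.log n else 0) := by
    intro n _
    split_ifs with h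
    · rw [ArithmeticFunction.vonMangoldt_apply_prime h, sub_self]
    · rw [sub_zero]; exact ArithmeticFunction.vonMangoldt_nonneg
  rw [h0]
  calc _ ≤ ∑ n ∈ Ioc 0 M, (ArithmeticFunction.vonMangoldt n - (if n.Prime then Real.log n else 0)) := by
        refine norm_sum_le_of_le _ fun n hn => ?_
        rw [norm_mul, norm_ee, mul_one, Complex.norm_real, Real.norm_of_nonneg (h2 n hn)]
    _ = Chebyshev.psi (M : ℝ) - Chebyshev.theta (M : ℝ) := by
        unfold Chebyshev.psi Chebyshev.theta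
        rw [Nat.floor_natCast, sum_sub_distrib, sum_filter]
    _ ≤ _ := Chebyshev.psi_sub_theta_le (by exact_mod_cast hM)

theorem sqrt_log (δ : ℝ) (hδ : 0 < δ) : ∃ N₀ : ℕ, ∀ x : ℕ, N₀ ≤ x → 2 * √(x : ℝ) * Real.log x ≤ δ * x := by
  have h1 := (isLittleO_log_rpow_atTop (r := 1 / 2) (by norm_num)).bound
    (c := δ / 2) (by positivity)
  obtain ⟨N, hN⟩ := (tendsto_natCast_atTop_atTop (R := ℝ)).eventually h1 |>.exists_forall_of_atTop
  refine ⟨max N 1, fun x hx => ?_⟩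
  have h2 := hN x (le_trans (le_max_left _ _) hx)
  have hx1 : (1 : ℝ) ≤ x := by exact_mod_cast le_trans (le_max_right _ _) hx
  rw [Real.norm_of_nonneg (Real.log_nonneg hx1), Real.norm_of_nonneg (by positivity),
    ← Real.sqrt_eq_rpow] at h2
  have h3 : √(x : ℝ) * √(x : ℝ) = x := Real.mul_self_sqrt (by linarith)
  have h4 : 0 ≤ √(x : ℝ) := Real.sqrt_nonneg _
  nlinarith

/-- initial sums over primes -/
theorem pr_small (ε : ℝ) (hε : 0 < ε) : ∃ C : ℕ, 1 ≤ C ∧ ∀ τ : ℝ, 0 < τ → ∃ M₀ : ℕ, ∀ M ≥ M₀, ∀ θ : ℝ,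
    (∀ q : ℕ, 1 ≤ q → q ≤ C → ∀ a : ℤ, τ < |q * θ - a|) → ‖Pr M θ‖ ≤ ε * M := by
  have hdeg : (Polynomial.X : Polynomial ℤ).natDegree = 1 := Polynomial.natDegree_X
  obtain ⟨z, hz⟩ := primeUniform_of minorArcs majorArcs modelMinor Polynomial.X (by rw [hdeg])
    (ε / 4) (by positivity)
  obtain ⟨w, hw⟩ : ∃ w : ℕ, w = ∏ p ∈ (Icc 1 z).filter Nat.Prime, p := ⟨_, rfl⟩
  have hw0 : 0 < w := by
    rw [hw]
    exact prod_pos fun p hp => (mem_filter.1 hp).2.pos
  obtain ⟨N₁, h1⟩ := hz w hw0 (by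
    intro p hp hpp
    rw [hw]
    exact dvd_prod_of_mem (fun p => p) (mem_filter.2 ⟨mem_Icc.2 ⟨hpp.one_lt.le, hp⟩, hpp⟩))
  obtain ⟨C, N₂, h2⟩ := modelMinor Polynomial.X (by rw [hdeg]) (ε / 4) (by positivity) w hw0
  obtain ⟨N₃, h3⟩ := sqrt_log (ε / 4) (by positivity)
  refine ⟨C + 1, by omega, fun τ hτ => ⟨N₁ + N₂ + N₃ + ⌈(C : ℝ) / τ⌉₊ + 1, fun M hM θ hθ => ?_⟩⟩
  have hM0 : (0 : ℝ) < M := by exact_mod_cast (by omega : 0 < M)
  have a1 := h1 M (by omega) θ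
  have a3 := h3 M (by omega)
  have a4 := lam_pr M (by omega) θ
  have a2 : ‖SMod Polynomial.X w M θ‖ < ε / 4 * M := by
    by_contra hcon
    push Not at hcon
    obtain ⟨q, hq1, hq2, a, ha⟩ := h2 M (by omega) θ hcon
    have h4 : q ≤ C := by exact_mod_cast hq2
    have h5 := hθ q hq1 (by omega) a
    rw [hdeg, pow_one] at ha
    have h6 : (C : ℝ) / τ ≤ M := (Nat.le_ceil _).trans (by exact_mod_cast (by omega : ⌈(C : ℝ) / τ⌉₊ ≤ M))
    have h7 : (C : ℝ) / M ≤ τ := by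
      rw [div_le_iff₀ hτ] at h6
      rw [div_le_iff₀ hM0]
      linarith
    linarith
  have a5 : ‖Pr M θ‖ ≤ ‖SLam Polynomial.X M θ - Pr M θ‖ + ‖SLam Polynomial.X M θ - SMod Polynomial.X w M θ‖ +
      ‖SMod Polynomial.X w M θ‖ := by
    have e : Pr M θ = -(SLam Polynomial.X M θ - Pr M θ) +
        (SLam Polynomial.X M θ - SMod Polynomial.X w M θ) + SMod Polynomial.X w M θ := by ring
    calc ‖Pr M θ‖ = ‖-(SLam Polynomial.X M θ - Pr M θ) +
        (SLam Polynomial.X M θ - SMod Polynomial.X w M θ) + SMod Polynomial.X w M θ‖ := by rw [← e]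
      _ ≤ _ := (norm_add₃_le).trans (by rw [norm_neg])
  have a6 : 0 ≤ ε * M := by positivity
  linarith

/-- partial summation -/
theorem abel_id (f : ℕ → ℝ) (c : ℕ → ℂ) (N m : ℕ) : ∑ n ∈ Ioc N (N + m), ((f n : ℝ) : ℂ) * c n =
    ((f (N + m + 1) : ℝ) : ℂ) * ∑ n ∈ Ioc N (N + m), c n +
    ∑ i ∈ range m, ((f (N + i + 1) - f (N + (i + 1) + 1) : ℝ) : ℂ) * ∑ n ∈ Ioc N (N + (i + 1)), c n := by
  induction m with
  | zero => simp
  | succ m ih =>
    rw [← add_assoc, sum_Ioc_succ_top (by omega), sum_range_succ, ih]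
    rw [← add_assoc N m 1, sum_Ioc_succ_top (by omega) c]
    push_cast
    ring

theorem abel (f : ℕ → ℝ) (c : ℕ → ℂ) (N m : ℕ) (B : ℝ) (hf : ∀ n, N < n → f (n + 1) ≤ f n)
    (hf0 : ∀ n, N < n → 0 ≤ f n) (hB : ∀ i ≤ m, ‖∑ n ∈ Ioc N (N + i), c n‖ ≤ B) :
    ‖∑ n ∈ Ioc N (N + m), ((f n : ℝ) : ℂ) * c n‖ ≤ f (N + 1) * B := by
  rw [abel_id]
  have h1 : ‖((f (N + m + 1) : ℝ) : ℂ) * ∑ n ∈ Ioc N (N + m), c n‖ ≤ f (N + m + 1) * B := by
    rw [norm_mul, Complex.norm_real, Real.norm_of_nonneg (hf0 _ (by omega))]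
    exact mul_le_mul_of_nonneg_left (hB m le_rfl) (hf0 _ (by omega))
  have h2 : ‖∑ i ∈ range m, ((f (N + i + 1) - f (N + (i + 1) + 1) : ℝ) : ℂ) *
      ∑ n ∈ Ioc N (N + (i + 1)), c n‖ ≤ ∑ i ∈ range m, (f (N + i + 1) - f (N + (i + 1) + 1)) * B := by
    refine norm_sum_le_of_le _ fun i hi => ?_
    rw [mem_range] at hi
    have h3 : 0 ≤ f (N + i + 1) - f (N + (i + 1) + 1) := by
      have := hf (N + i + 1) (by omega)
      rw [show N + i + 1 + 1 = N + (i + 1) + 1 by ring] at this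
      linarith
    rw [norm_mul, Complex.norm_real, Real.norm_of_nonneg h3]
    exact mul_le_mul_of_nonneg_left (hB (i + 1) (by omega)) h3
  have h4 : ∑ i ∈ range m, (f (N + i + 1) - f (N + (i + 1) + 1)) = f (N + 0 + 1) - f (N + m + 1) :=
    sum_range_sub' (fun i => f (N + i + 1)) m
  rw [← sum_mul, h4] at h2
  refine (norm_add_le _ _).trans ?_
  rw [add_zero] at h2
  linarith

end WprL

open WprL

theorem wpr : S_WPR := by
  intro ε hε
  obtain ⟨C, hC1, hC⟩ := pr_small (ε / 6) (by positivity)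
  refine ⟨C, hC1, fun τ hτ => ?_⟩
  obtain ⟨M₀, hM₀⟩ := hC τ hτ
  refine ⟨M₀ + 1, fun k hk θ hθ => ?_⟩
  obtain ⟨N, hN⟩ : ∃ N, N = 2 ^ k := ⟨_, rfl⟩
  have hkN : k < N := by rw [hN]; exact Nat.lt_two_pow_self
  have hN0 : (0 : ℝ) < N := by exact_mod_cast (by omega : 0 < N)
  have hk0 : (0 : ℝ) < k := by exact_mod_cast (by omega : 0 < k)
  have hl2 := Real.log_two_gt_d9
  have e : 2 ^ (k + 1) = N + N := by rw [hN, pow_succ]; ring
  obtain ⟨f, hf⟩ : ∃ f : ℕ → ℝ, f = fun n : ℕ => 1 / ((n : ℝ) * Real.log n) := ⟨_, rfl⟩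
  obtain ⟨c, hc⟩ : ∃ c : ℕ → ℂ, c = fun n => (if n.Prime then ((Real.log n : ℝ) : ℂ) * ee (n * θ) else 0) :=
    ⟨_, rfl⟩
  have h1 : ∑ p ∈ (Ioc (2 ^ k) (2 ^ (k + 1))).filter Nat.Prime, ((1 / (p : ℝ) : ℝ) : ℂ) * ee (p * θ) =
      ∑ n ∈ Ioc N (N + N), ((f n : ℝ) : ℂ) * c n := by
    rw [e, ← hN, sum_filter]
    refine sum_congr rfl fun n _ => ?_
    rw [hf, hc]
    simp only
    split_ifs with h
    · rw [← mul_assoc, ← Complex.ofReal_mul]
      congr 2
      have h2 : 0 < Real.log n := Real.log_pos (by exact_mod_cast h.one_lt)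
      have h3 : (0 : ℝ) < n := by exact_mod_cast h.pos
      field_simp
    · rw [mul_zero]
  rw [h1]
  have h2 : ∀ i ≤ N, ‖∑ n ∈ Ioc N (N + i), c n‖ ≤ ε / 2 * N := by
    intro i hi
    have h3 : ∑ n ∈ Ioc N (N + i), c n = Pr (N + i) θ - Pr N θ := by
      unfold Pr
      rw [hc, eq_sub_iff_add_eq, add_comm]
      exact sum_Ioc_consecutive _ (Nat.zero_le _) (by omega)
    rw [h3]
    have a1 := hM₀ (N + i) (by omega) θ hθ
    have a2 := hM₀ N (by omega) θ hθ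
    have a3 : ((N + i : ℕ) : ℝ) ≤ 2 * N := by
      have : N + i ≤ 2 * N := by omega
      exact_mod_cast this
    have a4 := norm_sub_le (Pr (N + i) θ) (Pr N θ)
    have a5 : ε / 6 * ((N + i : ℕ) : ℝ) ≤ ε / 6 * (2 * N) := mul_le_mul_of_nonneg_left a3 (by positivity)
    linarith
  have hlog : ∀ n : ℕ, N < n → 0 < Real.log n := fun n hn => Real.log_pos (by
    exact_mod_cast (by omega : 1 < n))
  have h4 := abel f c N N (ε / 2 * N) (by
    intro n hn
    rw [hf]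
    simp only
    have b1 := hlog n hn
    have b2 : (0 : ℝ) < n := by exact_mod_cast (by omega : 0 < n)
    have b3 : (n : ℝ) ≤ ((n + 1 : ℕ) : ℝ) := by push_cast; linarith
    exact one_div_le_one_div_of_le (by positivity)
      (mul_le_mul b3 (Real.log_le_log b2 b3) b1.le (by positivity))) (by
    intro n hn
    rw [hf]
    simp only
    have b1 := hlog n hn
    positivity) h2
  refine h4.trans ?_
  have h5 : f (N + 1) ≤ 1 / (N * (k * Real.log 2)) := by
    rw [hf]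
    simp only
    have b1 : (k : ℝ) * Real.log 2 ≤ Real.log ((N + 1 : ℕ) : ℝ) := by
      rw [← Real.log_pow]
      apply Real.log_le_log (by positivity)
      have : 2 ^ k ≤ N + 1 := by rw [hN]; omega
      exact_mod_cast this
    have b3 : (N : ℝ) ≤ ((N + 1 : ℕ) : ℝ) := by push_cast; linarith
    exact one_div_le_one_div_of_le (by positivity) (mul_le_mul b3 b1 (by positivity) (by positivity))
  calc f (N + 1) * (ε / 2 * N) ≤ 1 / (N * (k * Real.log 2)) * (ε / 2 * N) :=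
        mul_le_mul_of_nonneg_right h5 (by positivity)
    _ = ε / k * (1 / (2 * Real.log 2)) := by field_simp
    _ ≤ ε / k * 1 := by
        refine mul_le_mul_of_nonneg_left ?_ (by positivity)
        rw [div_le_one (by positivity)]
        linarith
    _ = ε / k := mul_one _

end Pool.Agent.Helper44K9.FC
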